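import Pool.Agent.N155.EvK
import Pool.Agent.W602.GT.Der

/-! The function field of the Zariski closure of an entire curve. -/

set_option autoImplicit false

open Filter Topology Metric Set MvPolynomial

namespace Pool.Agent.N155

open Pool.Agent.Y190.OP Pool.Agent.W602.GT

variable {n : ℕ} {K : Type} [Field K] [Algebra ℂ K]

/-- the rational functions on the variety -/
def fracs (y : Fin (n + 1) → K) : IntermediateField ℂ K where
  carrier := {r | ∃ (d : ℕ) (g1 g0 : MvPolynomial (Fin (n + 1)) ℂ), g1.IsHomogeneous d ∧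
    g0.IsHomogeneous d ∧ val y g0 ≠ 0 ∧ r = val y g1 / val y g0}
  mul_mem' := by
    rintro a b ⟨d, g1, g0, h1, h0, hn, rfl⟩ ⟨e, f1, f0, i1, i0, im, rfl⟩
    refine ⟨d + e, g1 * f1, g0 * f0, h1.mul i1, h0.mul i0, ?_, ?_⟩
    · rw [val_mul']
      exact mul_ne_zero hn im
    · rw [val_mul', val_mul', div_mul_div_comm]
  add_mem' := by
    rintro a b ⟨d, g1, g0, h1, h0, hn, rfl⟩ ⟨e, f1, f0, i1, i0, im, rfl⟩
    refine ⟨d + e, g1 * f0 + g0 * f1, g0 * f0, (h1.mul i0).add (h0.mul i1), h0.mul i0, ?_, ?_⟩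
    · rw [val_mul']
      exact mul_ne_zero hn im
    · rw [val_mul', val_add', val_mul', val_mul', div_add_div _ _ hn im]
  algebraMap_mem' := fun c => ⟨0, C c, 1, isHomogeneous_C _ _, isHomogeneous_one _ _, by
      unfold val
      rw [map_one]
      exact one_ne_zero, by
      unfold val
      rw [map_one, div_one, aeval_C]⟩
  inv_mem' := by
    rintro a ⟨d, g1, g0, h1, h0, hn, rfl⟩
    by_cases hz : val y g1 = 0
    · refine ⟨0, 0, 1, isHomogeneous_zero _ _ _, isHomogeneous_one _ _, ?_, ?_⟩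
      · unfold val
        rw [map_one]
        exact one_ne_zero
      · rw [hz, zero_div, inv_zero]
        unfold val
        rw [map_zero, zero_div]
    · exact ⟨d, g0, g1, h0, h1, hz, by rw [inv_div]⟩

theorem exists_frac {y : Fin (n + 1) → K} (hgen : coords ℂ y = ⊤) (r : K) :
    Nonempty (Frac y r) := by
  have h1 : coords ℂ y ≤ fracs y := by
    unfold coords
    rw [IntermediateField.adjoin_le_iff]
    rintro _ ⟨i, j, hj, rfl⟩
    refine ⟨1, X i, X j, isHomogeneous_X _ _, isHomogeneous_X _ _, ?_, ?_⟩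
    · unfold val
      rw [aeval_X]
      exact hj
    · unfold val
      rw [aeval_X, aeval_X]
  have h2 : r ∈ coords ℂ y := by rw [hgen]; exact IntermediateField.mem_top
  obtain ⟨d, g1, g0, h1, h0, hn, he⟩ := h1 h2
  exact ⟨⟨d, g1, g0, h1, h0, hn, he⟩⟩

/-- presentations of all the rational functions -/
noncomputable def fr {y : Fin (n + 1) → K} (hgen : coords ℂ y = ⊤) (r : K) : Frac y r :=
  (exists_frac hgen r).some

theorem ess_of_coords {y : Fin (n + 1) → K} (hgen : coords ℂ y = ⊤) :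
    Algebra.EssFiniteType ℂ K := by
  classical
  have hfin : {z : K | ∃ i j, y j ≠ 0 ∧ z = y i / y j}.Finite := by
    refine (Set.finite_range fun p : Fin (n + 1) × Fin (n + 1) => y p.1 / y p.2).subset ?_
    rintro _ ⟨i, j, -, rfl⟩
    exact ⟨(i, j), rfl⟩
  rw [← IntermediateField.fg_top_iff]
  refine ⟨hfin.toFinset, ?_⟩
  rw [Set.Finite.coe_toFinset]
  exact hgen

/-- classes of polynomial expressions -/
theorem aeval_cl {σ : Type} [Fintype σ] (w : σ → ℂ → ℂ) (hw : ∀ j, Meromorphic (w j))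
    (T : MvPolynomial σ ℂ) : MvPolynomial.aeval (fun j => cl (w j) (hw j)) T =
      cl (fun z => MvPolynomial.eval (fun j => w j z) T) (mero_eval hw T) := by
  have h1 : ∀ z, (MvPolynomial.aeval (fun j => (⟨w j, hw j⟩ : MerS)) T).1 z =
      MvPolynomial.eval (fun j => w j z) T := by
    intro z
    have h2 := MvPolynomial.comp_aeval_apply (f := fun j => (⟨w j, hw j⟩ : MerS)) (evS z) T
    have h3 : evS z (MvPolynomial.aeval (fun j => (⟨w j, hw j⟩ : MerS)) T) =
        (MvPolynomial.aeval (fun j => (⟨w j, hw j⟩ : MerS)) T).1 z := rfl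
    rw [← h3, h2]
    have h6 : (fun i => evS z (⟨w i, hw i⟩ : MerS)) = fun j => w j z := rfl
    rw [h6, MvPolynomial.aeval_eq_eval]
  have h4 := MvPolynomial.comp_aeval_apply (f := fun j => (⟨w j, hw j⟩ : MerS))
    (Ideal.Quotient.mkₐ ℂ MJ) T
  have h5 : MvPolynomial.aeval (fun j => cl (w j) (hw j)) T =
      Ideal.Quotient.mkₐ ℂ MJ (MvPolynomial.aeval (fun j => (⟨w j, hw j⟩ : MerS)) T) := h4.symm
  rw [h5]
  change Ideal.Quotient.mk MJ _ = Ideal.Quotient.mk MJ _
  congr 1
  exact Subtype.ext (funext h1)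

variable {φ : ℂ → Mat (n + 1)}

/-- the Zariski closure of an entire curve -/
theorem exists_closure (hφ : HolP univ φ) :
    ∃ (K1 : Type) (_ : Field K1) (_ : Algebra ℂ K1) (w : ℕ) (y1 : Fin (n + 1) → K1), y1 ≠ 0 ∧
      coords ℂ y1 = ⊤ ∧ Algebra.trdeg ℂ K1 = w ∧
      (∀ G : MvPolynomial (Fin (n + 1)) ℂ, IsForm G → (val y1 G = 0 ↔ ∀ z, ¬ nz G (φ z))) ∧
      (w = 0 → ∀ z, φ z = φ 0) := by
  classical
  obtain ⟨V0, f0, -, h0V, -, hf0⟩ := hφ 0 (mem_univ 0)
  obtain ⟨j0, hj0⟩ := Function.ne_iff.1 (hf0 0 h0V).1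
  have hj0' : nz (X j0) (φ 0) := by
    rw [(hf0 0 h0V).2, nz_Phi (isHomogeneous_X _ _) (hf0 0 h0V).1, eval_X]
    exact hj0
  have hcod := nz_codis hφ (isHomogeneous_X ℂ j0) hj0'
  let q : Fin (n + 1) → ℂ → ℂ := fun j z => qv (X j) (X j0) (φ z)
  have hq : ∀ j, Meromorphic (q j) := fun j =>
    mero_qv hφ (isHomogeneous_X _ _) (isHomogeneous_X _ _)
  let y' : Fin (n + 1) → MK := fun j => cl (q j) (hq j)
  have hPhi : ∀ z, ∃ u : Fin (n + 1) → ℂ, u ≠ 0 ∧ φ z = Phi u := by
    intro z
    obtain ⟨V, f, -, hzV, -, hf⟩ := hφ z (mem_univ z)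
    exact ⟨f z, hf z hzV⟩
  have hy'0 : y' j0 = 1 := by
    have h1 : (1 : MK) = algebraMap ℂ MK 1 := (map_one _).symm
    rw [h1, ← cl_const, cl_eq]
    filter_upwards [hcod] with z hz
    obtain ⟨u, hu, he⟩ := hPhi z
    rw [he] at hz
    change qv (X j0) (X j0) (φ z) = 1
    rw [he, qv_Phi (isHomogeneous_X _ _) (isHomogeneous_X _ _) hu, eval_X]
    rw [nz_Phi (isHomogeneous_X _ _) hu, eval_X] at hz
    exact div_self hz
  have hmem : ∀ j, y' j ∈ coords ℂ y' := by
    intro j
    apply IntermediateField.subset_adjoin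
    refine ⟨j, j0, by rw [hy'0]; exact one_ne_zero, ?_⟩
    rw [hy'0, div_one]
  let y : Fin (n + 1) → coords ℂ y' := fun j => ⟨y' j, hmem j⟩
  have hy0 : y j0 = 1 := Subtype.ext hy'0
  have hval : ∀ G : MvPolynomial (Fin (n + 1)) ℂ, ((val y G : coords ℂ y') : MK) =
      val y' G := by
    intro G
    have h4 := MvPolynomial.comp_aeval_apply (f := y) (coords ℂ y').val G
    exact h4
  have hgen : coords ℂ y = ⊤ := by
    have h1 : (coords ℂ y).map (coords ℂ y').val = coords ℂ y' := by
      unfold coords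
      rw [IntermediateField.adjoin_map]
      congr 1
      ext z
      constructor
      · rintro ⟨_, ⟨i, j, hj, rfl⟩, rfl⟩
        refine ⟨i, j, fun h => hj (Subtype.ext h), ?_⟩
        rw [map_div₀]
        rfl
      · rintro ⟨i, j, hj, rfl⟩
        exact ⟨y i / y j, ⟨i, j, fun h => hj (congrArg Subtype.val h), rfl⟩, rfl⟩
    apply IntermediateField.map_injective (coords ℂ y').val
    rw [h1]
    ext z
    simp only [IntermediateField.mem_map, IntermediateField.mem_top, true_and]
    constructor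
    · intro hz
      exact ⟨⟨z, hz⟩, rfl⟩
    · rintro ⟨x, rfl⟩
      exact x.2
  have hess : Algebra.EssFiniteType ℂ (coords ℂ y') := ess_of_coords hgen
  obtain ⟨w, hw⟩ := Cardinal.lt_aleph0.1 (trdeg_lt_aleph0 ℂ (coords ℂ y'))
  have hrel : ∀ G : MvPolynomial (Fin (n + 1)) ℂ, IsForm G →
      (val y G = 0 ↔ ∀ z, ¬ nz G (φ z)) := by
    rintro G ⟨d, hG⟩
    have h1 : val y G = 0 ↔ val y' G = 0 := by
      rw [← hval G]
      exact (map_eq_zero_iff (coords ℂ y').val (coords ℂ y').val.injective).symm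
    have h2 : val y' G = cl (fun z => eval (fun j => q j z) G) (mero_eval hq G) := aeval_cl q hq G
    have h3 : ∀ z, nz (X j0) (φ z) → (eval (fun j => q j z) G = 0 ↔ ¬ nz G (φ z)) := by
      intro z hz
      obtain ⟨u, hu, he⟩ := hPhi z
      rw [he, nz_Phi (isHomogeneous_X _ _) hu, eval_X] at hz
      have h4 : (fun j => q j z) = (u j0)⁻¹ • u := by
        funext j
        change qv (X j) (X j0) (φ z) = _
        rw [he, qv_Phi (isHomogeneous_X _ _) (isHomogeneous_X _ _) hu, eval_X, eval_X,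
          Pi.smul_apply, smul_eq_mul]
        ring
      rw [h4, eval_smul hG, he, nz_Phi hG hu, not_not, mul_eq_zero]
      constructor
      · intro h
        exact h.resolve_left (pow_ne_zero _ (inv_ne_zero hz))
      · intro h
        exact Or.inr h
    rw [h1, h2, cl_eq_zero]
    constructor
    · intro h z hz
      have h4 := nz_codis hφ hG hz
      obtain ⟨w, hw1, hw2, hw3⟩ := (h.and (h4.and hcod)).exists
      exact (h3 w hw3).1 hw1 hw2
    · intro h
      filter_upwards [hcod] with z hz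
      exact (h3 z hz).2 (h z)
  refine ⟨coords ℂ y', inferInstance, inferInstance, w, y, ?_, hgen, hw, hrel, ?_⟩
  · exact Function.ne_iff.2 ⟨j0, by rw [hy0]; exact one_ne_zero⟩
  · intro hw0
    rw [hw0, Nat.cast_zero] at hw
    have hw := trdeg_eq_zero_iff.1 hw
    choose c hc using fun j => const_of_algebraic (hw.isAlgebraic (y j))
    have hc0 : c j0 = 1 := by
      have h1 := hc j0
      rw [hy0] at h1
      have h2 : algebraMap ℂ (coords ℂ y') (c j0) = algebraMap ℂ (coords ℂ y') 1 := by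
        rw [map_one, ← h1]
      exact (algebraMap ℂ (coords ℂ y')).injective h2
    have hcne : c ≠ 0 := Function.ne_iff.2 ⟨j0, by rw [hc0]; exact one_ne_zero⟩
    have hcr : ∀ j k z, ¬ nz (C (c k) * X j - C (c j) * X k) (φ z) := by
      intro j k
      refine (hrel _ ⟨1, ?_⟩).1 ?_
      · refine IsHomogeneous.sub ?_ ?_
        · have := (isHomogeneous_C (Fin (n + 1)) (c k)).mul (isHomogeneous_X ℂ j)
          rwa [zero_add] at this
        · have := (isHomogeneous_C (Fin (n + 1)) (c j)).mul (isHomogeneous_X ℂ k)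
          rwa [zero_add] at this
      · rw [val_sub', val_mul', val_mul', val_C', val_C', val_X', val_X', hc j, hc k]
        ring
    have hall : ∀ z, φ z = Phi c := by
      intro z
      obtain ⟨u, hu, he⟩ := hPhi z
      rw [he, Phi_eq_iff hu hcne]
      intro j k
      have h1 := hcr j k z
      rw [he, nz_Phi (d := 1) _ hu, not_not, map_sub, map_mul, map_mul, eval_C, eval_C, eval_X,
        eval_X] at h1
      · linear_combination h1
      · refine IsHomogeneous.sub ?_ ?_
        · have := (isHomogeneous_C (Fin (n + 1)) (c k)).mul (isHomogeneous_X ℂ j)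
          rwa [zero_add] at this
        · have := (isHomogeneous_C (Fin (n + 1)) (c j)).mul (isHomogeneous_X ℂ k)
          rwa [zero_add] at this
    intro z
    rw [hall z, hall 0]

end Pool.Agent.N155
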