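import Mathlib

/-! A barrier for functions which are contracted by the twisted suprema over balls. -/

set_option autoImplicit false

open Filter Topology Metric Set

namespace Pool.Agent.N155

/-- the contraction property of the function `d` -/
def Contr (R δ θ : ℝ) (d : ℂ → ℝ) : Prop :=
  ∀ z0 : ℂ, (∀ z ∈ closedBall z0 R, d z ≤ δ) → ∀ a : ℂ,
    ∃ z ∈ closedBall z0 R, d z0 ≤ θ * (d z * ‖Complex.exp (a * (z - z0))‖)

lemma re_id (z z0 : ℂ) (κ : ℝ) : ((-2 * κ * (starRingEnd ℂ) z0 : ℂ) * (z - z0)).re =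
    -κ * (‖z‖ ^ 2 - ‖z0‖ ^ 2 - ‖z - z0‖ ^ 2) := by
  rw [← Complex.normSq_eq_norm_sq, ← Complex.normSq_eq_norm_sq, ← Complex.normSq_eq_norm_sq]
  simp only [Complex.normSq_apply, Complex.sub_re, Complex.sub_im, Complex.mul_re, Complex.mul_im,
    Complex.conj_re, Complex.conj_im, Complex.neg_re, Complex.neg_im, Complex.ofReal_re,
    Complex.ofReal_im]
  norm_num
  ring

/-- **Barrier.** -/
theorem barrier {R δ θ κ ρ : ℝ} {d : ℂ → ℝ} (hR : 0 ≤ R) (hδ : 0 ≤ δ) (hκ : 0 ≤ κ)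
    (hκθ : θ * Real.exp (κ * R ^ 2) < 1) (hθ : 0 ≤ θ)
    (hc : ContinuousOn d (closedBall 0 ρ)) (hd : ∀ z, 0 ≤ d z) (hC : Contr R δ θ d) (hρ : R ≤ ρ)
    (hb : ∀ z ∈ closedBall (0 : ℂ) ρ, d z ≤ δ) :
    ∀ z ∈ closedBall (0 : ℂ) ρ, d z ≤ δ * Real.exp (κ * (‖z‖ ^ 2 - (ρ - R) ^ 2)) := by
  set h : ℂ → ℝ := fun z => d z * Real.exp (-κ * ‖z‖ ^ 2) with hh
  have hcont : ContinuousOn h (closedBall 0 ρ) := by
    apply hc.mul
    apply Continuous.continuousOn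
    fun_prop
  obtain ⟨z0, hz0, hmax⟩ := (isCompact_closedBall (0 : ℂ) ρ).exists_isMaxOn
    ⟨0, mem_closedBall_self (hR.trans hρ)⟩ hcont
  have key : h z0 ≤ δ * Real.exp (-κ * (ρ - R) ^ 2) := by
    by_contra hcon
    push Not at hcon
    have h0 : ‖z0‖ < ρ - R := by
      by_contra h1
      push Not at h1
      apply absurd hcon
      push Not
      have h2 : (ρ - R) ^ 2 ≤ ‖z0‖ ^ 2 := pow_le_pow_left₀ (by linarith) h1 2
      have h3 : -κ * ‖z0‖ ^ 2 ≤ -κ * (ρ - R) ^ 2 := by nlinarith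
      have h4 := Real.exp_le_exp.2 h3
      calc h z0 = d z0 * Real.exp (-κ * ‖z0‖ ^ 2) := rfl
        _ ≤ δ * Real.exp (-κ * (ρ - R) ^ 2) :=
          mul_le_mul (hb z0 hz0) h4 (Real.exp_pos _).le hδ
    have hpos : 0 < h z0 := lt_of_le_of_lt (by positivity) hcon
    have hsub : closedBall z0 R ⊆ closedBall (0 : ℂ) ρ := by
      intro z hz
      rw [mem_closedBall, dist_eq_norm] at hz
      rw [mem_closedBall_zero_iff]
      have := norm_add_le (z - z0) z0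
      rw [sub_add_cancel] at this
      linarith
    obtain ⟨z, hz, hdz⟩ := hC z0 (fun z hz => hb z (hsub hz)) (-2 * κ * (starRingEnd ℂ) z0)
    rw [Complex.norm_exp, re_id] at hdz
    have hzR : ‖z - z0‖ ≤ R := by
      rwa [mem_closedBall, dist_eq_norm] at hz
    have h1 : h z ≤ h z0 := hmax (hsub hz)
    have h2 : h z0 ≤ θ * (h z * Real.exp (κ * ‖z - z0‖ ^ 2)) := by
      have h3 : h z0 ≤ θ * (d z * Real.exp (-κ * (‖z‖ ^ 2 - ‖z0‖ ^ 2 - ‖z - z0‖ ^ 2))) *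
          Real.exp (-κ * ‖z0‖ ^ 2) := mul_le_mul_of_nonneg_right hdz (Real.exp_pos _).le
      refine h3.trans (le_of_eq ?_)
      have h4 : Real.exp (-κ * (‖z‖ ^ 2 - ‖z0‖ ^ 2 - ‖z - z0‖ ^ 2)) * Real.exp (-κ * ‖z0‖ ^ 2) =
          Real.exp (-κ * ‖z‖ ^ 2) * Real.exp (κ * ‖z - z0‖ ^ 2) := by
        rw [← Real.exp_add, ← Real.exp_add]
        congr 1
        ring
      calc θ * (d z * Real.exp (-κ * (‖z‖ ^ 2 - ‖z0‖ ^ 2 - ‖z - z0‖ ^ 2))) *
            Real.exp (-κ * ‖z0‖ ^ 2) = θ * (d z * (Real.exp (-κ * (‖z‖ ^ 2 - ‖z0‖ ^ 2 -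
              ‖z - z0‖ ^ 2)) * Real.exp (-κ * ‖z0‖ ^ 2))) := by ring
        _ = θ * (h z * Real.exp (κ * ‖z - z0‖ ^ 2)) := by
          rw [h4, hh]
          ring
    have h5 : Real.exp (κ * ‖z - z0‖ ^ 2) ≤ Real.exp (κ * R ^ 2) := by
      apply Real.exp_le_exp.2
      have : ‖z - z0‖ ^ 2 ≤ R ^ 2 := pow_le_pow_left₀ (norm_nonneg _) hzR 2
      exact mul_le_mul_of_nonneg_left this hκ
    have hz0' : 0 ≤ h z := mul_nonneg (hd z) (Real.exp_pos _).le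
    have h6 : h z0 ≤ (θ * Real.exp (κ * R ^ 2)) * h z0 := by
      calc h z0 ≤ θ * (h z * Real.exp (κ * ‖z - z0‖ ^ 2)) := h2
        _ ≤ θ * (h z0 * Real.exp (κ * R ^ 2)) := by
          apply mul_le_mul_of_nonneg_left _ hθ
          exact mul_le_mul h1 h5 (Real.exp_pos _).le hpos.le
        _ = (θ * Real.exp (κ * R ^ 2)) * h z0 := by ring
    have h7 := mul_lt_mul_of_pos_right hκθ hpos
    linarith
  intro z hz
  have h1 : h z ≤ δ * Real.exp (-κ * (ρ - R) ^ 2) := (hmax hz).trans key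
  have h2 : d z = h z * Real.exp (κ * ‖z‖ ^ 2) := by
    rw [hh]
    simp only
    rw [mul_assoc, ← Real.exp_add]
    simp
  rw [h2]
  calc h z * Real.exp (κ * ‖z‖ ^ 2) ≤ (δ * Real.exp (-κ * (ρ - R) ^ 2)) * Real.exp (κ * ‖z‖ ^ 2) :=
        mul_le_mul_of_nonneg_right h1 (Real.exp_pos _).le
    _ = δ * Real.exp (κ * (‖z‖ ^ 2 - (ρ - R) ^ 2)) := by
      rw [mul_assoc, ← Real.exp_add]
      congr 2
      ring

/-- a suitable constant -/
theorem exists_kappa {R θ : ℝ} (hR : 0 < R) (hθ0 : 0 < θ) (hθ : θ < 1) :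
    ∃ κ : ℝ, 0 < κ ∧ θ * Real.exp (κ * R ^ 2) < 1 := by
  have hlog : Real.log θ < 0 := Real.log_neg hθ0 hθ
  have h1 : 0 < -Real.log θ / 2 / R ^ 2 := div_pos (by linarith) (by positivity)
  refine ⟨-Real.log θ / 2 / R ^ 2, h1, ?_⟩
  have h2 : -Real.log θ / 2 / R ^ 2 * R ^ 2 = -Real.log θ / 2 := by
    field_simp
  rw [h2]
  have h3 : θ = Real.exp (Real.log θ) := (Real.exp_log hθ0).symm
  calc θ * Real.exp (-Real.log θ / 2) = Real.exp (Real.log θ) * Real.exp (-Real.log θ / 2) := by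
        rw [← h3]
    _ = Real.exp (Real.log θ / 2) := by
        rw [← Real.exp_add]
        congr 1
        ring
    _ < 1 := by
        rw [Real.exp_lt_one_iff]
        linarith

/-- a function which is small everywhere vanishes -/
theorem eq_zero_of_small {R δ θ : ℝ} {d : ℂ → ℝ} (hR : 0 < R) (hδ : 0 ≤ δ) (hθ0 : 0 < θ)
    (hθ : θ < 1) (hc : Continuous d) (hd : ∀ z, 0 ≤ d z) (hC : Contr R δ θ d)
    (hb : ∀ z, d z ≤ δ) (z : ℂ) : d z = 0 := by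
  obtain ⟨κ, hκ, hκθ⟩ := exists_kappa hR hθ0 hθ
  have h1 : ∀ ρ : ℝ, R + ‖z‖ ≤ ρ → d z ≤ δ * Real.exp (κ * (‖z‖ ^ 2 - (ρ - R) ^ 2)) := by
    intro ρ hρ
    have := norm_nonneg z
    exact barrier hR.le hδ hκ.le hκθ hθ0.le hc.continuousOn hd hC (by linarith)
      (fun w _ => hb w) z (mem_closedBall_zero_iff.2 (by linarith))
  have h2 : Tendsto (fun ρ : ℝ => δ * Real.exp (κ * (‖z‖ ^ 2 - (ρ - R) ^ 2))) atTop (𝓝 (δ * 0)) := by
    apply Tendsto.const_mul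
    apply Real.tendsto_exp_atBot.comp
    apply Tendsto.const_mul_atBot hκ
    apply tendsto_atBot_add_const_left
    apply tendsto_neg_atTop_atBot.comp
    exact (tendsto_pow_atTop two_ne_zero).comp (tendsto_atTop_add_const_right _ _ tendsto_id)
  rw [mul_zero] at h2
  exact le_antisymm (ge_of_tendsto h2 (eventually_atTop.2 ⟨_, h1⟩)) (hd z)

end Pool.Agent.N155
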