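import Pool.Agent.N155.Cur
import Pool.Agent.N155.Bar

/-! Separation of holomorphic curves whose distance is contracted. -/

set_option autoImplicit false

open Filter Topology Metric Set

namespace Pool.Agent.N155

open Pool.Agent.Y190.OP

variable {N : ℕ} {φ ψ : ℂ → Mat N}

theorem holP_shift (h : HolP univ φ) (a : ℂ) : HolP univ (fun w => φ (a + w)) := by
  intro z _
  obtain ⟨V, F, hV, hzV, hd, hF⟩ := h (a + z) (mem_univ _)
  have hc : Continuous fun w : ℂ => a + w := by fun_prop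
  exact ⟨(fun w => a + w) ⁻¹' V, fun w => F (a + w), hV.preimage hc, hzV,
    hd.comp (by fun_prop) (fun w hw => hw), fun w hw => hF _ hw⟩

theorem fderiv_shift (φ : ℂ → Mat N) (a z : ℂ) :
    fderiv ℝ (fun w => φ (a + w)) z = fderiv ℝ φ (a + z) := by
  have := fderiv_comp_add_left (𝕜 := ℝ) (f := φ) (x := z) a
  exact this

theorem separation {T : Set (Mat N)} (hT : IsCompact T) (hTP : T ⊆ PM) {K R δ θ : ℝ} (hR : 0 < R)
    (hδ : 0 < δ) (hθ0 : 0 < θ) (hθ : θ < 1) {φ ψ : ℕ → ℂ → Mat N} {𝓤 : Ultrafilter ℕ}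
    (hφ : ∀ n, HolP univ (φ n)) (hφT : ∀ n z, φ n z ∈ T) (hφK : ∀ n z, ‖fderiv ℝ (φ n) z‖ ≤ K)
    (hψ : ∀ n, HolP univ (ψ n)) (hψT : ∀ n z, ψ n z ∈ T) (hψK : ∀ n z, ‖fderiv ℝ (ψ n) z‖ ≤ K)
    (hC : ∀ n, Contr R δ θ (fun z => ‖φ n z - ψ n z‖)) {H : ℂ → Mat N}
    (h1 : CConv (𝓤 : Filter ℕ) univ φ H) (h2 : CConv (𝓤 : Filter ℕ) univ ψ H) :
    ∀ᶠ n in (𝓤 : Filter ℕ), ∀ z, φ n z = ψ n z := by
  classical
  by_contra hcon
  rw [← Ultrafilter.eventually_not] at hcon
  have hcontφ : ∀ n, Continuous (φ n) := fun n => continuous_iff_continuousAt.2 fun z =>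
    (hφ n).continuousAt (mem_univ z)
  have hcontψ : ∀ n, Continuous (ψ n) := fun n => continuous_iff_continuousAt.2 fun z =>
    (hψ n).continuousAt (mem_univ z)
  have hcont : ∀ n, Continuous (fun z => ‖φ n z - ψ n z‖) := fun n =>
    ((hcontφ n).sub (hcontψ n)).norm
  have hz : ∀ n, ∃ z0 : ℂ, (¬ ∀ z, φ n z = ψ n z) → δ ≤ ‖φ n z0 - ψ n z0‖ ∧
      ∀ z, ‖z‖ < ‖z0‖ → ‖φ n z - ψ n z‖ < δ := by
    intro n
    by_cases hn : ∀ z, φ n z = ψ n z
    · exact ⟨0, fun h => absurd hn h⟩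
    set S : Set ℂ := {z | δ ≤ ‖φ n z - ψ n z‖} with hS
    have hSc : IsClosed S := isClosed_le continuous_const (hcont n)
    have hSne : S.Nonempty := by
      by_contra hemp
      apply hn
      intro z
      have h3 := eq_zero_of_small hR hδ.le hθ0 hθ (hcont n) (fun z => norm_nonneg _) (hC n)
        (fun w => by
          by_contra h4
          push Not at h4
          exact hemp ⟨w, h4.le⟩) z
      exact sub_eq_zero.1 (norm_eq_zero.1 h3)
    obtain ⟨z0, hz0, hz0'⟩ := hSc.exists_infDist_eq_dist hSne (0 : ℂ)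
    refine ⟨z0, fun _ => ⟨hz0, fun z hz => ?_⟩⟩
    by_contra h4
    push Not at h4
    have h5 : infDist (0 : ℂ) S ≤ dist 0 z := infDist_le_dist_of_mem h4
    rw [hz0', dist_zero_left, dist_zero_left] at h5
    linarith
  choose z hz using hz
  have hz' : ∀ᶠ n in (𝓤 : Filter ℕ), δ ≤ ‖φ n (z n) - ψ n (z n)‖ ∧
      ∀ w, ‖w‖ < ‖z n‖ → ‖φ n w - ψ n w‖ < δ := by
    filter_upwards [hcon] with n hn
    exact hz n hn
  have hr : ∀ L : ℝ, ∀ᶠ n in (𝓤 : Filter ℕ), L < ‖z n‖ := by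
    intro L
    filter_upwards [hz', CConv.compact h1 h2 (isCompact_closedBall (0 : ℂ) L) hδ] with n hn1 hn2
    by_contra h3
    push Not at h3
    have := hn2 (z n) (mem_closedBall_zero_iff.2 h3)
    linarith [hn1.1]
  -- the direction
  obtain ⟨u, hu⟩ := exists_lim (𝓤 := 𝓤) (h := fun n => z n / (‖z n‖ : ℂ)) (C := 1)
    (Eventually.of_forall fun n => by
      rw [norm_div, Complex.norm_real, norm_norm]
      exact div_self_le_one _)
  -- the recentred limits
  have hshφ : ∀ n, HolP univ (fun w => φ n (z n + w)) := fun n => holP_shift (hφ n) _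
  have hshψ : ∀ n, HolP univ (fun w => ψ n (z n + w)) := fun n => holP_shift (hψ n) _
  obtain ⟨H1, hH1, -, hc1, -⟩ := exists_limit hT hTP (𝓤 := 𝓤) (K := K) hshφ
    (fun n w => hφT n _) (fun n w => by rw [fderiv_shift]; exact hφK n _)
  obtain ⟨H2, hH2, -, hc2, -⟩ := exists_limit hT hTP (𝓤 := 𝓤) (K := K) hshψ
    (fun n w => hψT n _) (fun n w => by rw [fderiv_shift]; exact hψK n _)
  have hdist : ∀ w, Tendsto (fun n => ‖φ n (z n + w) - ψ n (z n + w)‖) 𝓤 (𝓝 ‖H1 w - H2 w‖) :=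
    fun w => ((hc1.pointwise (mem_univ w)).sub (hc2.pointwise (mem_univ w))).norm
  have h0 : δ ≤ ‖H1 0 - H2 0‖ := by
    refine ge_of_tendsto (hdist 0) ?_
    filter_upwards [hz'] with n hn
    rw [add_zero]
    exact hn.1
  obtain ⟨κ, hκ, hκθ⟩ := exists_kappa hR hθ0 hθ
  set s : ℝ := R + 3 with hs
  have hball : ∀ w ∈ ball (-(s : ℂ) * u) (1 / 2), H1 w = H2 w := by
    intro w hw
    rw [mem_ball, dist_eq_norm] at hw
    have hsmall : ∀ᶠ n in (𝓤 : Filter ℕ), s * ‖z n / (‖z n‖ : ℂ) - u‖ < 1 / 2 := by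
      have h3 : Tendsto (fun n => s * ‖z n / (‖z n‖ : ℂ) - u‖) 𝓤 (𝓝 0) := by
        have := ((hu.sub_const u).norm).const_mul s
        simpa using this
      exact h3.eventually_lt_const (by norm_num)
    have hbd : ∀ᶠ n in (𝓤 : Filter ℕ), ‖φ n (z n + w) - ψ n (z n + w)‖ ≤
        δ * Real.exp (κ * (-4 * (‖z n‖ - R) + 4)) := by
      filter_upwards [hsmall, hr s, hz'] with n hn1 hn2 hn3
      have hzpos : 0 < ‖z n‖ := by linarith
      have hzc : (‖z n‖ : ℂ) ≠ 0 := by exact_mod_cast hzpos.ne'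
      have h3 : z n + w = ((‖z n‖ - s : ℝ) : ℂ) * (z n / (‖z n‖ : ℂ)) +
          (s : ℂ) * (z n / (‖z n‖ : ℂ) - u) + (w - -(s : ℂ) * u) := by
        push_cast
        field_simp
        ring
      have h4 : ‖z n + w‖ ≤ ‖z n‖ - s + 1 := by
        rw [h3]
        refine (norm_add_le _ _).trans ?_
        refine (add_le_add (norm_add_le _ _) le_rfl).trans ?_
        rw [norm_mul, norm_mul, Complex.norm_real, Complex.norm_real, norm_div, Complex.norm_real,
          norm_norm, div_self hzpos.ne', mul_one, Real.norm_of_nonneg (by linarith),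
          Real.norm_of_nonneg (by rw [hs]; linarith)]
        linarith
      have h5 := barrier (ρ := ‖z n‖) hR.le hδ.le hκ.le hκθ hθ0.le (hcont n).continuousOn
        (fun z => norm_nonneg _) (hC n) (by linarith) (by
          intro x hx
          rw [mem_closedBall_zero_iff] at hx
          have h6 : closedBall (0 : ℂ) ‖z n‖ ⊆ {x | ‖φ n x - ψ n x‖ ≤ δ} := by
            rw [← closure_ball (0 : ℂ) hzpos.ne']
            apply closure_minimal
            · intro y hy
              exact (hn3.2 y (mem_ball_zero_iff.1 hy)).le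
            · exact isClosed_le (hcont n) continuous_const
          exact h6 (mem_closedBall_zero_iff.2 hx)) (z n + w)
        (mem_closedBall_zero_iff.2 (by linarith))
      refine h5.trans ?_
      apply mul_le_mul_of_nonneg_left _ hδ.le
      apply Real.exp_le_exp.2
      apply mul_le_mul_of_nonneg_left _ hκ.le
      have h6 : ‖z n + w‖ ^ 2 ≤ (‖z n‖ - s + 1) ^ 2 := pow_le_pow_left₀ (norm_nonneg _) h4 2
      have h7 : (‖z n‖ - s + 1) ^ 2 - (‖z n‖ - R) ^ 2 = -4 * (‖z n‖ - R) + 4 := by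
        rw [hs]; ring
      linarith
    have hrt : Tendsto (fun n => ‖z n‖) 𝓤 atTop := tendsto_atTop.2 fun L => (hr L).mono fun n hn => hn.le
    have h3 : Tendsto (fun n => δ * Real.exp (κ * (-4 * (‖z n‖ - R) + 4))) 𝓤 (𝓝 (δ * 0)) := by
      apply Tendsto.const_mul
      apply Real.tendsto_exp_atBot.comp
      apply Tendsto.const_mul_atBot hκ
      apply tendsto_atBot_add_const_right
      apply Tendsto.const_mul_atTop_of_neg (by norm_num)
      exact tendsto_atTop_add_const_right _ _ hrt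
    rw [mul_zero] at h3
    have h4 : ‖H1 w - H2 w‖ ≤ 0 := le_of_tendsto_of_tendsto (hdist w) h3 hbd
    exact sub_eq_zero.1 (norm_eq_zero.1 (le_antisymm h4 (norm_nonneg _)))
  have h3 := holP_ext hH1 hH2 (z0 := -(s : ℂ) * u) (by
    filter_upwards [ball_mem_nhds (-(s : ℂ) * u) (by norm_num : (0 : ℝ) < 1 / 2)] with w hw
    exact hball w hw) 0
  rw [h3, sub_self, norm_zero] at h0
  linarith

end Pool.Agent.N155
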