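import Pool.Agent.N155.Del

/-! Rigidity of the curves in a surface with pluricanonical forms. -/

set_option autoImplicit false

open Filter Topology Metric Set MvPolynomial

namespace Pool.Agent.N155

open FF Pool.Agent.Y190.OP Pool.Agent.W602.GT Pool.Agent.TH143.GT

variable {n : ℕ} {K : Type} [Field K] [Algebra ℂ K] {y : Fin (n + 1) → K}

theorem isCompact_TX : IsCompact (TX y) := by
  set S : Set (Fin (n + 1) → ℂ) := sphere 0 1 ∩ {u | ∀ G : MvPolynomial (Fin (n + 1)) ℂ, IsForm G →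
    val y G = 0 → eval u G = 0} with hS
  have hcl : IsClosed {u : Fin (n + 1) → ℂ | ∀ G : MvPolynomial (Fin (n + 1)) ℂ, IsForm G →
      val y G = 0 → eval u G = 0} := by
    have h1 : {u : Fin (n + 1) → ℂ | ∀ G : MvPolynomial (Fin (n + 1)) ℂ, IsForm G →
      val y G = 0 → eval u G = 0} = ⋂ (G : MvPolynomial (Fin (n + 1)) ℂ) (_ : IsForm G)
        (_ : val y G = 0), {u | eval u G = 0} := by
      ext u
      simp only [mem_iInter]
      rfl
    rw [h1]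
    refine isClosed_iInter fun G => isClosed_iInter fun _ => isClosed_iInter fun _ => ?_
    have h2 : Continuous fun u : Fin (n + 1) → ℂ => eval u G := by
      simp only [eval_eq']
      fun_prop
    exact isClosed_eq h2 continuous_const
  have hSc : IsCompact S := (isCompact_sphere 0 1).inter_right hcl
  have hne : ∀ u ∈ S, u ≠ 0 := by
    rintro u ⟨hu, -⟩ rfl
    rw [mem_sphere, dist_self] at hu
    exact zero_ne_one hu
  have himg : TX y = Phi '' S := by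
    ext M
    constructor
    · rintro ⟨u, hu, rfl⟩
      have hn : (‖u‖ : ℂ) ≠ 0 := by
        have := norm_pos_iff.2 hu.1
        exact_mod_cast this.ne'
      refine ⟨(‖u‖ : ℂ)⁻¹ • u, ⟨?_, ?_⟩, Phi_smul (inv_ne_zero hn) u⟩
      · rw [mem_sphere, dist_zero_right, norm_smul, norm_inv, Complex.norm_real, norm_norm]
        exact inv_mul_cancel₀ (by exact_mod_cast hn)
      · rintro G ⟨d, hG⟩ hv
        rw [eval_smul hG, ← val_eval, hu.2 G ⟨d, hG⟩ hv, mul_zero]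
    · rintro ⟨u, hu, rfl⟩
      exact ⟨u, ⟨hne u hu, fun G hG hv => by rw [val_eval]; exact hu.2 G hG hv⟩, rfl⟩
  rw [himg]
  exact hSc.image_of_continuousOn fun u hu => (continuousAt_Phi (hne u hu)).continuousWithinAt

/-- bounded meromorphic functions are constant -/
theorem mk_const {t : ℂ → ℂ} (ht : Meromorphic t) {C : ℝ} (hC : ∀ᶠ z in codiscrete ℂ, ‖t z‖ ≤ C) :
    ∃ c : ℂ, cl t ht = algebraMap ℂ MK c := by
  have h1 : ∀ z, AnalyticAt ℂ (toMeromorphicNFOn t univ) z ∧ ‖toMeromorphicNFOn t univ z‖ ≤ C :=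
    fun z => nf_bounded ht (codis_ev hC z)
  have hd : Differentiable ℂ (toMeromorphicNFOn t univ) := fun z => (h1 z).1.differentiableAt
  have h2 : ∀ z w, toMeromorphicNFOn t univ z = toMeromorphicNFOn t univ w := by
    intro z w
    apply hd.apply_eq_apply_of_bounded
    rw [isBounded_iff_forall_norm_le]
    refine ⟨C, ?_⟩
    rintro _ ⟨z, rfl⟩
    exact (h1 z).2
  refine ⟨toMeromorphicNFOn t univ 0, ?_⟩
  rw [← cl_const, cl_eq]
  filter_upwards [nf_codis ht] with z hz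
  rw [hz, h2 z 0]

variable (R : ∀ h : K, Frac y h)

/-- local boundedness of the functions which are regular at the prime divisors -/
def LB : Prop := ∀ M0 ∈ TX y, ∃ (i j k : Fin (n + 1)) (E : Fin 2 → Derivation ℂ K K),
  y i ≠ 0 ∧ nz (X i) M0 ∧ Dual ![y j / y i, y k / y i] E ∧
  ∀ q : K, (∀ v : Place ℂ K, Divisorial 2 v → (∀ l, DerReg v (E l)) → v.Reg q) →
    ∃ O ∈ 𝓝 M0, ∃ C : ℝ, ∀ M ∈ O ∩ TX y, good R q M → ‖ev R q M‖ ≤ C

variable {𝓤 : Ultrafilter ℕ} {φ : ℂ → Mat (n + 1)} {P Q : ℕ → ℂ → Mat (n + 1)} {wt : ℕ → ℂ → ℂ}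

theorem deriv_bound (h : Cv y φ) {B : ℝ} (hB : ∀ z, ‖fderiv ℝ φ z‖ ≤ B) {i j : Fin (n + 1)}
    (hi : y i ≠ 0) {O : Set (Mat (n + 1))} (hO : IsOpen O) {C : ℝ} (hC : 0 ≤ C)
    (hL : ∀ M ∈ O, ∀ M' ∈ O, ‖qv (X j) (X i) M - qv (X j) (X i) M'‖ ≤ C * ‖M - M'‖)
    (hnz : ∀ M ∈ O, nz (X i) M) {z : ℂ} (hz : φ z ∈ O) (hg : good R (y j / y i) (φ z)) :
    ‖deriv (fun w => ev R (y j / y i) (φ w)) z‖ ≤ C * B := by
  have hcont : Continuous φ := continuous_iff_continuousAt.2 fun _ =>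
    h.hol.continuousAt (mem_univ _)
  have hB0 : 0 ≤ B := (norm_nonneg _).trans (hB 0)
  have hd := (h.an R hg).differentiableAt.hasDerivAt
  refine hd.le_of_lip' (mul_nonneg hC hB0) ?_
  filter_upwards [hcont.continuousAt.eventually (hO.mem_nhds hz),
    hcont.continuousAt.eventually ((isOpen_good R (y j / y i)).mem_nhds hg)] with w hw hw'
  rw [ev_ratio R j hi (h.mem w) hw' (hnz _ hw), ev_ratio R j hi (h.mem z) hg (hnz _ hz)]
  refine (hL _ hw _ hz).trans ?_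
  rw [mul_assoc]
  apply mul_le_mul_of_nonneg_left _ hC
  exact (convex_univ).norm_image_sub_le_of_norm_fderiv_le
    (fun x _ => h.hol.differentiableAt (mem_univ x)) (fun x _ => hB x) (mem_univ z) (mem_univ w)

theorem Defo.bound (h : Defo y 𝓤 φ P Q wt) {i j : Fin (n + 1)}
    (hi : y i ≠ 0) {O : Set (Mat (n + 1))} (hO : IsOpen O) {C : ℝ} (hC : 0 ≤ C)
    (hL : ∀ M ∈ O, ∀ M' ∈ O, ‖qv (X j) (X i) M - qv (X j) (X i) M'‖ ≤ C * ‖M - M'‖)
    (hnz : ∀ M ∈ O, nz (X i) M) {z : ℂ} (hz : φ z ∈ O) (hg : N155.good R (y j / y i) (φ z)) :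
    ‖Dl R 𝓤 P Q wt (y j / y i) z‖ ≤ C * 2 := by
  refine le_of_tendsto (h.tendsto R hg).norm ?_
  obtain ⟨V, -, hzV, -, hm⟩ := h.ev_mem (hO.mem_nhds hz)
  obtain ⟨V', -, hzV', hm'⟩ := h.ev_good R hg
  filter_upwards [hm, hm', h.bd' z] with m h1 h2 h3
  obtain ⟨p1, p2⟩ := h1 z hzV
  obtain ⟨q1, q2⟩ := h2 z hzV'
  unfold dqf
  rw [ev_ratio R j hi (h.mQ m z) q2 (hnz _ p2), ev_ratio R j hi (h.mP m z) q1 (hnz _ p1), norm_mul]
  calc ‖qv (X j) (X i) (Q m z) - qv (X j) (X i) (P m z)‖ * ‖wt m z‖ ≤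
        (C * ‖Q m z - P m z‖) * ‖wt m z‖ :=
        mul_le_mul_of_nonneg_right (hL _ p2 _ p1) (norm_nonneg _)
    _ = C * (‖Q m z - P m z‖ * ‖wt m z‖) := by ring
    _ ≤ C * 2 := mul_le_mul_of_nonneg_left (h3 z (mem_ball_self one_pos)) hC

/-- the values of the regular pluricanonical forms on the curve and the deformation are bounded -/
theorem Defo.T_const (h : Defo y 𝓤 φ P Q wt) (hLB : LB R) {B : ℝ} (hB : ∀ z, ‖fderiv ℝ φ z‖ ≤ B)
    {N : ℕ} {ω : (Fin 2 → Derivation ℂ K K) → K} (hω : IsPluri N ω)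
    (hreg : ∀ v : Place ℂ K, Divisorial 2 v → RegAt v ω) {x : Fin 2 → K}
    {E : Fin 2 → Derivation ℂ K K} (hx : Dual x E) :
    ∃ c : ℂ, h.cv.emb R (ω E) * W2 (fun k => MD (h.cv.emb R k)) (h.del R) x ^ N =
      algebraMap ℂ MK c := by
  classical
  set e := h.cv.emb R with he
  set T : MK := e (ω E) * W2 (fun k => MD (e k)) (h.del R) x ^ N with hT
  obtain ⟨t, ht, htT⟩ := cl_surj T
  -- the local data
  have hloc : ∀ M0 : Mat (n + 1), ∃ (O : Set (Mat (n + 1))) (C : ℝ), M0 ∈ TX y → IsOpen O ∧ M0 ∈ O ∧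
      ∀ᶠ z in codiscrete ℂ, φ z ∈ O → ‖t z‖ ≤ C := by
    intro M0
    by_cases hM0 : M0 ∈ TX y
    swap
    · exact ⟨∅, 0, fun h => absurd h hM0⟩
    obtain ⟨i, j, k, E', hi, hnz, hD, hq⟩ := hLB M0 hM0
    obtain ⟨O1, hO1, C1, hC1⟩ := hq (ω E') (fun v hv hr => hreg v hv E' hr)
    obtain ⟨C2, O2, hC2, hO2, hL2⟩ := lip_qv (G1 := (X j : MvPolynomial (Fin (n + 1)) ℂ)) hnz
    obtain ⟨C3, O3, hC3, hO3, hL3⟩ := lip_qv (G1 := (X k : MvPolynomial (Fin (n + 1)) ℂ)) hnz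
    obtain ⟨O, hOsub, hO, hM0O⟩ := _root_.mem_nhds_iff.1 (inter_mem (inter_mem hO1 hO2)
      (inter_mem hO3 ((isOpen_nz (X i)).mem_nhds hnz)))
    refine ⟨O, |C1| * (C2 * B * (C3 * 2) + C3 * B * (C2 * 2)) ^ N, fun _ => ⟨hO, hM0O, ?_⟩⟩
    have hO1' : ∀ M ∈ O, M ∈ O1 := fun M hM => (hOsub hM).1.1
    have hL2' : ∀ M ∈ O, ∀ M' ∈ O, ‖qv (X j) (X i) M - qv (X j) (X i) M'‖ ≤ C2 * ‖M - M'‖ :=
      fun M hM M' hM' => hL2 M (hOsub hM).1.2 M' (hOsub hM').1.2
    have hL3' : ∀ M ∈ O, ∀ M' ∈ O, ‖qv (X k) (X i) M - qv (X k) (X i) M'‖ ≤ C3 * ‖M - M'‖ :=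
      fun M hM M' hM' => hL3 M (hOsub hM).2.1 M' (hOsub hM').2.1
    have hnz' : ∀ M ∈ O, nz (X i) M := fun M hM => (hOsub hM).2.2
    -- the identity
    have hid : cl t ht = e (ω E') * W2 (fun k => MD (e k)) (h.del R)
        ![y j / y i, y k / y i] ^ N := by
      rw [htT, hT]
      exact T_indep hω (h.cv.isDer R) (h.isDer R) hx hD
    have hid2 : e (ω E') * W2 (fun k => MD (e k)) (h.del R) ![y j / y i, y k / y i] ^ N =
        e (ω E') * (MD (e (y j / y i)) * h.del R (y k / y i) -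
          MD (e (y k / y i)) * h.del R (y j / y i)) ^ N := by
      unfold W2
      simp only [Matrix.cons_val_zero, Matrix.cons_val_one]
    rw [hid2] at hid
    have hm1 : Meromorphic (fun z => ev R (ω E') (φ z)) := h.cv.mero R _
    set u : ℂ → ℂ := fun z => ev R (ω E') (φ z) *
      (deriv (fun w => ev R (y j / y i) (φ w)) z * Dl R 𝓤 P Q wt (y k / y i) z -
        deriv (fun w => ev R (y k / y i) (φ w)) z * Dl R 𝓤 P Q wt (y j / y i) z) ^ N with hu
    have hu' : ∀ᶠ z in codiscrete ℂ, t z = u z := by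
      have d1 := (h.cv.mero R (y j / y i)).deriv
      have d2 := (h.cv.mero R (y k / y i)).deriv
      have f1 : Meromorphic (fun z => deriv (fun w => ev R (y j / y i) (φ w)) z *
          Dl R 𝓤 P Q wt (y k / y i) z - deriv (fun w => ev R (y k / y i) (φ w)) z *
          Dl R 𝓤 P Q wt (y j / y i) z) := (d1.mul (h.mero R _)).sub (d2.mul (h.mero R _))
      have hmu : Meromorphic u := fun z => (hm1 z).mul ((f1 z).pow N)
      have e1 : cl t ht = cl u hmu := by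
        rw [hid, he, Cv.emb_apply, Cv.emb_apply, Cv.emb_apply, MD_cl, MD_cl]
        rfl
      exact cl_eq.1 e1
    filter_upwards [hu', h.cv.good R (ω E'), h.cv.good R (y j / y i), h.cv.good R (y k / y i)]
      with z h1 h2 h3 h4 hz
    rw [h1, hu]
    simp only
    rw [norm_mul, norm_pow]
    have b1 : ‖ev R (ω E') (φ z)‖ ≤ |C1| :=
      (hC1 _ ⟨hO1' _ hz, h.cv.mem z⟩ h2).trans (le_abs_self _)
    have b2 := deriv_bound R h.cv hB hi hO hC2 hL2' hnz' hz h3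
    have b3 := deriv_bound R h.cv hB hi hO hC3 hL3' hnz' hz h4
    have b4 := h.bound R hi hO hC2 hL2' hnz' hz h3
    have b5 := h.bound R hi hO hC3 hL3' hnz' hz h4
    have hB0 : 0 ≤ B := (norm_nonneg _).trans (hB 0)
    apply mul_le_mul b1 _ (by positivity) (abs_nonneg _)
    apply pow_le_pow_left₀ (norm_nonneg _)
    refine (norm_sub_le _ _).trans ?_
    rw [norm_mul, norm_mul]
    exact add_le_add (mul_le_mul b2 b5 (norm_nonneg _) (by positivity))
      (mul_le_mul b3 b4 (norm_nonneg _) (by positivity))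
  choose O C hOC using hloc
  obtain ⟨S, hS, hcov⟩ := isCompact_TX.elim_nhds_subcover O
    (fun M hM => ((hOC M hM).1).mem_nhds (hOC M hM).2.1)
  have hall : ∀ᶠ z in codiscrete ℂ, ∀ M ∈ S, φ z ∈ O M → ‖t z‖ ≤ C M := by
    rw [Filter.eventually_all_finset]
    exact fun M hM => (hOC M (hS M hM)).2.2
  obtain ⟨c, hc⟩ := mk_const ht (C := ∑ M ∈ S, |C M|) (by
    filter_upwards [hall] with z hz
    obtain ⟨M, hMS, hM⟩ := mem_iUnion₂.1 (hcov (h.cv.mem z))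
    refine (hz M hMS hM).trans ((le_abs_self _).trans ?_)
    exact Finset.single_le_sum (f := fun M => |C M|) (fun _ _ => abs_nonneg _) hMS)
  exact ⟨c, by rw [← hc, htT]⟩

/-- the derivation does not vanish if the differences are normalised -/
theorem Defo.del_ne (h : Defo y 𝓤 φ P Q wt)
    (hnorm : ∀ᶠ m in (𝓤 : Filter ℕ), 1 ≤ ‖Q m 0 - P m 0‖ * ‖wt m 0‖) : ∃ k : K, h.del R k ≠ 0 := by
  by_contra hcon
  push Not at hcon
  obtain ⟨i, hi⟩ := PM.exists_diag (TX_PM (h.cv.mem 0))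
  obtain ⟨u, hu, hφu⟩ := h.cv.mem 0
  have hui : u i ≠ 0 := by
    rw [hφu] at hi
    exact (Phi_diag_ne hu.1).1 hi
  have hnz0 : nz (X i) (φ 0) := by
    rw [hφu, nz_Phi (isHomogeneous_X _ _) hu.1, eval_X]
    exact hui
  have hyi : y i ≠ 0 := by
    intro h0
    have h1 := hu.2 (X i) ⟨1, isHomogeneous_X _ _⟩ (by rw [val_X', h0])
    rw [val_eval, eval_X] at h1
    exact hui h1
  set U : Set ℂ := {z | nz (X i) (φ z)} with hU
  have hUo : IsOpen U := (isOpen_nz (X i)).preimage h.cont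
  have hdiff : ∀ j, ∀ z ∈ U, ∃ V ∈ 𝓝 z, ∀ᶠ m in (𝓤 : Filter ℕ),
      DifferentiableOn ℂ (dqf (qv (X j) (X i)) P Q wt m) V := by
    intro j z hz
    obtain ⟨V, hV, hzV, -, hm⟩ := h.ev_mem ((isOpen_nz (X i)).mem_nhds hz)
    refine ⟨V, hV.mem_nhds hzV, ?_⟩
    filter_upwards [hm] with m h1 w hw
    apply DifferentiableAt.differentiableWithinAt
    unfold dqf
    apply DifferentiableAt.mul _ ((h.wd m) w)
    apply DifferentiableAt.sub
    · exact (an_qv (h.hQ m) (mem_univ w) (isHomogeneous_X _ _) (isHomogeneous_X _ _)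
        (h1 w hw).2).differentiableAt
    · exact (an_qv (h.hP m) (mem_univ w) (isHomogeneous_X _ _) (isHomogeneous_X _ _)
        (h1 w hw).1).differentiableAt
  have hlim : ∀ j, Tendsto (fun m => dqf (qv (X j) (X i)) P Q wt m 0) 𝓤 (𝓝 0) := by
    intro j
    have hc := h.dqf_conv (F := qv (X j) (X i)) (U := U) (fun z hz => contDiffAt_qv hz) (hdiff j)
    have ha := (CConv.an hc hUo hnz0 (hdiff j 0 hnz0)).1
    have hz0 : ∀ᶠ z in 𝓝[≠] (0 : ℂ),
        ulim 𝓤 (fun m => dqf (qv (X j) (X i)) P Q wt m z) = 0 := by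
      have h1 : ∀ᶠ z in codiscrete ℂ, Dl R 𝓤 P Q wt (y j / y i) z = 0 := by
        have := hcon (y j / y i)
        unfold Defo.del at this
        exact cl_eq_zero.1 this
      have h2 : ∀ᶠ z in 𝓝[≠] (0 : ℂ), z ∈ U := mem_nhdsWithin_of_mem_nhds (hUo.mem_nhds hnz0)
      filter_upwards [codis_ev h1 0, codis_ev (h.cv.good R (y j / y i)) 0, h2] with z h3 h4 h5
      have h6 := h.tendsto R h4
      rw [h3] at h6
      apply ulim_eq
      refine h6.congr' ?_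
      obtain ⟨V, -, hzV, -, hm⟩ := h.ev_mem ((isOpen_nz (X i)).mem_nhds h5)
      obtain ⟨V', -, hzV', hm'⟩ := h.ev_good R h4
      filter_upwards [hm, hm'] with m k1 k2
      obtain ⟨p1, p2⟩ := k1 z hzV
      obtain ⟨q1, q2⟩ := k2 z hzV'
      unfold dqf
      rw [ev_ratio R j hyi (h.mQ m z) q2 p2, ev_ratio R j hyi (h.mP m z) q1 p1]
    have h7 : ulim 𝓤 (fun m => dqf (qv (X j) (X i)) P Q wt m 0) = 0 := by
      have h8 := ha.continuousAt.tendsto.mono_left (nhdsWithin_le_nhds (s := {(0 : ℂ)}ᶜ))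
      have h9 : Tendsto (fun z => ulim 𝓤 (fun m => dqf (qv (X j) (X i)) P Q wt m z)) (𝓝[≠] 0)
          (𝓝 0) := by
        refine tendsto_const_nhds.congr' ?_
        filter_upwards [hz0] with z hz
        exact hz.symm
      exact tendsto_nhds_unique h8 h9
    have h10 := hc.pointwise hnz0
    simp only [h7] at h10
    exact h10
  -- Lipschitz continuity of `Phi`
  have hne := PM.chart_ne hi
  obtain ⟨C, O, hO, hL⟩ := (contDiffAt_Phi hne).exists_lipschitzOnWith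
  have hO' : ∀ᶠ M in 𝓝 (φ 0), chart i M ∈ O := (continuousAt_chart hi).eventually hO
  obtain ⟨V, -, h0V, -, hm⟩ := h.ev_mem (inter_mem hO' ((isOpen_nz (X i)).mem_nhds hnz0))
  have hqc : ∀ {M : Mat (n + 1)}, M ∈ TX y → nz (X i) M → M i i ≠ 0 ∧
      ∀ j, chart i M j = qv (X j) (X i) M := by
    rintro _ ⟨v, hv, rfl⟩ hv'
    have h1 : v i ≠ 0 := by
      rw [nz_Phi (isHomogeneous_X _ _) hv.1, eval_X] at hv'
      exact hv'
    refine ⟨(Phi_diag_ne hv.1).2 h1, fun j => ?_⟩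
    rw [chart_Phi hv.1 h1, qv_Phi (isHomogeneous_X _ _) (isHomogeneous_X _ _) hv.1, eval_X, eval_X,
      Pi.smul_apply, smul_eq_mul, div_eq_inv_mul]
  have hsum : Tendsto (fun m => (C : ℝ) * ∑ j, ‖dqf (qv (X j) (X i)) P Q wt m 0‖) 𝓤 (𝓝 0) := by
    have h1 : Tendsto (fun m => ∑ j, ‖dqf (qv (X j) (X i)) P Q wt m 0‖) 𝓤
        (𝓝 (∑ j : Fin (n + 1), ‖(0 : ℂ)‖)) := tendsto_finsetSum _ fun j _ => (hlim j).norm
    have h2 := h1.const_mul (C : ℝ)
    simpa using h2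
  have hlt := hsum.eventually_lt_const (show (0 : ℝ) < 1 by norm_num)
  obtain ⟨m, hm1, hm2, hm3⟩ := (hlt.and (hnorm.and hm)).exists
  obtain ⟨⟨p1, p2⟩, q1, q2⟩ := hm3 0 h0V
  obtain ⟨e1, e2⟩ := hqc (h.mP m 0) p2
  obtain ⟨e3, e4⟩ := hqc (h.mQ m 0) q2
  have h1 := hL.dist_le_mul _ q1 _ p1
  rw [PM.Phi_chart (TX_PM (h.mP m 0)) e1, PM.Phi_chart (TX_PM (h.mQ m 0)) e3, dist_eq_norm,
    dist_eq_norm] at h1
  have h2 : ‖chart i (Q m 0) - chart i (P m 0)‖ * ‖wt m 0‖ ≤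
      ∑ j, ‖dqf (qv (X j) (X i)) P Q wt m 0‖ := by
    have h3 : ‖chart i (Q m 0) - chart i (P m 0)‖ ≤
        ∑ j, ‖qv (X j) (X i) (Q m 0) - qv (X j) (X i) (P m 0)‖ := by
      rw [pi_norm_le_iff_of_nonneg (Finset.sum_nonneg fun _ _ => norm_nonneg _)]
      intro j
      rw [Pi.sub_apply, e2, e4]
      exact Finset.single_le_sum (f := fun j => ‖qv (X j) (X i) (Q m 0) -
        qv (X j) (X i) (P m 0)‖) (fun _ _ => norm_nonneg _) (Finset.mem_univ j)
    refine (mul_le_mul_of_nonneg_right h3 (norm_nonneg _)).trans ?_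
    rw [Finset.sum_mul]
    apply Finset.sum_le_sum
    intro j _
    unfold dqf
    rw [norm_mul]
  have h3 : ‖Q m 0 - P m 0‖ * ‖wt m 0‖ ≤
      (C : ℝ) * ∑ j, ‖dqf (qv (X j) (X i)) P Q wt m 0‖ := by
    calc ‖Q m 0 - P m 0‖ * ‖wt m 0‖ ≤ (C * ‖chart i (Q m 0) - chart i (P m 0)‖) * ‖wt m 0‖ :=
          mul_le_mul_of_nonneg_right h1 (norm_nonneg _)
      _ = C * (‖chart i (Q m 0) - chart i (P m 0)‖ * ‖wt m 0‖) := by ring
      _ ≤ _ := mul_le_mul_of_nonneg_left h2 C.2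
  linarith

/-- **Rigidity.** -/
theorem Defo.rigid (h : Defo y 𝓤 φ P Q wt) (hLB : LB R) {B : ℝ} (hB : ∀ z, ‖fderiv ℝ φ z‖ ≤ B)
    {N : ℕ} (hN : 0 < N) {ω0 ω1 : (Fin 2 → Derivation ℂ K K) → K} (hω0 : IsPluri N ω0)
    (hω1 : IsPluri N ω1) (hreg0 : ∀ v : Place ℂ K, Divisorial 2 v → RegAt v ω0)
    (hreg1 : ∀ v : Place ℂ K, Divisorial 2 v → RegAt v ω1) {D : Fin 2 → Derivation ℂ K K}
    (hD : ω0 D ≠ 0) (hr : Transcendental ℂ (ω1 D / ω0 D)) {a x2 : K}
    {E : Fin 2 → Derivation ℂ K K} (hx : Dual ![a, x2] E) (hda : MD (h.cv.emb R a) ≠ 0)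
    (hSB : ∀ m z, N155.good R a (P m z) → N155.good R a (Q m z) →
      ev R a (P m z) = ev R a (Q m z))
    (hnorm : ∀ᶠ m in (𝓤 : Filter ℕ), 1 ≤ ‖Q m 0 - P m 0‖ * ‖wt m 0‖) : False := by
  set e := h.cv.emb R with he
  have hδa : h.del R a = 0 := by
    unfold Defo.del
    rw [cl_eq_zero]
    filter_upwards [h.cv.good R a] with z hz
    apply ulim_eq
    refine tendsto_const_nhds.congr' ?_
    obtain ⟨V, -, hzV, hm⟩ := h.ev_good R hz
    filter_upwards [hm] with m h1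
    unfold dqf
    rw [hSB m z (h1 z hzV).1 (h1 z hzV).2, sub_self, zero_mul]
  obtain ⟨c0, hc0⟩ := h.T_const R hLB hB hω0 hreg0 hx
  obtain ⟨c1, hc1⟩ := h.T_const R hLB hB hω1 hreg1 hx
  have hE0 : ω0 E ≠ 0 := pluri_ne hω0 hx hD
  have hratio : ω1 D / ω0 D = ω1 E / ω0 E := pluri_ratio hω0 hω1 hx hD
  have hc00 : c0 = 0 := by
    by_contra hne
    apply hr
    have h1 : e (ω1 E / ω0 E) = algebraMap ℂ MK (c1 / c0) := by
      rw [map_div₀, map_div₀, ← hc0, ← hc1]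
      have h2 : W2 (fun k => MD (e k)) (h.del R) ![a, x2] ^ N ≠ 0 := by
        intro h3
        rw [h3, mul_zero] at hc0
        apply hne
        exact ((map_eq_zero_iff (algebraMap ℂ MK) (algebraMap ℂ MK).injective).1 hc0.symm)
      rw [mul_div_mul_right _ _ h2]
    have h2 : ω1 D / ω0 D = algebraMap ℂ K (c1 / c0) := by
      rw [hratio]
      apply e.toRingHom.injective
      change e _ = e _
      rw [h1, e.commutes]
    rw [h2]
    exact isAlgebraic_algebraMap _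
  rw [hc00, map_zero] at hc0
  have h1 : e (ω0 E) ≠ 0 := by
    intro h2
    apply hE0
    exact (map_eq_zero_iff e e.toRingHom.injective).1 h2
  have h2 : W2 (fun k => MD (e k)) (h.del R) ![a, x2] = 0 := by
    have h3 := (mul_eq_zero.1 hc0).resolve_left h1
    exact (pow_eq_zero_iff hN.ne').1 h3
  unfold W2 at h2
  simp only [Matrix.cons_val_zero, Matrix.cons_val_one, hδa, mul_zero, sub_zero] at h2
  have h3 : h.del R x2 = 0 := (mul_eq_zero.1 h2).resolve_left hda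
  obtain ⟨k, hk⟩ := h.del_ne R hnorm
  apply hk
  refine (h.isDer R).zero ![a, x2] hx.1 ?_ k
  intro i
  fin_cases i
  · exact hδa
  · exact h3

end Pool.Agent.N155
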