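import Pool.Agent.N155.Base

/-! Hurwitz's theorem, and the synchronisation of converging solutions. -/

set_option autoImplicit false

open Filter Topology Metric Set MvPolynomial

namespace Pool.Agent.N155

open Pool.Agent.Y190.OP

/-- uniform convergence on compact sets -/
theorem CConv.unif {l : Filter ℕ} [l.NeBot] {U : Set ℂ} (hU : IsOpen U) {h : ℕ → ℂ → ℂ} {H : ℂ → ℂ}
    (hc : CConv l U h H) {A : Set ℂ} (hA : IsCompact A) (hAU : A ⊆ U) {ε : ℝ} (hε : 0 < ε) :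
    ∀ᶠ n in l, ∀ z ∈ A, ‖h n z - H z‖ < ε := by
  have h1 := (hc.locUnif hU).mono hAU
  rw [tendstoLocallyUniformlyOn_iff_tendstoUniformlyOn_of_compact hA] at h1
  rw [Metric.tendstoUniformlyOn_iff] at h1
  filter_upwards [h1 ε hε] with n hn z hz
  have := hn z hz
  rwa [dist_comm, dist_eq_norm] at this

theorem CConv.seq {E : Type*} [TopologicalSpace E] {l : Filter ℕ} {U : Set ℂ} {h : ℕ → ℂ → E}
    {H : ℂ → E} (hc : CConv l U h H) {z0 : ℂ} (hz : z0 ∈ U) {t : ℕ → ℂ}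
    (ht : Tendsto t l (𝓝 z0)) : Tendsto (fun n => h n (t n)) l (𝓝 (H z0)) := by
  have h1 : Tendsto (fun n => (n, t n)) l (l ×ˢ 𝓝 z0) := tendsto_id.prodMk ht
  exact (hc z0 hz).comp h1

/-- Hurwitz's theorem -/
theorem hurwitz {l : Filter ℕ} [l.NeBot] {W : Set ℂ} (hW : IsOpen W) {h : ℕ → ℂ → ℂ} {H : ℂ → ℂ}
    (hc : CConv l W h H) (hd : ∀ᶠ n in l, DifferentiableOn ℂ (h n) W) {z0 : ℂ} (hz0 : z0 ∈ W)
    (h0 : H z0 = 0) (hne : ∀ᶠ w in 𝓝[≠] z0, H w ≠ 0) {ρ : ℝ} (hρ : 0 < ρ) :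
    ∀ᶠ n in l, ∃ w ∈ ball z0 ρ, h n w = 0 := by
  have hne' : ∀ᶠ w in 𝓝 z0, w ≠ z0 → H w ≠ 0 := by
    rwa [eventually_nhdsWithin_iff] at hne
  obtain ⟨r1, hr1, hsub⟩ := Metric.mem_nhds_iff.1 (inter_mem (hW.mem_nhds hz0) hne')
  set r : ℝ := min (r1 / 2) (ρ / 2) with hr
  have hrpos : 0 < r := by positivity
  have hr1' : r < r1 := lt_of_le_of_lt (min_le_left _ _) (by linarith)
  have hrρ : r < ρ := lt_of_le_of_lt (min_le_right _ _) (by linarith)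
  have hcb : closedBall z0 r ⊆ W := fun w hw =>
    (hsub (closedBall_subset_ball hr1' hw)).1
  have hHc : ContinuousOn H (sphere z0 r) := fun w hw =>
    (hc.continuousAt hW (hcb (sphere_subset_closedBall hw))).continuousWithinAt
  obtain ⟨w0, hw0, hmin⟩ := (isCompact_sphere z0 r).exists_isMinOn
    (NormedSpace.sphere_nonempty.2 hrpos.le) hHc.norm
  set m : ℝ := ‖H w0‖ with hm
  have hmpos : 0 < m := by
    rw [hm, norm_pos_iff]
    apply (hsub (closedBall_subset_ball hr1' (sphere_subset_closedBall hw0))).2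
    intro h
    rw [h, mem_sphere, dist_self] at hw0
    exact hrpos.ne hw0
  have hu := CConv.unif hW hc (isCompact_closedBall z0 r) hcb (show 0 < m / 4 by positivity)
  filter_upwards [hu, hd] with n hn1 hn2
  by_contra hcon
  push Not at hcon
  have hnz : ∀ w ∈ closedBall z0 r, h n w ≠ 0 := fun w hw =>
    hcon w (closedBall_subset_ball hrρ hw)
  have hdc : DiffContOnCl ℂ (fun w => (h n w)⁻¹) (ball z0 r) := by
    have h1 : DifferentiableOn ℂ (fun w => (h n w)⁻¹) (closedBall z0 r) :=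
      (hn2.mono hcb).inv hnz
    exact h1.diffContOnCl_ball (subset_refl _)
  have hfr : ∀ w ∈ frontier (ball z0 r), ‖(h n w)⁻¹‖ ≤ (3 * m / 4)⁻¹ := by
    intro w hw
    rw [frontier_ball z0 hrpos.ne'] at hw
    rw [norm_inv]
    apply inv_anti₀ (by positivity)
    have h1 : m ≤ ‖H w‖ := hmin hw
    have h2 := hn1 w (sphere_subset_closedBall hw)
    have h3 := norm_sub_norm_le (H w) (h n w)
    rw [norm_sub_rev] at h3
    linarith
  have h1 := Complex.norm_le_of_forall_mem_frontier_norm_le isBounded_ball hdc hfr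
    (subset_closure (mem_ball_self hrpos))
  rw [norm_inv] at h1
  have h2 : 3 * m / 4 ≤ ‖h n z0‖ := by
    have h3 : 0 < ‖h n z0‖ := norm_pos_iff.2 (hnz z0 (mem_closedBall_self hrpos.le))
    exact (inv_le_inv₀ h3 (by positivity)).1 h1
  have h3 := hn1 z0 (mem_closedBall_self hrpos.le)
  rw [h0, sub_zero] at h3
  linarith

/-- a diagonal sequence -/
theorem diag {l : Filter ℕ} {P : ℕ → ℂ → Prop} (hl : ∀ R : ℝ, ∀ᶠ n : ℕ in l, R ≤ n)
    (h : ∀ ρ > 0, ∀ᶠ n in l, ∃ t, ‖t‖ < ρ ∧ P n t) :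
    ∃ t : ℕ → ℂ, Tendsto t l (𝓝 0) ∧ ∀ᶠ n in l, P n (t n) := by
  classical
  set S : ℕ → Set ℝ := fun n => {r | ∃ t, P n t ∧ r = ‖t‖} with hS
  have hsel : ∀ n, ∃ t, (∃ t, P n t) → P n t ∧ ‖t‖ < sInf (S n) + 1 / (n + 1 : ℝ) := by
    intro n
    by_cases hn : ∃ t, P n t
    · obtain ⟨t0, ht0⟩ := hn
      have hne : (S n).Nonempty := ⟨‖t0‖, t0, ht0, rfl⟩
      obtain ⟨r, ⟨t, ht, rfl⟩, hr⟩ := Real.lt_sInf_add_pos hne
        (show 0 < 1 / (n + 1 : ℝ) by positivity)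
      exact ⟨t, fun _ => ⟨ht, hr⟩⟩
    · exact ⟨0, fun h => absurd h hn⟩
  choose t ht using hsel
  refine ⟨t, ?_, ?_⟩
  · rw [Metric.tendsto_nhds]
    intro ε hε
    filter_upwards [h (ε / 2) (by positivity), hl (2 / ε)] with n hn1 hn2
    obtain ⟨t1, ht1, hP⟩ := hn1
    obtain ⟨-, h2⟩ := ht n ⟨t1, hP⟩
    have h3 : sInf (S n) ≤ ‖t1‖ := csInf_le ⟨0, by
      rintro _ ⟨t, -, rfl⟩
      exact norm_nonneg _⟩ ⟨t1, hP, rfl⟩
    have h4 : 1 / (n + 1 : ℝ) ≤ ε / 2 := by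
      rw [div_le_iff₀ (by positivity)]
      rw [div_le_iff₀ hε] at hn2
      nlinarith
    rw [dist_zero_right]
    linarith
  · filter_upwards [h 1 one_pos] with n hn
    obtain ⟨t1, -, hP⟩ := hn
    exact (ht n ⟨t1, hP⟩).1

variable {N : ℕ} {D : AB N} {g2 g3 c : ℂ} {φ : ℂ → Mat N} {ψ : ℕ → ℂ → Mat N}

/-- converging solutions can be synchronised with the limit -/
theorem AB.Sol.catch {l : Filter ℕ} [l.NeBot] (hl : ∀ R : ℝ, ∀ᶠ n : ℕ in l, R ≤ n) (hc : c ≠ 0)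
    (h : D.Sol g2 g3 c φ) (hψ : ∀ n, D.Sol g2 g3 c (ψ n)) (hlim : CConv l univ ψ φ) {z0 : ℂ}
    (h0 : D.gd (φ z0)) (hb0 : D.b (φ z0) ≠ 0) :
    ∃ t : ℕ → ℂ, Tendsto t l (𝓝 0) ∧ ∀ᶠ n in l, ∀ z, nz D.A0 (ψ n (t n + z)) →
      nz D.A0 (φ z) → D.a (ψ n (t n + z)) = D.a (φ z) := by
  set U : Set ℂ := {z | D.gd (φ z)} with hU
  have hUo : IsOpen U := AB.isOpen_gd.preimage h.cont
  have hca : CConv l U (fun n w => D.a (ψ n w)) (fun w => D.a (φ w)) :=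
    CConv.comp (fun w _ => hlim w (mem_univ w)) fun w hw => continuousAt_qv hw.1
  have hcb : CConv l U (fun n w => D.b (ψ n w)) (fun w => D.b (φ w)) :=
    CConv.comp (fun w _ => hlim w (mem_univ w)) fun w hw => continuousAt_qv hw.2
  have hgd : ∀ᶠ p : ℕ × ℂ in l ×ˢ 𝓝 z0, D.gd (ψ p.1 p.2) :=
    (hlim z0 (mem_univ z0)).eventually (AB.isOpen_gd.mem_nhds h0)
  have hgd' := hgd
  rw [eventually_prod_iff] at hgd'
  obtain ⟨pa, hpa, pb, hpb, hab⟩ := hgd'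
  obtain ⟨W, hWsub, hW, hz0W⟩ := _root_.mem_nhds_iff.1 (inter_mem (hUo.mem_nhds h0) hpb)
  have hd : ∀ᶠ n in l, DifferentiableOn ℂ (fun w => D.a (ψ n w) - D.a (φ z0)) W := by
    filter_upwards [hpa] with n hn w hw
    exact (((hψ n).an_a (hab hn (hWsub hw).2).1).differentiableAt.sub_const _).differentiableWithinAt
  have hcc : CConv l W (fun n w => D.a (ψ n w) - D.a (φ z0)) (fun w => D.a (φ w) - D.a (φ z0)) :=
    fun w hw => (hca w (hWsub hw).1).sub_const _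
  have hne : ∀ᶠ w in 𝓝[≠] z0, D.a (φ w) - D.a (φ z0) ≠ 0 := by
    obtain ⟨d1, -⟩ := h.ode_b h0 hb0
    have h1 := d1.eventually_ne (c := D.a (φ z0)) (mul_ne_zero hc hb0)
    filter_upwards [h1] with w hw
    exact sub_ne_zero.2 hw
  have hzero : ∀ ρ > 0, ∀ᶠ n in l, ∃ t, ‖t‖ < ρ ∧ D.a (ψ n (t + z0)) = D.a (φ z0) := by
    intro ρ hρ
    filter_upwards [hurwitz hW hcc hd hz0W (sub_self _) hne hρ] with n hn
    obtain ⟨w, hw, hw0⟩ := hn
    refine ⟨w - z0, ?_, ?_⟩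
    · rwa [mem_ball, dist_eq_norm] at hw
    · rw [sub_add_cancel]
      exact sub_eq_zero.1 hw0
  obtain ⟨t, ht, hta⟩ := diag hl hzero
  refine ⟨t, ht, ?_⟩
  have htz : Tendsto (fun n => t n + z0) l (𝓝 z0) := by
    have := ht.add_const z0
    rwa [zero_add] at this
  have hgt : ∀ᶠ n in l, D.gd (ψ n (t n + z0)) :=
    (CConv.seq hlim (mem_univ z0) htz).eventually (AB.isOpen_gd.mem_nhds h0)
  have hbt : Tendsto (fun n => D.b (ψ n (t n + z0))) l (𝓝 (D.b (φ z0))) :=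
    CConv.seq (h := fun n w => D.b (ψ n w)) (H := fun w => D.b (φ w)) hcb h0 htz
  have hbt' : ∀ᶠ n in l, ‖D.b (ψ n (t n + z0)) - D.b (φ z0)‖ < 2 * ‖D.b (φ z0)‖ := by
    have h1 : Tendsto (fun n => ‖D.b (ψ n (t n + z0)) - D.b (φ z0)‖) l (𝓝 0) := by
      have := (hbt.sub_const (D.b (φ z0))).norm
      simpa using this
    exact h1.eventually_lt_const (by positivity)
  filter_upwards [hta, hgt, hbt'] with n hn1 hn2 hn3 z hz hz'
  have hsh := (hψ n).shift (t n)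
  have hbeq : D.b (ψ n (t n + z0)) = D.b (φ z0) := by
    have h1 := (hψ n).alg _ hn2
    have h2 := h.alg _ h0
    rw [hn1, ← h2] at h1
    rcases sq_eq_sq_iff_eq_or_eq_neg.1 h1 with h3 | h3
    · exact h3
    · exfalso
      rw [h3] at hn3
      have h4 : ‖-D.b (φ z0) - D.b (φ z0)‖ = 2 * ‖D.b (φ z0)‖ := by
        rw [← neg_add', norm_neg, ← two_mul, norm_mul]
        simp
      rw [h4] at hn3
      exact lt_irrefl _ hn3
  exact hsh.unique h hn2 h0 hn1 hbeq (by rw [hbeq]; exact hb0) z hz hz'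

end Pool.Agent.N155
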