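import Pool.Agent.TH143.GT.Pull

/-! Derivations over an embedding, and the values of two-forms on two derivations. -/

set_option autoImplicit false

open Pool.Agent.W602.GT Pool.Agent.TH143.GT

namespace Pool.Agent.N155

variable {K M : Type} [Field K] [Algebra ℂ K] [Field M] [Algebra ℂ M]

/-- `δ` is a derivation over the embedding `e` -/
structure IsDer (e : K →ₐ[ℂ] M) (δ : K → M) : Prop where
  add : ∀ a b, δ (a + b) = δ a + δ b
  mul : ∀ a b, δ (a * b) = e a * δ b + e b * δ a
  const : ∀ c : ℂ, δ (algebraMap ℂ K c) = 0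

variable {e : K →ₐ[ℂ] M} {δ : K → M}

/-- the derivation with values in `M`, considered as a `K`-algebra -/
theorem IsDer.toDer (h : IsDer e δ) : letI : Algebra K M := e.toRingHom.toAlgebra
    ∃ d : Derivation ℂ K M, ∀ f, d f = δ f := by
  letI : Algebra K M := e.toRingHom.toAlgebra
  refine ⟨Derivation.mk'
    { toFun := δ
      map_add' := h.add
      map_smul' := fun c x => by
        rw [Algebra.smul_def, h.mul, h.const, mul_zero, add_zero, e.commutes, RingHom.id_apply,
          Algebra.smul_def] }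
    (fun a b => by
      change δ (a * b) = _
      rw [h.mul]
      rfl), fun f => rfl⟩

/-- a derivation which vanishes on a transcendence basis -/
theorem IsDer.zero (h : IsDer e δ) {ι : Type} (x : ι → K) (hx : IsTranscendenceBasis ℂ x)
    (h0 : ∀ i, δ (x i) = 0) (f : K) : δ f = 0 := by
  letI : Algebra K M := e.toRingHom.toAlgebra
  have hst : IsScalarTower ℂ K M := IsScalarTower.of_algebraMap_eq fun c => (e.commutes c).symm
  obtain ⟨d, hd⟩ := h.toDer
  have := Pool.Agent.W619.TW.der_zero d x hx (fun i => by rw [hd]; exact h0 i) f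
  rwa [hd] at this

/-- the chain rule -/
theorem IsDer.chain (h : IsDer e δ) {w : ℕ} {x : Fin w → K} {E : Fin w → Derivation ℂ K K}
    (hx : Dual x E) (f : K) : δ f = ∑ j, δ (x j) * e (E j f) := by
  have h1 : IsDer e (fun f => δ f - ∑ j, δ (x j) * e (E j f)) := by
    constructor
    · intro a b
      simp only [h.add, map_add, mul_add, Finset.sum_add_distrib]
      ring
    · intro a b
      simp only [h.mul, Derivation.leibniz, smul_eq_mul, map_add, map_mul, mul_add,
        Finset.sum_add_distrib, mul_sub, Finset.mul_sum]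
      have h2 : ∑ j, δ (x j) * (e a * e (E j b)) = ∑ j, e a * (δ (x j) * e (E j b)) :=
        Finset.sum_congr rfl fun j _ => by ring
      have h3 : ∑ j, δ (x j) * (e b * e (E j a)) = ∑ j, e b * (δ (x j) * e (E j a)) :=
        Finset.sum_congr rfl fun j _ => by ring
      rw [h2, h3]
      ring
    · intro c
      simp only [h.const, Derivation.map_algebraMap, map_zero, mul_zero, Finset.sum_const_zero,
        sub_zero]
  have h2 := h1.zero x hx.1 (fun i => by
    simp only [hx.2]
    rw [Finset.sum_eq_single i]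
    · rw [if_pos rfl, map_one, mul_one, sub_self]
    · intro j _ hj
      rw [if_neg hj, map_zero, mul_zero]
    · intro hi
      exact absurd (Finset.mem_univ i) hi) f
  exact sub_eq_zero.1 h2

/-- the area of two derivations in the coordinates `x` -/
def W2 (δ δ' : K → M) (x : Fin 2 → K) : M := δ (x 0) * δ' (x 1) - δ (x 1) * δ' (x 0)

variable {δ' : K → M}

theorem W2_change (h : IsDer e δ) (h' : IsDer e δ') {x x' : Fin 2 → K}
    {E : Fin 2 → Derivation ℂ K K} (hx : Dual x E) :
    W2 δ δ' x' = e (E 0 (x' 0) * E 1 (x' 1) - E 0 (x' 1) * E 1 (x' 0)) * W2 δ δ' x := by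
  unfold W2
  rw [h.chain hx (x' 0), h.chain hx (x' 1), h'.chain hx (x' 0), h'.chain hx (x' 1)]
  simp only [Fin.sum_univ_two, map_sub, map_mul]
  ring

/-- a pluricanonical form in two systems of coordinates -/
theorem pluri_change {N : ℕ} {ω : (Fin 2 → Derivation ℂ K K) → K} (hω : IsPluri N ω)
    {x' : Fin 2 → K} {E E' : Fin 2 → Derivation ℂ K K} (hx' : Dual x' E') :
    ω E = (E 0 (x' 0) * E 1 (x' 1) - E 0 (x' 1) * E 1 (x' 0)) ^ N * ω E' := by
  have h1 := hω (Matrix.of fun i j => E i (x' j)) E'
  have h2 : (fun i => ∑ j, (Matrix.of fun i j => E i (x' j)) i j • E' j) = E := by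
    funext i
    exact (hx'.expand (E i)).symm
  rw [h2, Matrix.det_fin_two] at h1
  exact h1

/-- the value of a pluricanonical form on two derivations does not depend on the coordinates -/
theorem T_indep {N : ℕ} {ω : (Fin 2 → Derivation ℂ K K) → K} (hω : IsPluri N ω)
    (h : IsDer e δ) (h' : IsDer e δ') {x x' : Fin 2 → K} {E E' : Fin 2 → Derivation ℂ K K}
    (hx : Dual x E) (hx' : Dual x' E') :
    e (ω E) * W2 δ δ' x ^ N = e (ω E') * W2 δ δ' x' ^ N := by
  rw [W2_change h h' (x' := x') hx, pluri_change (E := E) hω hx', mul_pow, map_mul, map_pow]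
  ring

/-- a pluricanonical form which does not vanish -/
theorem pluri_ne {N : ℕ} {ω : (Fin 2 → Derivation ℂ K K) → K} (hω : IsPluri N ω)
    {x : Fin 2 → K} {E D : Fin 2 → Derivation ℂ K K} (hx : Dual x E) (hD : ω D ≠ 0) :
    ω E ≠ 0 := by
  intro h0
  apply hD
  rw [pluri_change (E := D) hω hx, h0, mul_zero]

theorem pluri_ratio {N : ℕ} {ω0 ω1 : (Fin 2 → Derivation ℂ K K) → K} (h0 : IsPluri N ω0)
    (h1 : IsPluri N ω1) {x : Fin 2 → K} {E D : Fin 2 → Derivation ℂ K K} (hx : Dual x E)
    (hD : ω0 D ≠ 0) : ω1 D / ω0 D = ω1 E / ω0 E := by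
  have e0 := pluri_change (E := D) h0 hx
  have e1 := pluri_change (E := D) h1 hx
  have h2 : (D 0 (x 0) * D 1 (x 1) - D 0 (x 1) * D 1 (x 0)) ^ N ≠ 0 := by
    intro h3
    apply hD
    rw [e0, h3, zero_mul]
  rw [e0, e1, mul_div_mul_left _ _ h2]

end Pool.Agent.N155
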