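import Pool.Agent.N155.Thm

/-! Lang's conjecture for smooth surfaces over elliptic curves. -/

set_option autoImplicit false

open Filter Topology Metric Set MvPolynomial LinearAlgebra.Projectivization

namespace Pool.Agent.N155

open FF Pool.Agent.Y190.OP Pool.Agent.W602.GT Pool.Agent.TH143.GT

variable {n : ℕ} {ι : Type} {F : ι → MvPolynomial (Fin (n + 1)) ℂ} {K : Type} [Field K]
  [Algebra ℂ K] {y : Fin (n + 1) → K}

/-- from maps to projective space to maps to matrices -/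
theorem brody_of_const (hirr : Cone F ⊆ VarPts ℂ y)
    (h : ∀ φ : ℂ → Mat (n + 1), HolP univ φ → (∀ z, φ z ∈ TX y) → ∀ z, φ z = φ 0) :
    BrodyHyperbolic F := by
  intro f hf hX
  have hne : ∀ z, (f z).rep ≠ 0 := fun z => (f z).rep_nonzero
  have hrep : ∀ (v : Fin (n + 1) → ℂ) (hv : v ≠ 0), ∃ c : ℂ, c ≠ 0 ∧
      (Projectivization.mk ℂ v hv).rep = c • v := by
    intro v hv
    obtain ⟨a, ha⟩ := Projectivization.exists_smul_eq_mk_rep ℂ v hv
    exact ⟨a, a.ne_zero, ha.symm⟩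
  have hol : HolP univ (fun z => Phi (f z).rep) := by
    intro z _
    obtain ⟨V, g, hV, hzV, hg, hfg⟩ := hf z
    refine ⟨V, g, hV, hzV, hg, fun w hw => ?_⟩
    obtain ⟨h0, he⟩ := hfg w hw
    refine ⟨h0, ?_⟩
    obtain ⟨c, hc, hcr⟩ := hrep (g w) h0
    change Phi (f w).rep = Phi (g w)
    rw [he, hcr, Phi_smul hc]
  have hmem : ∀ z, Phi (f z).rep ∈ TX y := fun z => ⟨(f z).rep, hirr (hX z), rfl⟩
  have hc := h _ hol hmem
  have key : ∀ z, f z = f 0 := by
    intro z
    have h1 : Phi (f z).rep = Phi (f 0).rep := hc z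
    obtain ⟨c, hc0, hc1⟩ := Phi_inj (hne z) (hne 0) h1
    rw [← (f z).mk_rep, ← (f 0).mk_rep, Projectivization.mk_eq_mk_iff']
    exact ⟨c⁻¹, by rw [hc1, smul_smul, inv_mul_cancel₀ hc0, one_smul]⟩
  intro z w
  rw [key z, key w]

/-- Surfaces with a nonconstant rational map to an elliptic curve. -/
theorem brody_of_elliptic (hX : SmoothSurface F y) {a b : K} {g2 g3 : ℂ}
    (hab : b ^ 2 = 4 * a ^ 3 - algebraMap ℂ K g2 * a - algebraMap ℂ K g3)
    (hdisc : g2 ^ 3 ≠ 27 * g3 ^ 2) (ha : Transcendental ℂ a) (hgen : AllSubGeneral F) :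
    BrodyHyperbolic F :=
  brody_of_const hX.irred fun _ hol hmem =>
    main_const hX.sub hX.form hX.irred hX.smooth hab hdisc ha
      (hgen K 2 y one_le_two hX.sub) (fun K1 _ _ y1 hy1 => hgen K1 1 y1 le_rfl hy1) hol hmem

end Pool.Agent.N155
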