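import Pool.Agent.N155.IR
import Pool.Agent.N155.Catch

/-! Contraction, and the non-existence of curves which are transversal to the fibres. -/

set_option autoImplicit false

open Filter Topology Metric Set MvPolynomial

namespace Pool.Agent.N155

open FF Pool.Agent.Y190.OP Pool.Agent.W602.GT Pool.Agent.TH143.GT

variable {n : ℕ} {K : Type} [Field K] [Algebra ℂ K] {y : Fin (n + 1) → K}
  (R : ∀ h : K, Frac y h)

/-- the data of the two functions `a`, `b` -/
def dab (a b : K) : AB (n + 1) where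
  A1 := (R a).G1
  A0 := (R a).G0
  B1 := (R b).G1
  B0 := (R b).G0
  dA := (R a).d
  dB := (R b).d
  hA1 := (R a).h1
  hA0 := (R a).h0
  hB1 := (R b).h1
  hB0 := (R b).h0

/-- the curves which are transversal to the fibres -/
structure Cur (a b : K) (c : ℂ) (c0 : ℝ) (φ : ℂ → Mat (n + 1)) : Prop where
  hol : HolP univ φ
  mem : ∀ z, φ z ∈ TX y
  bd : ∀ z, ‖fderiv ℝ φ z‖ ≤ 2
  low : ∀ z, c0 ≤ ‖fderiv ℝ φ z‖
  ode : ∀ z, good R a (φ z) → good R b (φ z) → deriv (fun w => ev R a (φ w)) z = c * ev R b (φ z)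

variable {a b : K} {c : ℂ} {c0 : ℝ} {φ ψ : ℂ → Mat (n + 1)}

variable {R} in
theorem Cur.shift (h : Cur R a b c c0 φ) (t : ℂ) : Cur R a b c c0 (fun w => φ (t + w)) where
  hol := holP_shift h.hol t
  mem := fun z => h.mem _
  bd := fun z => by rw [fderiv_shift]; exact h.bd _
  low := fun z => by rw [fderiv_shift]; exact h.low _
  ode := fun z h1 h2 => by
    have h3 := h.ode (t + z) h1 h2
    have h4 := deriv_comp_const_add (fun w => ev R a (φ w)) t z
    rw [h4]
    exact h3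

/-- the algebraic relation -/
theorem ev_rel {g2 g3 : ℂ} (hab : b ^ 2 = 4 * a ^ 3 - algebraMap ℂ K g2 * a - algebraMap ℂ K g3)
    {M : Mat (n + 1)} (hM : M ∈ TX y) (h1 : good R a M) (h2 : good R b M) :
    ev R b M ^ 2 = 4 * ev R a M ^ 3 - g2 * ev R a M - g3 := by
  obtain ⟨u, hu, rfl⟩ := hM
  have e1 := (good_Phi R hu.1).1 h1
  have e2 := (good_Phi R hu.1).1 h2
  rw [ev_Phi R hu.1, ev_Phi R hu.1]
  set A1 := (R a).G1
  set A0 := (R a).G0
  set B1 := (R b).G1
  set B0 := (R b).G0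
  have hv : val y (B1 ^ 2 * A0 ^ 3 - (C 4 * A1 ^ 3 - C g2 * A1 * A0 ^ 2 - C g3 * A0 ^ 3) * B0 ^ 2) =
      0 := by
    have ha := (R a).eq
    have hb := (R b).eq
    have hn1 := (R a).hn
    have hn2 := (R b).hn
    have h3 := hab
    unfold val at *
    simp only [map_sub, map_mul, map_pow, aeval_C, map_ofNat]
    rw [ha, hb] at h3
    field_simp at h3
    linear_combination h3
  have hf : IsForm (B1 ^ 2 * A0 ^ 3 - (C 4 * A1 ^ 3 - C g2 * A1 * A0 ^ 2 - C g3 * A0 ^ 3) *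
      B0 ^ 2) := by
    refine ⟨(R b).d * 2 + (R a).d * 3, ?_⟩
    have k1 := ((R b).h1.pow 2).mul ((R a).h0.pow 3)
    have k2 := ((isHomogeneous_C (Fin (n + 1)) (4 : ℂ)).mul ((R a).h1.pow 3))
    have k3 := (((isHomogeneous_C (Fin (n + 1)) g2).mul (R a).h1).mul ((R a).h0.pow 2))
    have k4 := ((isHomogeneous_C (Fin (n + 1)) g3).mul ((R a).h0.pow 3))
    have k5 := ((R b).h0.pow 2)
    have j1 : 0 + (R a).d * 3 = (R a).d * 3 := by ring
    have j2 : 0 + (R a).d + (R a).d * 2 = (R a).d * 3 := by ring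
    rw [j1] at k2 k4
    rw [j2] at k3
    have k6 := ((k2.sub k3).sub k4).mul k5
    have j3 : (R a).d * 3 + (R b).d * 2 = (R b).d * 2 + (R a).d * 3 := add_comm _ _
    rw [j3] at k6
    exact k1.sub k6
  have h3 := hu.2 _ hf hv
  rw [val_eval] at h3
  simp only [map_sub, map_mul, map_pow, eval_C] at h3
  field_simp
  linear_combination h3

variable {R} in
theorem Cur.sol (h : Cur R a b c c0 φ) {g2 g3 : ℂ}
    (hab : b ^ 2 = 4 * a ^ 3 - algebraMap ℂ K g2 * a - algebraMap ℂ K g3) :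
    (dab R a b).Sol g2 g3 c φ where
  hol := h.hol
  alg := fun z hz => ev_rel R hab (h.mem z) hz.1 hz.2
  ode := fun z hz => h.ode z hz.1 hz.2

variable {R} in
/-- limits -/
theorem Cur.limit {𝓤 : Ultrafilter ℕ} {P : ℕ → ℂ → Mat (n + 1)} (hP : ∀ m, Cur R a b c c0 (P m)) :
    ∃ φ, Cur R a b c c0 φ ∧ CConv (𝓤 : Filter ℕ) univ P φ := by
  obtain ⟨φ, h1, h2, h3, h4⟩ := exists_limit isCompact_TX TX_PM (𝓤 := 𝓤) (K := 2)
    (fun m => (hP m).hol) (fun m => (hP m).mem) (fun m => (hP m).bd)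
  refine ⟨φ, ⟨h1, h2, fun z => ?_, fun z => ?_, fun z hz hz' => ?_⟩, h3⟩
  · exact le_of_tendsto (h4 z).norm (Eventually.of_forall fun m => (hP m).bd z)
  · exact ge_of_tendsto (h4 z).norm (Eventually.of_forall fun m => (hP m).low z)
  · set U : Set ℂ := {z | good R a (φ z)} with hU
    have hcont : Continuous φ := continuous_iff_continuousAt.2 fun _ => h1.continuousAt (mem_univ _)
    have hUo : IsOpen U := (isOpen_good R a).preimage hcont
    have hc : CConv (𝓤 : Filter ℕ) U (fun m w => ev R a (P m w)) (fun w => ev R a (φ w)) :=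
      CConv.comp (fun w _ => h3 w (mem_univ w)) fun w hw => continuousAt_qv hw
    have hev : ∀ᶠ p : ℕ × ℂ in (𝓤 : Filter ℕ) ×ˢ 𝓝 z, good R a (P p.1 p.2) ∧ good R b (P p.1 p.2) :=
      (h3 z (mem_univ z)).eventually
        (((isOpen_good R a).inter (isOpen_good R b)).mem_nhds ⟨hz, hz'⟩)
    rw [eventually_prod_iff] at hev
    obtain ⟨pa, hpa, pb, hpb, hab⟩ := hev
    have hd : ∃ V ∈ 𝓝 z, ∀ᶠ m in (𝓤 : Filter ℕ),
        DifferentiableOn ℂ (fun w => ev R a (P m w)) V := by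
      refine ⟨{w | pb w}, hpb, ?_⟩
      filter_upwards [hpa] with m hm w hw
      exact (an_qv (hP m).hol (mem_univ w) (R a).h1 (R a).h0
        (hab hm hw).1).differentiableAt.differentiableWithinAt
    have h5 := (CConv.an hc hUo hz hd).2
    have h6 : Tendsto (fun m => c * ev R b (P m z)) 𝓤 (𝓝 (c * ev R b (φ z))) :=
      ((continuousAt_qv hz').tendsto.comp (h3.pointwise (mem_univ z))).const_mul c
    refine tendsto_nhds_unique h5 (h6.congr' ?_)
    filter_upwards [hpa] with m hm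
    have := hab hm hpb.self_of_nhds
    exact ((hP m).ode z this.1 this.2).symm

/-- the curves lie over the same solution -/
def SB (a : K) (φ ψ : ℂ → Mat (n + 1)) : Prop :=
  ∀ z, good R a (φ z) → good R a (ψ z) → ev R a (φ z) = ev R a (ψ z)

/-- the assumptions on the surface -/
structure Surf (a b : K) (g2 g3 : ℂ) (c : ℂ) (c0 : ℝ) : Prop where
  lb : LB R
  rel : b ^ 2 = 4 * a ^ 3 - algebraMap ℂ K g2 * a - algebraMap ℂ K g3
  bne : b ≠ 0
  cne : c ≠ 0
  basis : ∃ (x2 : K) (E : Fin 2 → Derivation ℂ K K), Dual ![a, x2] E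
  forms : ∃ (N : ℕ) (ω0 ω1 : (Fin 2 → Derivation ℂ K K) → K) (D : Fin 2 → Derivation ℂ K K),
    0 < N ∧ IsPluri N ω0 ∧ IsPluri N ω1 ∧ (∀ v : Place ℂ K, Divisorial 2 v → RegAt v ω0) ∧
    (∀ v : Place ℂ K, Divisorial 2 v → RegAt v ω1) ∧ ω0 D ≠ 0 ∧
    Transcendental ℂ (ω1 D / ω0 D)
  dense : ∀ φ, Cur R a b c c0 φ → Cv y φ

variable {g2 g3 : ℂ}

variable {R} in
theorem Surf.mda (hS : Surf R a b g2 g3 c c0) (h : Cur R a b c c0 φ) :
    MD ((hS.dense φ h).emb R a) ≠ 0 := by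
  have hcv := hS.dense φ h
  have h1 : MD (hcv.emb R a) = algebraMap ℂ MK c * hcv.emb R b := by
    rw [Cv.emb_apply, Cv.emb_apply, MD_cl, ← cl_const, cl_mul, cl_eq]
    filter_upwards [hcv.good R a, hcv.good R b] with z h1 h2
    exact h.ode z h1 h2
  rw [h1]
  apply mul_ne_zero
  · rw [Ne, map_eq_zero_iff _ (algebraMap ℂ MK).injective]
    exact hS.cne
  · intro h2
    exact hS.bne ((map_eq_zero_iff _ (hcv.emb R).toRingHom.injective).1 h2)

theorem hyper_ge (L : ℝ) : ∀ᶠ m : ℕ in (hyperfilter ℕ : Filter ℕ), L ≤ m := by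
  have h2 : ∀ᶠ m : ℕ in atTop, L ≤ m := by
    filter_upwards [eventually_ge_atTop ⌈L⌉₊] with m hm
    exact (Nat.le_ceil L).trans (by exact_mod_cast hm)
  have h3 : (hyperfilter ℕ : Filter ℕ) ≤ atTop := by
    rw [← Nat.cofinite_eq_atTop]
    exact hyperfilter_le_cofinite
  exact h3 h2

variable {R} in
/-- **Contraction.** -/
theorem Surf.contr (hS : Surf R a b g2 g3 c c0) : ∃ ρ δ θ : ℝ, 0 < ρ ∧ 0 < δ ∧ 0 < θ ∧ θ < 1 ∧
    ∀ P Q, Cur R a b c c0 P → Cur R a b c c0 Q → SB R a P Q →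
      Contr ρ δ θ (fun z => ‖P z - Q z‖) := by
  by_contra hcon
  push Not at hcon
  have hseq : ∀ m : ℕ, ∃ (P Q : ℂ → Mat (n + 1)) (α : ℂ), Cur R a b c c0 P ∧ Cur R a b c c0 Q ∧
      SB R a P Q ∧ (∀ z ∈ closedBall (0 : ℂ) (m + 1), ‖P z - Q z‖ ≤ 1 / (m + 1 : ℝ)) ∧
      ∀ z ∈ closedBall (0 : ℂ) (m + 1),
        (1 - 1 / (m + 2 : ℝ)) * (‖P z - Q z‖ * ‖Complex.exp (α * z)‖) < ‖P 0 - Q 0‖ := by
    intro m
    have h1 : 1 / (m + 2 : ℝ) < 1 := by
      rw [div_lt_one (by positivity)]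
      have : (0 : ℝ) ≤ m := Nat.cast_nonneg m
      linarith
    obtain ⟨P, Q, hP, hQ, hPQ, hC⟩ := hcon (m + 1) (1 / (m + 1)) (1 - 1 / (m + 2)) (by positivity)
      (by positivity) (by linarith) (by linarith [show (0 : ℝ) < 1 / (m + 2) by positivity])
    unfold Contr at hC
    push Not at hC
    obtain ⟨z0, hz0, α, hα⟩ := hC
    have hmem : ∀ z, z ∈ closedBall (0 : ℂ) (m + 1) → z0 + z ∈ closedBall z0 (m + 1 : ℝ) := by
      intro z hz
      rw [mem_closedBall_zero_iff] at hz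
      rw [mem_closedBall, dist_eq_norm, add_sub_cancel_left]
      exact hz
    refine ⟨fun w => P (z0 + w), fun w => Q (z0 + w), α, hP.shift z0, hQ.shift z0,
      fun z h1 h2 => hPQ _ h1 h2, fun z hz => hz0 _ (hmem z hz), fun z hz => ?_⟩
    have h2 := hα _ (hmem z hz)
    rw [add_sub_cancel_left] at h2
    simp only [add_zero]
    exact h2
  choose P Q α hP hQ hPQ hsm hex using hseq
  set 𝓤 : Ultrafilter ℕ := hyperfilter ℕ with h𝓤
  obtain ⟨φ, hφ, hcP⟩ := Cur.limit (𝓤 := 𝓤) hP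
  obtain ⟨φ', hφ', hcQ⟩ := Cur.limit (𝓤 := 𝓤) hQ
  have hzero : Tendsto (fun m : ℕ => 1 / (m + 1 : ℝ)) 𝓤 (𝓝 0) := by
    have h1 : Tendsto (fun m : ℕ => 1 / (m + 1 : ℝ)) atTop (𝓝 0) :=
      tendsto_one_div_add_atTop_nhds_zero_nat
    refine h1.mono_left ?_
    rw [← Nat.cofinite_eq_atTop]
    exact hyperfilter_le_cofinite
  have heq : φ' = φ := by
    funext z
    have h1 : Tendsto (fun m => ‖P m z - Q m z‖) 𝓤 (𝓝 ‖φ z - φ' z‖) :=
      ((hcP.pointwise (mem_univ z)).sub (hcQ.pointwise (mem_univ z))).norm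
    have h2 : ‖φ z - φ' z‖ ≤ 0 := by
      refine le_of_tendsto_of_tendsto h1 hzero ?_
      filter_upwards [hyper_ge ‖z‖] with m hm
      exact hsm m z (mem_closedBall_zero_iff.2 (by linarith))
    exact (sub_eq_zero.1 (norm_eq_zero.1 (le_antisymm h2 (norm_nonneg _)))).symm
  rw [heq] at hcQ
  have hpos : ∀ m, 0 < ‖P m 0 - Q m 0‖ := by
    intro m
    have h1 := hex m 0 (mem_closedBall_self (by positivity))
    rw [mul_zero, Complex.exp_zero, norm_one, mul_one] at h1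
    by_contra hcon
    have h2 : ‖P m 0 - Q m 0‖ = 0 := le_antisymm (not_lt.1 hcon) (norm_nonneg _)
    rw [h2, mul_zero] at h1
    exact lt_irrefl _ h1
  let wt : ℕ → ℂ → ℂ := fun m z => Complex.exp (α m * z) / (‖P m 0 - Q m 0‖ : ℂ)
  have hwt : ∀ m z, ‖wt m z‖ = ‖Complex.exp (α m * z)‖ / ‖P m 0 - Q m 0‖ := by
    intro m z
    simp only [wt]
    rw [norm_div, Complex.norm_real, norm_norm]
  have hdefo : Defo y 𝓤 φ P Q wt := by
    refine ⟨hS.dense φ hφ, fun m => (hP m).hol, fun m => (hQ m).hol, fun m => (hP m).mem,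
      fun m => (hQ m).mem, hcP, hcQ, fun m => ?_, fun L => ?_⟩
    · simp only [wt]
      fun_prop
    · filter_upwards [hyper_ge L] with m hm z hz
      have h1 := hex m z (closedBall_subset_closedBall (by linarith) hz)
      have h2 : (1 : ℝ) / 2 ≤ 1 - 1 / (m + 2 : ℝ) := by
        have : 1 / (m + 2 : ℝ) ≤ 1 / 2 := by
          apply one_div_le_one_div_of_le (by norm_num)
          have : (0 : ℝ) ≤ m := Nat.cast_nonneg m
          linarith
        linarith
      rw [hwt, norm_sub_rev, ← mul_div_assoc, div_le_iff₀ (hpos m)]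
      have h3 : 0 ≤ ‖P m z - Q m z‖ * ‖Complex.exp (α m * z)‖ := by positivity
      nlinarith
  obtain ⟨x2, E, hE⟩ := hS.basis
  obtain ⟨N, ω0, ω1, D, hN, h0, h1, hr0, hr1, hD, htr⟩ := hS.forms
  refine hdefo.rigid R hS.lb (B := 2) hφ.bd hN h0 h1 hr0 hr1 hD htr hE (hS.mda hφ)
    (fun m z g1 g2 => hPQ m z g1 g2) (Eventually.of_forall fun m => ?_)
  rw [hwt, mul_zero, Complex.exp_zero, norm_one, norm_sub_rev, mul_one_div,
    div_self (hpos m).ne']

variable {R} in
/-- **Periods.** -/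
theorem Surf.period (hS : Surf R a b g2 g3 c c0) (h : Cur R a b c c0 φ) {ζ : ℂ} (hζ : ‖ζ‖ = 1) :
    ∃ (p : ℂ) (k : ℝ), 1 ≤ k ∧ ‖p - k * ζ‖ ≤ 1 / 4 ∧ ∀ z, φ (z + p) = φ z := by
  classical
  obtain ⟨ρ, δ, θ, hρ, hδ, hθ0, hθ, hC⟩ := hS.contr
  set 𝓤 : Ultrafilter ℕ := hyperfilter ℕ with h𝓤
  set ψ : ℕ → ℂ → Mat (n + 1) := fun m w => φ (m * ζ + w) with hψdef
  have hψ : ∀ m, Cur R a b c c0 (ψ m) := fun m => h.shift (m * ζ)
  obtain ⟨χ, hχ, hlim⟩ := Cur.limit (𝓤 := 𝓤) hψ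
  have hcv := hS.dense χ hχ
  have hbne : ∀ᶠ z in codiscrete ℂ, ev R b (χ z) ≠ 0 := by
    apply mero_ne (hcv.mero R b)
    intro h1
    have h2 : hcv.emb R b = 0 := by
      rw [Cv.emb_apply, cl_eq_zero]
      exact h1
    exact hS.bne ((map_eq_zero_iff _ (hcv.emb R).toRingHom.injective).1 h2)
  obtain ⟨z0, ⟨hz1, hz2⟩, hz3⟩ := (((hcv.good R a).and (hcv.good R b)).and hbne).exists
  obtain ⟨t, ht, hta⟩ := AB.Sol.catch (D := dab R a b) (l := (𝓤 : Filter ℕ)) hyper_ge hS.cne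
    (hχ.sol hS.rel) (fun m => (hψ m).sol hS.rel) hlim (z0 := z0) ⟨hz1, hz2⟩ hz3
  have hta' : ∀ᶠ m in (𝓤 : Filter ℕ), SB R a (fun w => ψ m (t m + w)) χ := hta
  -- the synchronised sequence
  let P : ℕ → ℂ → Mat (n + 1) := fun m =>
    if SB R a (fun w => ψ m (t m + w)) χ then fun w => ψ m (t m + w) else χ
  have hPcur : ∀ m, Cur R a b c c0 (P m) := by
    intro m
    simp only [P]
    split_ifs
    · exact (hψ m).shift (t m)
    · exact hχ
  have hPSB : ∀ m, SB R a (P m) χ := by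
    intro m
    simp only [P]
    split_ifs with h1
    · exact h1
    · exact fun z _ _ => rfl
  have hPev : ∀ᶠ m in (𝓤 : Filter ℕ), P m = fun w => ψ m (t m + w) := by
    filter_upwards [hta'] with m hm
    simp only [P]
    rw [if_pos hm]
  have hPlim : CConv (𝓤 : Filter ℕ) univ P χ := by
    intro z _
    have h1 : Tendsto (fun p : ℕ × ℂ => (p.1, t p.1 + p.2)) ((𝓤 : Filter ℕ) ×ˢ 𝓝 z)
        ((𝓤 : Filter ℕ) ×ˢ 𝓝 z) := by
      refine tendsto_fst.prodMk ?_
      have h2 := (ht.comp (tendsto_fst (f := (𝓤 : Filter ℕ)) (g := 𝓝 z))).add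
        (tendsto_snd (f := (𝓤 : Filter ℕ)) (g := 𝓝 z))
      rw [zero_add] at h2
      exact h2
    have h2 := (hlim z (mem_univ z)).comp h1
    refine h2.congr' ?_
    have h3 : ∀ᶠ p : ℕ × ℂ in (𝓤 : Filter ℕ) ×ˢ 𝓝 z, P p.1 = fun w => ψ p.1 (t p.1 + w) :=
      tendsto_fst.eventually hPev
    filter_upwards [h3] with p hp
    rw [hp]
    rfl
  have hQlim : CConv (𝓤 : Filter ℕ) univ (fun _ => χ) χ := by
    intro z _
    have h1 : ContinuousAt χ z := hχ.hol.continuousAt (mem_univ z)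
    exact h1.tendsto.comp tendsto_snd
  have hsep := separation isCompact_TX TX_PM (K := 2) hρ hδ hθ0 hθ (𝓤 := 𝓤) (φ := P)
    (ψ := fun _ => χ) (fun m => (hPcur m).hol) (fun m => (hPcur m).mem) (fun m => (hPcur m).bd)
    (fun _ => hχ.hol) (fun _ => hχ.mem) (fun _ => hχ.bd)
    (fun m => hC _ _ (hPcur m) hχ (hPSB m)) hPlim hQlim
  have hsmall : ∀ᶠ m in (𝓤 : Filter ℕ), ‖t m‖ < 1 / 8 := by
    have := ht.norm
    rw [norm_zero] at this
    exact this.eventually_lt_const (by norm_num)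
  have hall : ∀ᶠ m in (𝓤 : Filter ℕ), ‖t m‖ < 1 / 8 ∧ ∀ z, φ (m * ζ + (t m + z)) = χ z := by
    filter_upwards [hsep, hPev, hsmall] with m h1 h2 h3
    refine ⟨h3, fun z => ?_⟩
    have := h1 z
    rw [h2] at this
    exact this
  obtain ⟨m, hm1, hm2⟩ := hall.exists
  obtain ⟨m', ⟨hm1', hm2'⟩, hm'⟩ := (hall.and (hyper_ge ((m : ℝ) + 1))).exists
  refine ⟨(m' * ζ + t m') - (m * ζ + t m), (m' : ℝ) - m, by linarith, ?_, fun z => ?_⟩
  · have h1 : (m' * ζ + t m') - (m * ζ + t m) - ((m' : ℝ) - m : ℝ) * ζ = t m' - t m := by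
      push_cast
      ring
    have h2 : ((m' : ℝ) - m : ℝ) = (((m' : ℝ) - m : ℝ) : ℝ) := rfl
    rw [h1]
    refine (norm_sub_le _ _).trans ?_
    linarith
  · have h1 := hm2 (z - (m * ζ + t m))
    have h2 := hm2' (z - (m * ζ + t m))
    rw [← h1] at h2
    have e1 : (m' : ℂ) * ζ + (t m' + (z - (m * ζ + t m))) =
        z + ((m' * ζ + t m') - (m * ζ + t m)) := by ring
    have e2 : (m : ℂ) * ζ + (t m + (z - (m * ζ + t m))) = z := by ring
    rw [e1, e2] at h2
    exact h2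

theorem indep_of_close {p q : ℂ} {k l : ℝ} (hk : 1 ≤ k) (hl : 1 ≤ l) (hp : ‖p - k * 1‖ ≤ 1 / 4)
    (hq : ‖q - l * Complex.I‖ ≤ 1 / 4) : LinearIndependent ℝ ![p, q] := by
  rw [LinearIndependent.pair_iff]
  intro s t hst
  have hp1 := (Complex.abs_re_le_norm _).trans hp
  have hp2 := (Complex.abs_im_le_norm _).trans hp
  have hq1 := (Complex.abs_re_le_norm _).trans hq
  have hq2 := (Complex.abs_im_le_norm _).trans hq
  simp only [Complex.sub_re, Complex.sub_im, Complex.mul_re, Complex.mul_im, Complex.ofReal_re,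
    Complex.ofReal_im, Complex.one_re, Complex.one_im, Complex.I_re, Complex.I_im] at hp1 hp2 hq1 hq2
  rw [abs_le] at hp1 hp2 hq1 hq2
  have h1 := congrArg Complex.re hst
  have h2 := congrArg Complex.im hst
  simp only [Complex.add_re, Complex.add_im, Complex.real_smul, Complex.mul_re, Complex.mul_im,
    Complex.ofReal_re, Complex.ofReal_im, Complex.zero_re, Complex.zero_im] at h1 h2
  have hdet : 0 < p.re * q.im - p.im * q.re := by
    have a1 : 3 / 4 ≤ p.re := by linarith [hp1.1]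
    have a2 : 3 / 4 ≤ q.im := by linarith [hq2.1]
    have a3 : |p.im| ≤ 1 / 4 := abs_le.2 ⟨by linarith [hp2.1], by linarith [hp2.2]⟩
    have a4 : |q.re| ≤ 1 / 4 := abs_le.2 ⟨by linarith [hq1.1], by linarith [hq1.2]⟩
    have a5 : p.im * q.re ≤ 1 / 16 := by
      calc p.im * q.re ≤ |p.im * q.re| := le_abs_self _
        _ = |p.im| * |q.re| := abs_mul _ _
        _ ≤ 1 / 4 * (1 / 4) := mul_le_mul a3 a4 (abs_nonneg _) (by norm_num)
        _ = 1 / 16 := by norm_num
    nlinarith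
  have h3 : s * (p.re * q.im - p.im * q.re) = 0 := by
    linear_combination q.im * h1 - q.re * h2
  have h4 : t * (p.re * q.im - p.im * q.re) = 0 := by
    linear_combination p.re * h2 - p.im * h1
  exact ⟨(mul_eq_zero.1 h3).resolve_right hdet.ne', (mul_eq_zero.1 h4).resolve_right hdet.ne'⟩

variable {R} in
/-- **There are no transversal curves.** -/
theorem Surf.no_cur (hS : Surf R a b g2 g3 c c0) (h : Cur R a b c c0 φ) : False := by
  obtain ⟨p, k, hk, hpk, hp⟩ := hS.period h (ζ := 1) norm_one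
  obtain ⟨q, l, hl, hql, hq⟩ := hS.period h (ζ := Complex.I) Complex.norm_I
  have hind := indep_of_close hk hl hpk hql
  have hcv := hS.dense φ h
  obtain ⟨x2, E, hE⟩ := hS.basis
  have hell : ∀ f : K, (fun z => ev R f (φ z)) ∈ Ell p q := fun f =>
    ⟨hcv.mero R f, fun z => by simp only [hp], fun z => by simp only [hq]⟩
  obtain ⟨F, hF0, hF⟩ := ell_dep hind (hell a) (hell x2)
  apply hF0
  have h1 : aeval ![a, x2] F = (0 : K) := by
    apply (hcv.emb R).toRingHom.injective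
    change hcv.emb R _ = hcv.emb R _
    rw [map_zero]
    have h2 : hcv.emb R (aeval ![a, x2] F) = aeval (fun i => hcv.emb R (![a, x2] i)) F :=
      (MvPolynomial.comp_aeval_apply (f := ![a, x2]) (hcv.emb R) F)
    rw [h2]
    have h3 : ∀ G : MvPolynomial (Fin 2) ℂ, ∃ hm : Meromorphic (fun z =>
        eval ![ev R a (φ z), ev R x2 (φ z)] G),
        aeval (fun i => hcv.emb R (![a, x2] i)) G = cl _ hm := by
      intro G
      have hmm : ∀ G : MvPolynomial (Fin 2) ℂ, Meromorphic (fun z =>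
          eval ![ev R a (φ z), ev R x2 (φ z)] G) := by
        intro G
        have h4 := mero_eval (σ := Fin 2) (v := ![fun z => ev R a (φ z), fun z => ev R x2 (φ z)])
          (by
            intro j
            fin_cases j
            · exact hcv.mero R a
            · exact hcv.mero R x2) G
        have h5 : (fun z => eval (fun j => (![fun z => ev R a (φ z), fun z => ev R x2 (φ z)] :
            Fin 2 → ℂ → ℂ) j z) G) = fun z => eval ![ev R a (φ z), ev R x2 (φ z)] G := by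
          funext z
          congr 1
          congr 1
          funext j
          fin_cases j <;> rfl
        rwa [h5] at h4
      refine ⟨hmm G, ?_⟩
      induction G using MvPolynomial.induction_on with
      | C r =>
        rw [aeval_C, ← cl_const, cl_eq]
        exact Eventually.of_forall fun z => by rw [eval_C]
      | add f g hf hg =>
        rw [map_add, hf, hg, cl_add, cl_eq]
        exact Eventually.of_forall fun z => by simp only [map_add, Pi.add_apply]
      | mul_X f i hf =>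
        rw [map_mul, hf, aeval_X]
        fin_cases i
        · change cl _ _ * hcv.emb R a = _
          rw [Cv.emb_apply, cl_mul, cl_eq]
          exact Eventually.of_forall fun z => by simp
        · change cl _ _ * hcv.emb R x2 = _
          rw [Cv.emb_apply, cl_mul, cl_eq]
          exact Eventually.of_forall fun z => by simp
    obtain ⟨hm, h4⟩ := h3 F
    rw [h4, cl_eq_zero]
    exact hF
  exact (injective_iff_map_eq_zero _).1 hE.1.1 F h1

end Pool.Agent.N155
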