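import Pool.Agent.N155.Crv

/-! Entire curves of bounded derivative in a surface whose curves are of general type. -/

set_option autoImplicit false

open Filter Topology Metric Set MvPolynomial FF

namespace Pool.Agent.N155

open Pool.Agent.Y190.OP Pool.Agent.W602.GT Pool.Agent.TH143.GT

variable {n : ℕ} {ι : Type} {F : ι → MvPolynomial (Fin (n + 1)) ℂ} {K : Type} [Field K]
  [Algebra ℂ K] {y : Fin (n + 1) → K} {φ : ℂ → Mat (n + 1)}

/-- such curves are Zariski dense -/
theorem cv_of_general (hF : ∀ i, IsForm (F i)) (hy : SubVar F K 2 y)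
    (hgt : ∀ (K1 : Type) [Field K1] [Algebra ℂ K1] (y1 : Fin (n + 1) → K1), SubVar F K1 1 y1 →
      GeneralType ℂ K1 1)
    (hol : HolP univ φ) (hmem : ∀ z, φ z ∈ TX y) {B : ℝ} (hB : ∀ z, ‖fderiv ℝ φ z‖ ≤ B)
    (hnc : ∃ z, φ z ≠ φ 0) : Cv y φ := by
  obtain ⟨K1, _, _, w, y1, hy1, hgen, hw, hrel, hw0⟩ := exists_closure hol
  have hvan : ∀ G : MvPolynomial (Fin (n + 1)) ℂ, IsForm G → val y G = 0 → val y1 G = 0 := by
    intro G hG h0
    rw [hrel G hG]
    intro z hz
    obtain ⟨u, hu, he⟩ := hmem z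
    obtain ⟨d, hd⟩ := hG
    rw [he, nz_Phi hd hu.1] at hz
    apply hz
    have := hu.2 G ⟨d, hd⟩ h0
    rwa [val_eval] at this
  have hsub : SubVar F K1 w y1 := ⟨hy1, fun i => hvan _ (hF i) (hy.mem i), hgen, hw⟩
  rcases Nat.lt_or_ge w 2 with hw2 | hw2
  · exfalso
    interval_cases w
    · obtain ⟨z, hz⟩ := hnc
      exact hz (hw0 rfl z)
    · have hcv : Cv y1 φ := by
        refine ⟨hol, fun z => ?_, fun G hG hv => ?_⟩
        · obtain ⟨u, hu, he⟩ := hmem z
          refine ⟨u, ⟨hu.1, fun G hG h0 => ?_⟩, he⟩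
          obtain ⟨d, hd⟩ := id hG
          have h1 := (hrel G hG).1 h0 z
          rw [he, nz_Phi hd hu.1, not_not] at h1
          rwa [val_eval]
        · by_contra hcon
          push Not at hcon
          exact hv ((hrel G hG).2 hcon)
      exact crv_not_general hgen hcv hB (hgt K1 y1 hsub)
  · refine ⟨hol, hmem, fun G hG hv => ?_⟩
    by_contra hcon
    push Not at hcon
    exact hv (spec_dense hy1 hgen hy.dim hw hw2 hvan hG ((hrel G hG).2 hcon))

end Pool.Agent.N155
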