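import Pool.Agent.W602.GT.SpDefs
import Pool.Agent.W602.GT.MordDefs

/-!
Smooth projective surfaces, holomorphic maps from the complex plane to projective varieties, and
varieties all of whose subvarieties are of general type.
-/

set_option autoImplicit false

open Filter Topology FF LinearAlgebra.Projectivization Pool.Agent.W602.GT

namespace Pool.Agent.N155

variable {n : ℕ} {ι : Type}

/-- Near the point `x`, the cone `X` in `ℂⁿ⁺¹` is the cone over the graph of a holomorphic map `Ψ`
in two of the affine coordinates `u j / u i`, `u k / u i` (with `x i ≠ 0`): the projective set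
given by `X` is, near the point `x`, a closed complex submanifold of dimension 2 of projective
space. -/
def GraphAt (X : Set (Fin (n + 1) → ℂ)) (x : Fin (n + 1) → ℂ) : Prop :=
  ∃ (i j k : Fin (n + 1)) (U : Set (ℂ × ℂ)) (Ψ : ℂ × ℂ → Fin (n + 1) → ℂ), x i ≠ 0 ∧ IsOpen U ∧
    (x j / x i, x k / x i) ∈ U ∧ AnalyticOnNhd ℂ Ψ U ∧
    (∀ z ∈ U, Ψ z ∈ X ∧ Ψ z i = 1 ∧ Ψ z j = z.1 ∧ Ψ z k = z.2) ∧
    ∀ᶠ u in 𝓝 x, u ∈ X → u = u i • Ψ (u j / u i, u k / u i)

/-- The projective variety `X = {F = 0}` in `ℙⁿ(ℂ)` is a smooth irreducible surface with function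
field `K` and generic point `y`: `K` is a field of transcendence degree 2 generated by the ratios of
the coordinates of `y`, the points of `X` are the common zeros of the forms which vanish at `y`, and
`X` is a complex submanifold of dimension 2 of projective space. -/
structure SmoothSurface (F : ι → MvPolynomial (Fin (n + 1)) ℂ) {K : Type} [Field K] [Algebra ℂ K]
    (y : Fin (n + 1) → K) : Prop where
  form : ∀ i, IsForm (F i)
  sub : SubVar F K 2 y
  irred : Cone F ⊆ VarPts ℂ y
  smooth : ∀ x ∈ Cone F, GraphAt (Cone F) x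

/-- Every closed subvariety of positive dimension of `X = {F = 0}` (including the components of `X`
itself) is of general type. -/
def AllSubGeneral (F : ι → MvPolynomial (Fin (n + 1)) ℂ) : Prop :=
  ∀ (K : Type) [Field K] [Algebra ℂ K] (w : ℕ) (y : Fin (n + 1) → K), 1 ≤ w → SubVar F K w y →
    GeneralType ℂ K w

/-- The map `f` from the complex plane to projective space is holomorphic. -/
def HolMap (f : ℂ → ℙ ℂ (Fin (n + 1) → ℂ)) : Prop :=
  ∀ z : ℂ, ∃ (V : Set ℂ) (g : ℂ → Fin (n + 1) → ℂ), IsOpen V ∧ z ∈ V ∧ DifferentiableOn ℂ g V ∧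
    ∀ w ∈ V, ∃ h : g w ≠ 0, f w = Projectivization.mk ℂ (g w) h

/-- `X = {F = 0}` is Brody hyperbolic: every holomorphic map from the complex plane to `X` is
constant. -/
def BrodyHyperbolic (F : ι → MvPolynomial (Fin (n + 1)) ℂ) : Prop :=
  ∀ f : ℂ → ℙ ℂ (Fin (n + 1) → ℂ), HolMap f → (∀ z, (f z).rep ∈ Cone F) → ∀ z w, f z = f w

end Pool.Agent.N155
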