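import Pool.Agent.N155.Ini
import Pool.Agent.N155.Dns
import Pool.Agent.N155.Loc2

/-! Projectively holomorphic maps to a smooth surface over an elliptic curve. -/

set_option autoImplicit false

open Filter Topology Metric Set MvPolynomial

namespace Pool.Agent.N155

open FF Pool.Agent.Y190.OP Pool.Agent.W602.GT Pool.Agent.TH143.GT

variable {n : ℕ} {ι : Type} {F : ι → MvPolynomial (Fin (n + 1)) ℂ} {K : Type} [Field K]
  [Algebra ℂ K] {y : Fin (n + 1) → K}

/-- a transcendental element belongs to a transcendence basis -/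
theorem exists_basis2 (hK : Algebra.trdeg ℂ K = (2 : ℕ)) {a : K} (ha : Transcendental ℂ a) :
    ∃ (x2 : K) (E : Fin 2 → Derivation ℂ K K), Dual ![a, x2] E := by
  have h1 : AlgebraicIndepOn ℂ id ({a} : Set K) := by
    rw [AlgebraicIndepOn, algebraicIndependent_unique_type_iff]
    exact ha
  obtain ⟨s, hs1, hs2⟩ := exists_isTranscendenceBasis_superset h1
  have has : a ∈ s := hs1 rfl
  have hcard := hs2.cardinalMk_eq_trdeg
  rw [hK] at hcard
  obtain ⟨x2, hx2s, hx2⟩ : ∃ x2 ∈ s, x2 ≠ a := by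
    by_contra hcon
    push Not at hcon
    have h2 : s = {a} := by
      ext z
      constructor
      · intro hz
        exact hcon z hz
      · rintro rfl
        exact has
    rw [h2] at hcard
    simp at hcard
  have hind : AlgebraicIndependent ℂ (![a, x2] : Fin 2 → K) := by
    have h3 : (![a, x2] : Fin 2 → K) = (fun z : s => (z : K)) ∘
        (![⟨a, has⟩, ⟨x2, hx2s⟩] : Fin 2 → s) := by
      funext i
      fin_cases i <;> rfl
    rw [h3]
    apply hs2.1.comp
    intro i j hij
    fin_cases i <;> fin_cases j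
    · rfl
    · exact absurd (congrArg Subtype.val hij).symm hx2
    · exact absurd (congrArg Subtype.val hij) hx2
    · rfl
  have hbas : IsTranscendenceBasis ℂ (![a, x2] : Fin 2 → K) := by
    apply hind.isTranscendenceBasis_of_trdeg_le_of_finite
    rw [hK, Cardinal.mk_fin]
  choose E hE using fun i : Fin 2 => exists_der _ hbas (fun b => if i = b then (1 : K) else 0)
  exact ⟨x2, E, hbas, hE⟩

/-- **The main theorem**, for projectively holomorphic maps. -/
theorem main_const (hy : SubVar F K 2 y) (hF : ∀ i, IsForm (F i))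
    (hirr : Cone F ⊆ VarPts ℂ y) (hs : ∀ x ∈ Cone F, GraphAt (Cone F) x) {a b : K} {g2 g3 : ℂ}
    (hab : b ^ 2 = 4 * a ^ 3 - algebraMap ℂ K g2 * a - algebraMap ℂ K g3)
    (hdisc : g2 ^ 3 ≠ 27 * g3 ^ 2) (ha : Transcendental ℂ a)
    (hgt2 : GeneralType ℂ K 2)
    (hgt1 : ∀ (K1 : Type) [Field K1] [Algebra ℂ K1] (y1 : Fin (n + 1) → K1), SubVar F K1 1 y1 →
      GeneralType ℂ K1 1) {φ : ℂ → Mat (n + 1)} (hol : HolP univ φ) (hmem : ∀ z, φ z ∈ TX y) :
    ∀ z, φ z = φ 0 := by
  by_contra hne
  let R : ∀ h : K, Frac y h := fr hy.gen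
  have hLB : LB R := lb_of_graph hy hF hirr hs R
  obtain ⟨H, hH1, hH2, hH3, hH4⟩ := brody isCompact_TX TX_PM hol hmem hne
  have hnc : ∀ φ : ℂ → Mat (n + 1), (∃ z, fderiv ℝ φ z ≠ 0) → ∃ z, φ z ≠ φ 0 := by
    rintro φ ⟨z, hz⟩
    by_contra hcon
    push Not at hcon
    apply hz
    have : φ = fun _ => φ 0 := funext hcon
    rw [this]
    simp
  have hcvH : Cv y H := cv_of_general hF hy hgt1 hH1 hH2 hH3 (hnc H ⟨0, fun h0 => by
    rw [h0, norm_zero] at hH4
    exact zero_ne_one hH4⟩)
  have hb : b ≠ 0 := by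
    rintro rfl
    apply ha
    refine ⟨4 * Polynomial.X ^ 3 - Polynomial.C g2 * Polynomial.X - Polynomial.C g3, ?_, ?_⟩
    · intro h0
      have h1 := congrArg (fun p : Polynomial ℂ => p.coeff 3) h0
      have h4 : (4 : Polynomial ℂ) = Polynomial.C 4 := (map_ofNat _ 4).symm
      simp only [h4, Polynomial.coeff_sub, Polynomial.coeff_C_mul, Polynomial.coeff_X_pow,
        Polynomial.coeff_X, Polynomial.coeff_C, Polynomial.coeff_zero] at h1
      norm_num at h1
    · rw [map_sub, map_sub, map_mul, map_mul, map_pow, Polynomial.aeval_X, Polynomial.aeval_C,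
        Polynomial.aeval_C, map_ofNat, ← hab]
      ring
  obtain ⟨c, c0, hc, hc0, hcur⟩ := exists_cur R hLB hab hdisc hb ha hcvH hH3
  obtain ⟨-, N, hN, ω, hω, hreg, D, hD0, hDi⟩ := hgt2
  have hS : Surf R a b g2 g3 c c0 :=
    { lb := hLB
      rel := hab
      bne := hb
      cne := hc
      basis := exists_basis2 hy.dim ha
      forms := ⟨N, ω 0, ω 1, D, hN, hω 0, hω 1, fun v hv => hreg v hv 0, fun v hv => hreg v hv 1,
        hD0, hDi.transcendental 0⟩
      dense := fun φ hφ => cv_of_general hF hy hgt1 hφ.hol hφ.mem hφ.bd (hnc φ ⟨0, fun h0 => by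
        have := hφ.low 0
        rw [h0, norm_zero] at this
        linarith⟩) }
  exact hS.no_cur hcur

end Pool.Agent.N155
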