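import Pool.Agent.N155.Sep

/-! The differential equation of the Weierstrass function, along holomorphic curves. -/

set_option autoImplicit false

open Filter Topology Metric Set MvPolynomial

namespace Pool.Agent.N155

open Pool.Agent.Y190.OP

variable {N : ℕ}

/-- the data of a map to an elliptic curve -/
structure AB (N : ℕ) where
  A1 : MvPolynomial (Fin N) ℂ
  A0 : MvPolynomial (Fin N) ℂ
  B1 : MvPolynomial (Fin N) ℂ
  B0 : MvPolynomial (Fin N) ℂ
  dA : ℕ
  dB : ℕ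
  hA1 : A1.IsHomogeneous dA
  hA0 : A0.IsHomogeneous dA
  hB1 : B1.IsHomogeneous dB
  hB0 : B0.IsHomogeneous dB

variable (D : AB N)

/-- the function `a` -/
noncomputable def AB.a (M : Mat N) : ℂ := qv D.A1 D.A0 M

/-- the function `b` -/
noncomputable def AB.b (M : Mat N) : ℂ := qv D.B1 D.B0 M

/-- the point is good -/
def AB.gd (M : Mat N) : Prop := nz D.A0 M ∧ nz D.B0 M

/-- the curve is a solution of the differential equation -/
structure AB.Sol (g2 g3 c : ℂ) (φ : ℂ → Mat N) : Prop where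
  hol : HolP univ φ
  alg : ∀ z, D.gd (φ z) → D.b (φ z) ^ 2 = 4 * D.a (φ z) ^ 3 - g2 * D.a (φ z) - g3
  ode : ∀ z, D.gd (φ z) → deriv (fun w => D.a (φ w)) z = c * D.b (φ z)

variable {D} {g2 g3 c : ℂ} {φ ψ : ℂ → Mat N}

theorem AB.isOpen_gd : IsOpen {M : Mat N | D.gd M} := (isOpen_nz D.A0).inter (isOpen_nz D.B0)

theorem AB.Sol.cont (h : D.Sol g2 g3 c φ) : Continuous φ :=
  continuous_iff_continuousAt.2 fun _ => h.hol.continuousAt (mem_univ _)

theorem AB.Sol.an_a (h : D.Sol g2 g3 c φ) {z : ℂ} (hz : nz D.A0 (φ z)) :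
    AnalyticAt ℂ (fun w => D.a (φ w)) z := an_qv h.hol (mem_univ z) D.hA1 D.hA0 hz

theorem AB.Sol.an_b (h : D.Sol g2 g3 c φ) {z : ℂ} (hz : nz D.B0 (φ z)) :
    AnalyticAt ℂ (fun w => D.b (φ w)) z := an_qv h.hol (mem_univ z) D.hB1 D.hB0 hz

theorem AB.Sol.ev_gd (h : D.Sol g2 g3 c φ) {z : ℂ} (hz : D.gd (φ z)) :
    ∀ᶠ w in 𝓝 z, D.gd (φ w) :=
  h.cont.continuousAt.eventually (AB.isOpen_gd.mem_nhds hz)

theorem AB.Sol.shift (h : D.Sol g2 g3 c φ) (t : ℂ) : D.Sol g2 g3 c (fun w => φ (t + w)) where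
  hol := holP_shift h.hol t
  alg := fun z hz => h.alg _ hz
  ode := fun z hz => by
    have h1 := h.ode (t + z) hz
    have h2 := deriv_comp_const_add (fun w => D.a (φ w)) t z
    rw [h2]
    exact h1

/-- the differential equation for `b` -/
theorem AB.Sol.ode_b (h : D.Sol g2 g3 c φ) {z : ℂ} (hz : D.gd (φ z)) (hb : D.b (φ z) ≠ 0) :
    HasDerivAt (fun w => D.a (φ w)) (c * D.b (φ z)) z ∧
      HasDerivAt (fun w => D.b (φ w)) (c * (6 * D.a (φ z) ^ 2 - g2 / 2)) z := by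
  have ha : HasDerivAt (fun w => D.a (φ w)) (c * D.b (φ z)) z := by
    rw [← h.ode z hz]
    exact (h.an_a hz.1).differentiableAt.hasDerivAt
  have hb1 := (h.an_b hz.2).differentiableAt.hasDerivAt
  refine ⟨ha, ?_⟩
  have h1 : HasDerivAt (fun w => D.b (φ w) ^ 2)
      (2 * D.b (φ z) ^ (2 - 1) * deriv (fun w => D.b (φ w)) z) z := by
    have := hb1.pow 2
    exact_mod_cast this
  have h2 : HasDerivAt (fun w => 4 * D.a (φ w) ^ 3 - g2 * D.a (φ w) - g3)
      (4 * (3 * D.a (φ z) ^ (3 - 1) * (c * D.b (φ z))) - g2 * (c * D.b (φ z))) z := by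
    have h3 := (((ha.pow 3).const_mul 4).sub (ha.const_mul g2)).sub_const g3
    exact_mod_cast h3
  have h3 : (fun w => D.b (φ w) ^ 2) =ᶠ[𝓝 z] fun w => 4 * D.a (φ w) ^ 3 - g2 * D.a (φ w) - g3 := by
    filter_upwards [h.ev_gd hz] with w hw
    exact h.alg w hw
  have h4 := (h1.congr_of_eventuallyEq h3.symm).unique h2
  have h5 : deriv (fun w => D.b (φ w)) z = c * (6 * D.a (φ z) ^ 2 - g2 / 2) := by
    have h6 : 2 * D.b (φ z) * deriv (fun w => D.b (φ w)) z =
        2 * D.b (φ z) * (c * (6 * D.a (φ z) ^ 2 - g2 / 2)) := by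
      norm_num at h4
      linear_combination h4
    exact mul_left_cancel₀ (mul_ne_zero two_ne_zero hb) h6
  rw [← h5]
  exact hb1

/-- uniqueness for the differential equation -/
theorem AB.Sol.unique (h : D.Sol g2 g3 c φ) (h' : D.Sol g2 g3 c ψ) {z0 : ℂ} (h0 : D.gd (φ z0))
    (h0' : D.gd (ψ z0)) (ha : D.a (φ z0) = D.a (ψ z0)) (hb : D.b (φ z0) = D.b (ψ z0))
    (hb0 : D.b (φ z0) ≠ 0) (z : ℂ) (hz : nz D.A0 (φ z)) (hz' : nz D.A0 (ψ z)) :
    D.a (φ z) = D.a (ψ z) := by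
  -- the vector field
  let v : ℂ × ℂ → ℂ × ℂ := fun x => (c * x.2, c * (6 * x.1 ^ 2 - g2 / 2))
  have hv : ContDiffAt ℝ 1 v (D.a (φ z0), D.b (φ z0)) := by
    have : ContDiff ℝ 1 v := by
      apply ContDiff.prodMk
      · exact contDiff_const.mul contDiff_snd
      · exact contDiff_const.mul ((contDiff_const.mul (contDiff_fst.pow 2)).sub contDiff_const)
    exact this.contDiffAt
  obtain ⟨L, s, hs, hL⟩ := hv.exists_lipschitzOnWith
  have key : ∀ {χ : ℂ → Mat N}, D.Sol g2 g3 c χ → D.gd (χ z0) → D.a (χ z0) = D.a (φ z0) →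
      D.b (χ z0) = D.b (φ z0) → ∀ᶠ t : ℝ in 𝓝 0,
      HasDerivAt (fun t : ℝ => (D.a (χ (z0 + t)), D.b (χ (z0 + t))))
        (v (D.a (χ (z0 + t)), D.b (χ (z0 + t)))) t ∧
      (D.a (χ (z0 + t)), D.b (χ (z0 + t))) ∈ s := by
    intro χ hχ hg e1 e2
    have hlin : Tendsto (fun t : ℝ => z0 + (t : ℂ)) (𝓝 0) (𝓝 z0) := by
      have : Continuous fun t : ℝ => z0 + (t : ℂ) := by fun_prop
      have h3 := this.tendsto 0
      simpa using h3
    have hca : ContinuousAt (fun w => D.a (χ w)) z0 := (hχ.an_a hg.1).continuousAt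
    have hcb : ContinuousAt (fun w => D.b (χ w)) z0 := (hχ.an_b hg.2).continuousAt
    have hev1 : ∀ᶠ w in 𝓝 z0, D.gd (χ w) := hχ.ev_gd hg
    have hev2 : ∀ᶠ w in 𝓝 z0, D.b (χ w) ≠ 0 := hcb.eventually_ne (by rw [e2]; exact hb0)
    have hev3 : ∀ᶠ w in 𝓝 z0, (D.a (χ w), D.b (χ w)) ∈ s := by
      have h4 : Tendsto (fun w => (D.a (χ w), D.b (χ w))) (𝓝 z0) (𝓝 (D.a (φ z0), D.b (φ z0))) := by
        rw [← e1, ← e2]
        exact hca.tendsto.prodMk_nhds hcb.tendsto
      exact h4 hs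
    filter_upwards [hlin.eventually hev1, hlin.eventually hev2, hlin.eventually hev3]
      with t ht1 ht2 ht3
    refine ⟨?_, ht3⟩
    obtain ⟨d1, d2⟩ := hχ.ode_b ht1 ht2
    have hl : HasDerivAt (fun t : ℝ => z0 + (t : ℂ)) 1 t :=
      (Complex.ofRealCLM.hasDerivAt (x := t)).const_add z0
    have e3 := HasDerivAt.scomp_of_eq t d1 hl rfl
    have e4 := HasDerivAt.scomp_of_eq t d2 hl rfl
    rw [one_smul] at e3 e4
    exact e3.prodMk e4
  have h1 := key h h0 rfl rfl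
  have h2 := key h' h0' ha.symm hb.symm
  have h3 : (fun t : ℝ => (D.a (φ (z0 + t)), D.b (φ (z0 + t)))) =ᶠ[𝓝 0]
      fun t : ℝ => (D.a (ψ (z0 + t)), D.b (ψ (z0 + t))) := by
    refine ODE_solution_unique_of_eventually (v := fun _ => v) (s := fun _ => s) (K := L)
      (Eventually.of_forall fun _ => hL) h1 h2 ?_
    simp only [Complex.ofReal_zero, add_zero]
    rw [ha, hb]
  have h4 : ∃ᶠ w in 𝓝[≠] z0, D.a (φ w) = D.a (ψ w) := by
    have hlin : Tendsto (fun t : ℝ => z0 + (t : ℂ)) (𝓝[≠] 0) (𝓝[≠] z0) := by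
      apply tendsto_nhdsWithin_of_tendsto_nhds_of_eventually_within
      · have : Continuous fun t : ℝ => z0 + (t : ℂ) := by fun_prop
        have h3 := this.tendsto 0
        simp only [Complex.ofReal_zero, add_zero] at h3
        exact h3.mono_left nhdsWithin_le_nhds
      · filter_upwards [self_mem_nhdsWithin] with t ht
        have ht' : t ≠ 0 := ht
        simpa using ht'
    refine hlin.frequently ?_
    apply Eventually.frequently
    filter_upwards [h3.filter_mono nhdsWithin_le_nhds] with t ht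
    exact congrArg Prod.fst ht
  have h5 := mero_id2 (mero_qv h.hol D.hA1 D.hA0) (mero_qv h'.hol D.hA1 D.hA0) h4
  exact eq_of_codis h5 (h.an_a hz).continuousAt (h'.an_a hz').continuousAt

end Pool.Agent.N155
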