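import Pool.Agent.Helper386.D5V.Helper386_FF_Div

/-! The place of a valuation ring of a function field in one variable. -/

set_option autoImplicit false

open FF IsDedekindDomain
open scoped IntermediateField.algebraAdjoinAdjoin

namespace Pool.Agent.N155

/-- A valuation ring of a function field that contains the constants is the ring of a place. -/
theorem place_of_val {κ M : Type} [Field κ] [Field M] [Algebra κ M] [CharZero κ] [IsFF κ M]
    (V : ValuationSubring M) (hV : ∀ c : κ, algebraMap κ M c ∈ V) {t : M} (ht : t ∈ V)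
    (ht' : t⁻¹ ∉ V) : ∃ w : Place κ M, ∀ g, w.Reg g ↔ g ∈ V := by
  have hint : ∀ (A : Type) [CommRing A] [Algebra A M], (∀ a : A, algebraMap A M a ∈ V) →
      ∀ b : M, IsIntegral A b → b ∈ V := by
    intro A _ _ hA b hb
    obtain ⟨p, hp, hpb⟩ := hb
    let φ : A →+* V := (algebraMap A M).codRestrict V.toSubring hA
    have h2 : IsIntegral V b := by
      refine ⟨p.map φ, hp.map _, ?_⟩
      rw [Polynomial.eval₂_map]
      exact hpb
    obtain ⟨c, hc⟩ := (IsIntegrallyClosed.isIntegral_iff (R := V) (K := M)).1 h2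
    rw [← hc]
    exact c.2
  have htr : Transcendental κ t := by
    intro h
    exact ht' (hint κ hV _ h.inv.isIntegral)
  let A := Algebra.adjoin κ {t}
  let e := Polynomial.algEquivOfTranscendental κ t htr
  have hpid : IsPrincipalIdealRing A := IsPrincipalIdealRing.of_surjective e.toRingEquiv e.surjective
  have hded : IsDedekindDomain A := inferInstance
  have hfin := IsFF.finite htr
  open IntermediateField in
  have hchar : CharZero κ⟮t⟯ := charZero_of_injective_algebraMap (algebraMap κ κ⟮t⟯).injective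
  open IntermediateField in
  have hsep : Algebra.IsSeparable κ⟮t⟯ M := inferInstance
  let B := integralClosure A M
  have : IsDedekindDomain B := integralClosure.isDedekindDomain A (IntermediateField.adjoin κ {t}) M
  have : IsFractionRing B M := integralClosure.isFractionRing_of_finite_extension
    (IntermediateField.adjoin κ {t}) M
  have hsc : IsScalarTower κ B M := by
    refine IsScalarTower.of_algebraMap_eq fun c => ?_
    rw [IsScalarTower.algebraMap_apply κ A B, ← IsScalarTower.algebraMap_apply A B M,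
      ← IsScalarTower.algebraMap_apply κ A M]
  have hAV : ∀ a : A, algebraMap A M a ∈ V := by
    rintro ⟨a, ha⟩
    change a ∈ V
    induction ha using Algebra.adjoin_induction with
    | mem x hx =>
      rw [Set.mem_singleton_iff] at hx
      rw [hx]
      exact ht
    | algebraMap r => exact hV r
    | add x y _ _ hx hy => exact add_mem hx hy
    | mul x y _ _ hx hy => exact mul_mem hx hy
  have hBV : ∀ b : B, (b : M) ∈ V := fun b => hint A hAV _ b.2
  let φ : B →+* V := (algebraMap B M).codRestrict V.toSubring hBV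
  let I : Ideal B := (IsLocalRing.maximalIdeal V).comap φ
  have hIp : I.IsPrime := inferInstance
  have hmemI : ∀ b : B, b ∉ I ↔ IsUnit (φ b) := by
    intro b
    change ¬ (φ b ∈ IsLocalRing.maximalIdeal V) ↔ _
    rw [IsLocalRing.mem_maximalIdeal, mem_nonunits_iff, not_not]
  have hI0 : I ≠ ⊥ := by
    intro h0
    obtain ⟨b, hb⟩ : ∃ b : B, (b : M) = t :=
      ⟨algebraMap A B ⟨t, Algebra.self_mem_adjoin_singleton κ t⟩, rfl⟩
    have h1 : b ∈ I := by
      by_contra h
      have h2 := (hmemI b).1 h
      obtain ⟨c, hc⟩ := h2.exists_left_inv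
      apply ht'
      have h3 : (c : M) * t = 1 := by
        have := congrArg (fun z : V => (z : M)) hc
        rw [← hb]
        exact this
      have h4 : t⁻¹ = (c : M) := by
        rw [eq_comm]
        exact eq_inv_of_mul_eq_one_left h3
      rw [h4]
      exact c.2
    rw [h0, Ideal.mem_bot] at h1
    rw [h1] at hb
    have h2 : t = 0 := hb.symm
    rw [h2, inv_zero] at ht'
    exact ht' V.zero_mem
  obtain ⟨w, hw⟩ : ∃ w : Place κ M, w = placeOf (k := κ) (L := M) (⟨I, hIp, hI0⟩ :
    HeightOneSpectrum B) := ⟨_, rfl⟩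
  have h1 : ∀ g, w.Reg g → g ∈ V := by
    intro g hg
    by_cases hg0 : g = 0
    · rw [hg0]; exact V.zero_mem
    have h2 := (w.reg_iff hg0).1 hg
    rw [hw, placeOf_nonneg _ hg0] at h2
    obtain ⟨n, d, hnd⟩ := HeightOneSpectrum.exists_primeCompl_mul_eq_of_integer _ g h2
    have h3 : IsUnit (φ d) := (hmemI d).1 d.2
    obtain ⟨c, hc⟩ := h3.exists_left_inv
    have h4 : (c : M) * algebraMap B M d = 1 := congrArg (fun z : V => (z : M)) hc
    have h5 : g = (c : M) * algebraMap B M n := by
      rw [← hnd]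
      have : (c : M) * (g * algebraMap B M d) = ((c : M) * algebraMap B M d) * g := by ring
      rw [this, h4, one_mul]
    rw [h5]
    exact mul_mem c.2 (hBV n)
  refine ⟨w, fun g => ⟨h1 g, fun hg => ?_⟩⟩
  by_contra hcon
  have hg0 : g ≠ 0 := by
    rintro rfl
    exact hcon w.reg_zero
  have hneg : w.ord g < 0 := by
    by_contra h
    exact hcon ((w.reg_iff hg0).2 (not_lt.1 h))
  apply ht'
  have ht0 : t ≠ 0 := by
    rintro rfl
    rw [inv_zero] at ht'
    exact ht' V.zero_mem
  obtain ⟨N, hN⟩ : ∃ N : ℕ, (N : ℤ) = |w.ord t| := ⟨(|w.ord t|).toNat, by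
    rw [Int.toNat_of_nonneg (abs_nonneg _)]⟩
  have h2 : w.Reg (t⁻¹ * (g⁻¹) ^ N) := by
    rw [w.reg_iff (mul_ne_zero (inv_ne_zero ht0) (pow_ne_zero _ (inv_ne_zero hg0))),
      w.ord_mul (inv_ne_zero ht0) (pow_ne_zero _ (inv_ne_zero hg0)), w.ord_pow, w.ord_inv,
      w.ord_inv]
    have h3 : w.ord t ≤ N := by rw [hN]; exact le_abs_self _
    nlinarith
  have h3 := mul_mem (h1 _ h2) (pow_mem hg N)
  have h4 : t⁻¹ * (g⁻¹) ^ N * g ^ N = t⁻¹ := by
    rw [mul_assoc, ← mul_pow, inv_mul_cancel₀ hg0, one_pow, mul_one]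
  rwa [h4] at h3

end Pool.Agent.N155
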