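import Pool.Agent.N155.Clo

/-! A subvariety of the same dimension is the whole variety. -/

set_option autoImplicit false

open MvPolynomial

namespace Pool.Agent.N155

open Pool.Agent.W602.GT

variable {n : ℕ} {K L : Type} [Field K] [Algebra ℂ K] [Field L] [Algebra ℂ L]

/-- inhomogeneous relations from homogeneous ones -/
theorem dehom {y : Fin (n + 1) → K} {y' : Fin (n + 1) → L} {i0 : Fin (n + 1)} (h0 : y i0 ≠ 0)
    (h0' : y' i0 ≠ 0)
    (h : ∀ G : MvPolynomial (Fin (n + 1)) ℂ, IsForm G → val y G = 0 → val y' G = 0)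
    (p : MvPolynomial (Fin (n + 1)) ℂ) (hp : MvPolynomial.aeval (fun j => y j / y i0) p = 0) :
    MvPolynomial.aeval (fun j => y' j / y' i0) p = 0 := by
  classical
  set D := p.totalDegree with hD
  let P : MvPolynomial (Fin (n + 1)) ℂ := ∑ a ∈ p.support,
    MvPolynomial.monomial (a + Finsupp.single i0 (D - ∑ j, a j)) (p.coeff a)
  have hle : ∀ a ∈ p.support, ∑ j, a j ≤ D := by
    intro a ha
    have h1 := MvPolynomial.le_totalDegree ha
    rw [Finsupp.sum_fintype _ _ (fun _ => rfl)] at h1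
    exact h1
  have hform : IsForm P := by
    refine ⟨D, MvPolynomial.IsHomogeneous.sum _ _ _ fun a ha => ?_⟩
    apply MvPolynomial.isHomogeneous_monomial
    rw [Finsupp.degree_eq_sum]
    simp only [Finsupp.add_apply, Finset.sum_add_distrib]
    rw [← Finsupp.degree_eq_sum (Finsupp.single i0 _), Finsupp.degree_single]
    have := hle a ha
    omega
  have hval : ∀ {M : Type} [Field M] [Algebra ℂ M] (z : Fin (n + 1) → M), z i0 ≠ 0 →
      val z P = z i0 ^ D * MvPolynomial.aeval (fun j => z j / z i0) p := by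
    intro M _ _ z hz
    rw [MvPolynomial.aeval_def, MvPolynomial.eval₂_eq', Finset.mul_sum]
    unfold val
    rw [map_sum]
    refine Finset.sum_congr rfl fun a ha => ?_
    rw [MvPolynomial.aeval_monomial, Finsupp.prod_fintype _ _ (fun j => pow_zero _)]
    have h1 : ∏ j, z j ^ (a + Finsupp.single i0 (D - ∑ j, a j)) j =
        (∏ j, z j ^ a j) * z i0 ^ (D - ∑ j, a j) := by
      simp only [Finsupp.add_apply, pow_add, Finset.prod_mul_distrib]
      congr 1
      rw [Finset.prod_eq_single i0]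
      · simp
      · intro j _ hj
        rw [Finsupp.single_eq_of_ne hj, pow_zero]
      · intro hj
        exact absurd (Finset.mem_univ _) hj
    have h2 : ∏ j, (z j / z i0) ^ a j = (∏ j, z j ^ a j) / z i0 ^ (∑ j, a j) := by
      simp only [div_pow, Finset.prod_div_distrib]
      rw [Finset.prod_pow_eq_pow_sum]
    have h3 : z i0 ^ D = z i0 ^ (∑ j, a j) * z i0 ^ (D - ∑ j, a j) := by
      rw [← pow_add, Nat.add_sub_cancel' (hle a ha)]
    rw [h1, h2, h3]
    have h4 : z i0 ^ (∑ j, a j) ≠ 0 := pow_ne_zero _ hz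
    field_simp
  have h1 : val y P = 0 := by rw [hval y h0, hp, mul_zero]
  have h2 := h P hform h1
  rw [hval y' h0'] at h2
  exact (mul_eq_zero.1 h2).resolve_left (pow_ne_zero _ h0')

theorem adjoin_range {y : Fin (n + 1) → K} (hgen : coords ℂ y = ⊤) {i0 : Fin (n + 1)}
    (h0 : y i0 ≠ 0) :
    IntermediateField.adjoin ℂ (Set.range fun j => y j / y i0) = ⊤ := by
  rw [eq_top_iff, ← hgen]
  unfold coords
  rw [IntermediateField.adjoin_le_iff]
  rintro _ ⟨i, j, hj, rfl⟩
  have h3 : y i / y j = (y i / y i0) / (y j / y i0) := by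
    field_simp
  rw [h3]
  exact div_mem (IntermediateField.subset_adjoin ℂ _ ⟨i, rfl⟩)
    (IntermediateField.subset_adjoin ℂ _ ⟨j, rfl⟩)

/-- a transcendence basis among the coordinates -/
theorem exists_coord_basis {y : Fin (n + 1) → K} (hgen : coords ℂ y = ⊤) {i0 : Fin (n + 1)}
    (h0 : y i0 ≠ 0) {w : ℕ} (hw : Algebra.trdeg ℂ K = w) :
    ∃ s : Fin w → Fin (n + 1), IsTranscendenceBasis ℂ (fun b => y (s b) / y i0) := by
  have h1 : Algebra.IsAlgebraic (Algebra.adjoin ℂ (Set.range fun j => y j / y i0)) K := by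
    have h2 : IsFractionRing (Algebra.adjoin ℂ (Set.range fun j => y j / y i0)) K := by
      apply IsFractionRing.of_field
      intro z
      have hz : z ∈ IntermediateField.adjoin ℂ (Set.range fun j => y j / y i0) := by
        rw [adjoin_range hgen h0]; exact IntermediateField.mem_top
      rw [IntermediateField.mem_adjoin_iff_div] at hz
      obtain ⟨r, hr, s, hs, hz⟩ := hz
      exact ⟨⟨r, hr⟩, ⟨s, hs⟩, hz⟩
    exact IsLocalization.isAlgebraic _
      (nonZeroDivisors (Algebra.adjoin ℂ (Set.range fun j => y j / y i0)))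
  obtain ⟨B, hB1, hB2⟩ := exists_isTranscendenceBasis_subset (R := ℂ) (A := K)
    (Set.range fun j => y j / y i0)
  have hcard := hB2.cardinalMk_eq_trdeg
  rw [hw] at hcard
  have hfin : Finite B := by
    rw [← Cardinal.lt_aleph0_iff_finite, hcard]
    exact Cardinal.natCast_lt_aleph0
  obtain ⟨m', ⟨e⟩⟩ := Finite.exists_equiv_fin B
  obtain rfl : m' = w := by
    rw [Cardinal.mk_congr e, Cardinal.mk_fin] at hcard
    exact_mod_cast hcard
  choose s hs using fun b : B => hB1 b.2
  refine ⟨fun i => s (e.symm i), ?_⟩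
  have h3 : (fun b => y (s (e.symm b)) / y i0) = (fun i => ((e.symm i : B) : K)) := by
    funext i
    exact hs (e.symm i)
  rw [h3]
  exact hB2.comp_equiv e.symm

/-- a subvariety of the same dimension -/
theorem spec_dense {y : Fin (n + 1) → K} {z : Fin (n + 1) → L} (hz : z ≠ 0)
    (hgz : coords ℂ z = ⊤) {d w : ℕ} (hd : Algebra.trdeg ℂ K = d)
    (hw : Algebra.trdeg ℂ L = w) (hdw : d ≤ w)
    (h : ∀ G : MvPolynomial (Fin (n + 1)) ℂ, IsForm G → val y G = 0 → val z G = 0)
    {G : MvPolynomial (Fin (n + 1)) ℂ} (hG : IsForm G) (hG0 : val z G = 0) : val y G = 0 := by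
  classical
  obtain ⟨i0, hi0⟩ := Function.ne_iff.1 hz
  have h0' : z i0 ≠ 0 := hi0
  have h0 : y i0 ≠ 0 := by
    intro h1
    apply h0'
    have h2 := h (X i0) ⟨1, isHomogeneous_X _ _⟩ (by rw [val_X', h1])
    rwa [val_X'] at h2
  by_contra hcon
  obtain ⟨s, hs⟩ := exists_coord_basis hgz h0' hw
  -- independence upstairs
  have hind : AlgebraicIndependent ℂ (fun b => y (s b) / y i0) := by
    rw [algebraicIndependent_iff]
    intro p hp
    have h1 := dehom h0 h0' h (rename s p) (by rw [aeval_rename]; exact hp)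
    rw [aeval_rename] at h1
    exact (algebraicIndependent_iff.1 hs.1) p h1
  have hbas : IsTranscendenceBasis ℂ (fun b => y (s b) / y i0) := by
    apply hind.isTranscendenceBasis_of_trdeg_le_of_finite
    rw [hd, Cardinal.mk_fin]
    exact_mod_cast hdw
  have halg := alg_of_basis _ hbas
  let _ : Algebra (MvPolynomial (Fin w) ℂ) K :=
    ((aeval (fun b => y (s b) / y i0) : MvPolynomial (Fin w) ℂ →ₐ[ℂ] K) :
      MvPolynomial (Fin w) ℂ →+* K).toAlgebra
  obtain ⟨e, he⟩ := hG
  have hsc : ∀ {M : Type} [Field M] [Algebra ℂ M] (x : Fin (n + 1) → M), x i0 ≠ 0 →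
      val x G = x i0 ^ e * aeval (fun j => x j / x i0) G := by
    intro M _ _ x hx
    rw [MvPolynomial.aeval_def, MvPolynomial.eval₂_eq', Finset.mul_sum]
    unfold val
    rw [MvPolynomial.aeval_def, MvPolynomial.eval₂_eq']
    refine Finset.sum_congr rfl fun a ha => ?_
    have h2 : ∑ j, a j = e := by
      have := he (mem_support_iff.1 ha)
      rw [← this, Finsupp.weight_apply]
      simp [Finsupp.sum_fintype]
    have h3 : ∏ j, (x j / x i0) ^ a j = (∏ j, x j ^ a j) / x i0 ^ e := by
      simp only [div_pow, Finset.prod_div_distrib]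
      rw [Finset.prod_pow_eq_pow_sum, h2]
    rw [h3]
    have h4 : x i0 ^ e ≠ 0 := pow_ne_zero _ hx
    field_simp
  have hg : aeval (fun j => y j / y i0) G ≠ 0 := by
    intro h1
    apply hcon
    rw [hsc y h0, h1, mul_zero]
  have hg' : aeval (fun j => z j / z i0) G = 0 := by
    rw [hsc z h0'] at hG0
    exact (mul_eq_zero.1 hG0).resolve_left (pow_ne_zero _ h0')
  obtain ⟨q, hq0, hq⟩ := (halg.isAlgebraic (aeval (fun j => y j / y i0) G)).exists_nonzero_coeff_and_aeval_eq_zero
    (mem_nonZeroDivisors_of_ne_zero hg)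
  let ρ : MvPolynomial (Fin w) ℂ →+* MvPolynomial (Fin (n + 1)) ℂ := (rename s).toRingHom
  let p : MvPolynomial (Fin (n + 1)) ℂ := q.eval₂ ρ G
  have key : ∀ {M : Type} [Field M] [Algebra ℂ M] (x : Fin (n + 1) → M),
      aeval x p = q.eval₂ ((aeval x : MvPolynomial (Fin (n + 1)) ℂ →ₐ[ℂ] M).toRingHom.comp ρ)
        (aeval x G) := by
    intro M _ _ x
    exact Polynomial.hom_eval₂ q ρ (aeval x : MvPolynomial (Fin (n + 1)) ℂ →ₐ[ℂ] M).toRingHom G
  have hpy : aeval (fun j => y j / y i0) p = 0 := by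
    have hcomp : (aeval (fun j => y j / y i0) : MvPolynomial (Fin (n + 1)) ℂ →ₐ[ℂ] K).toRingHom.comp ρ
        = ((aeval (fun b => y (s b) / y i0) : MvPolynomial (Fin w) ℂ →ₐ[ℂ] K) :
      MvPolynomial (Fin w) ℂ →+* K) := by
      apply RingHom.ext
      intro r
      change aeval (fun j => y j / y i0) (rename s r) = aeval (fun b => y (s b) / y i0) r
      rw [aeval_rename]
      rfl
    rw [key, hcomp]
    exact hq
  have hpz := dehom h0 h0' h p hpy
  rw [key, hg', Polynomial.eval₂_at_zero] at hpz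
  change aeval (fun j => z j / z i0) (rename s (q.coeff 0)) = 0 at hpz
  rw [aeval_rename] at hpz
  exact hq0 ((algebraicIndependent_iff.1 hs.1) _ hpz)

end Pool.Agent.N155
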