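import Pool.Agent.N155.Val
import Pool.Agent.N155.Plv
import Pool.Agent.N155.Spec
import Pool.Agent.N155.IR
import Pool.Agent.N155.Catch

/-! Entire curves of bounded derivative in algebraic curves of general type. -/

set_option autoImplicit false

open Filter Topology Metric Set MvPolynomial FF

namespace Pool.Agent.N155

open Pool.Agent.Y190.OP Pool.Agent.W602.GT Pool.Agent.TH143.GT

/-- the kernel of the derivation -/
theorem MD_eq_zero {x : MK} (h : MD x = 0) : ∃ c : ℂ, x = algebraMap ℂ MK c := by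
  obtain ⟨f, hf, rfl⟩ := cl_surj x
  rw [MD_cl hf, cl_eq_zero] at h
  have h1 : {z | AnalyticAt ℂ f z ∧ deriv f z = 0} ∈ codiscrete ℂ := by
    filter_upwards [mero_an hf, h] with z h1 h2 using ⟨h1, h2⟩
  set U := {z | AnalyticAt ℂ f z ∧ deriv f z = 0} with hU
  obtain ⟨z0, hz0⟩ := codis_ne h1
  refine ⟨f z0, ?_⟩
  rw [← cl_const, cl_eq]
  filter_upwards [h1] with z hz
  have hd : DifferentiableOn ℂ f U := fun w hw => hw.1.differentiableAt.differentiableWithinAt
  exact (codis_open h1).is_const_of_deriv_eq_zero (codis_pre h1) hd (fun w hw => hw.2) hz hz0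

theorem hyper_ge' (L : ℝ) : ∀ᶠ m : ℕ in (hyperfilter ℕ : Filter ℕ), L ≤ m := by
  have h2 : ∀ᶠ m : ℕ in atTop, L ≤ m := by
    filter_upwards [eventually_ge_atTop ⌈L⌉₊] with m hm
    exact (Nat.le_ceil L).trans (by exact_mod_cast hm)
  have h3 : (hyperfilter ℕ : Filter ℕ) ≤ atTop := by
    rw [← Nat.cofinite_eq_atTop]
    exact hyperfilter_le_cofinite
  exact h3 h2

variable {n : ℕ} {K : Type} [Field K] [Algebra ℂ K] {y : Fin (n + 1) → K}
  (R : ∀ h : K, Frac y h) {φ : ℂ → Mat (n + 1)}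

theorem divisorial_one (P : Place ℂ K) : Divisorial 1 P := by
  have hemp : IsEmpty (Fin (1 - 1)) := inferInstanceAs (IsEmpty (Fin 0))
  refine ⟨fun i => absurd i.2 (by simp), fun F hF => ?_⟩
  obtain ⟨c, rfl⟩ : ∃ c : ℂ, F = C c := ⟨_, MvPolynomial.eq_C_of_isEmpty F⟩
  have hc : c ≠ 0 := by
    rintro rfl
    exact hF (map_zero _)
  rw [aeval_C]
  exact ⟨by rwa [Ne, map_eq_zero], P.ord_const hc⟩

/-- **The derivative of a curve of bounded derivative, measured by a form.** -/
theorem crv_const [IsFF ℂ K] (hgen : coords ℂ y = ⊤) (h : Cv y φ) {B : ℝ}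
    (hB : ∀ z, ‖fderiv ℝ φ z‖ ≤ B) {N : ℕ} {ω : (Fin 1 → Derivation ℂ K K) → K}
    (hω : IsPluri N ω) (hreg : ∀ P : Place ℂ K, Divisorial 1 P → RegAt P ω) {x : K}
    {E : Derivation ℂ K K} (hx : Dual ![x] ![E]) :
    ∃ c : ℂ, h.emb R (ω ![E]) * MD (h.emb R x) ^ N = algebraMap ℂ MK c := by
  classical
  have hess : Algebra.EssFiniteType ℂ K := ess_of_coords hgen
  set e := h.emb R with he
  obtain ⟨t, ht, htT⟩ := cl_surj (e (ω ![E]) * MD (e x) ^ N)
  by_contra hcon
  have hunb : ∀ m : ℕ, ∃ z, AnalyticAt ℂ t z ∧ (m : ℝ) < ‖t z‖ := by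
    intro m
    by_contra hc
    push Not at hc
    apply hcon
    obtain ⟨c, hc'⟩ := mk_const ht (C := m) (by
      filter_upwards [mero_an ht] with z hz
      exact hc z hz)
    exact ⟨c, by rw [← htT, hc']⟩
  choose zm hzan hzbig using hunb
  set 𝓤 : Ultrafilter ℕ := hyperfilter ℕ with h𝓤
  have hB0 : 0 ≤ B := (norm_nonneg _).trans (hB 0)
  have hLip : ∀ z w, ‖φ w - φ z‖ ≤ B * ‖w - z‖ := fun z w =>
    (convex_univ).norm_image_sub_le_of_norm_fderiv_le
      (fun x _ => h.hol.differentiableAt (mem_univ x)) (fun x _ => hB x) (mem_univ z) (mem_univ w)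
  -- the limit point
  obtain ⟨M0, hM0, hlim⟩ : ∃ M0 ∈ TX y, Tendsto (fun m => φ (zm m)) 𝓤 (𝓝 M0) := by
    have h1 : ((𝓤.map fun m => φ (zm m)) : Filter (Mat (n + 1))) ≤ 𝓟 (TX y) := by
      rw [Ultrafilter.coe_map, le_principal_iff, mem_map]
      exact Eventually.of_forall fun m => h.mem _
    obtain ⟨M, hM, hM'⟩ := isCompact_TX.ultrafilter_le_nhds (𝓤.map fun m => φ (zm m)) h1
    exact ⟨M, hM, hM'⟩
  obtain ⟨u, hu, rfl⟩ := hM0
  obtain ⟨i, hi⟩ := Function.ne_iff.1 hu.1
  have hui : u i ≠ 0 := hi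
  have hnzi : nz (X i) (Phi u) := by
    rw [nz_Phi (isHomogeneous_X _ _) hu.1, eval_X]
    exact hui
  have hyi : y i ≠ 0 := by
    intro h0
    have := hu.2 (X i) ⟨1, isHomogeneous_X _ _⟩ (by rw [val_X', h0])
    rw [val_X'] at this
    exact hui this
  -- the values of the coordinates
  have hcoord : ∀ (c : ℕ → ℂ), Tendsto (fun m => c m - zm m) 𝓤 (𝓝 0) → ∀ j,
      HasVal 𝓤 c (e (y j / y i)) (qv (X j) (X i) (Phi u)) := by
    intro c hc j ε hε
    have hO : {M : Mat (n + 1) | nz (X i) M ∧ ‖qv (X j) (X i) M - qv (X j) (X i) (Phi u)‖ < ε} ∈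
        𝓝 (Phi u) := by
      refine Filter.inter_mem ((isOpen_nz _).mem_nhds hnzi) ?_
      have h2 : Tendsto (fun M => ‖qv (X j) (X i) M - qv (X j) (X i) (Phi u)‖) (𝓝 (Phi u))
          (𝓝 0) := by
        have := ((continuousAt_qv (G1 := X j) hnzi).tendsto.sub_const
          (qv (X j) (X i) (Phi u))).norm
        rwa [sub_self, norm_zero] at this
      exact h2.eventually_lt_const hε
    have hclim : Tendsto (fun m => φ (c m)) 𝓤 (𝓝 (Phi u)) := by
      have h2 : Tendsto (fun m => φ (c m) - φ (zm m)) 𝓤 (𝓝 0) := by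
        apply squeeze_zero_norm (a := fun m => B * ‖c m - zm m‖)
        · intro m
          exact hLip _ _
        · have := (hc.norm).const_mul B
          simpa using this
      have h3 := h2.add hlim
      simpa using h3
    obtain ⟨O, hO1, hO2, hO3⟩ := _root_.mem_nhds_iff.1 hO
    filter_upwards [hclim.eventually (hO2.mem_nhds hO3)] with m hm
    have hcont : ContinuousAt φ (c m) := h.hol.continuousAt (mem_univ _)
    have h4 : ∀ᶠ z in 𝓝[≠] (c m), φ z ∈ O :=
      (hcont.eventually (hO2.mem_nhds hm)).filter_mono nhdsWithin_le_nhds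
    have h5 : ∀ᶠ z in 𝓝[≠] (c m), rep (e (y j / y i)) z = ev R (y j / y i) (φ z) :=
      codis_ev (rep_cl _) (c m)
    filter_upwards [h4, h5, codis_ev (h.good R (y j / y i)) (c m)] with z hz1 hz2 hz3
    have h6 := hO1 hz1
    rw [hz2, ev_ratio R j hyi (h.mem z) hz3 h6.1]
    exact h6.2
  -- a transcendental coordinate
  obtain ⟨j0, hj0⟩ : ∃ j, Transcendental ℂ (y j / y i) := by
    obtain ⟨s, hs⟩ := exists_coord_basis hgen hyi (w := 1) (by
      rw [IsFF.trdeg (k := ℂ) (K := K), Nat.cast_one])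
    refine ⟨s 0, ?_⟩
    exact hs.1.transcendental 0
  set x0 : K := y j0 / y i - algebraMap ℂ K (qv (X j0) (X i) (Phi u)) with hx0
  have hx0t : Transcendental ℂ x0 := by
    intro h1
    apply hj0
    have h2 := h1.add (isAlgebraic_algebraMap (qv (X j0) (X i) (Phi u)) : IsAlgebraic ℂ (algebraMap ℂ K _))
    rwa [hx0, sub_add_cancel] at h2
  have hx0ne : x0 ≠ 0 := fun h0 => hx0t (by rw [h0]; exact isAlgebraic_zero)
  obtain ⟨S, hS, -, -⟩ := zeros hx0t
  -- the places
  have hplace : ∀ (c : ℕ → ℂ), Tendsto (fun m => c m - zm m) 𝓤 (𝓝 0) →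
      ∃ P : Place ℂ K, P ∈ S ∧ ∀ g, P.Reg g ↔ e g ∈ VM 𝓤 c := by
    intro c hc
    have h1 : HasVal 𝓤 c (e x0) 0 := by
      have := (hcoord c hc j0).sub_const (qv (X j0) (X i) (Phi u))
      rw [sub_self] at this
      have h2 : e x0 = e (y j0 / y i) - algebraMap ℂ MK (qv (X j0) (X i) (Phi u)) := by
        rw [hx0, map_sub, e.commutes]
      rwa [h2]
    have hex0 : e x0 ≠ 0 := by
      intro h0
      exact hx0ne ((map_eq_zero_iff _ e.toRingHom.injective).1 h0)
    obtain ⟨P, hP⟩ := place_of_val (κ := ℂ) ((VM 𝓤 c).comap e.toRingHom) (fun a => by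
      change e (algebraMap ℂ K a) ∈ VM 𝓤 c
      rw [e.commutes]
      refine ⟨‖a‖, Eventually.of_forall fun m => ?_⟩
      filter_upwards [codis_ev (rep_const a) (c m)] with z hz
      rw [hz]) (t := x0) (by
      change e x0 ∈ VM 𝓤 c
      exact h1.mem) (by
      change e (x0⁻¹) ∉ VM 𝓤 c
      rw [map_inv₀]
      exact h1.inv_not hex0)
    refine ⟨P, ?_, fun g => hP g⟩
    rw [hS]
    by_contra hneg
    have h2 : P.Reg x0⁻¹ := by
      rw [P.reg_iff (inv_ne_zero hx0ne), P.ord_inv]
      linarith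
    have h3 := (hP _).1 h2
    change e (x0⁻¹) ∈ VM 𝓤 c at h3
    rw [map_inv₀] at h3
    exact h1.inv_not hex0 h3
  obtain ⟨P, hPS, hP⟩ := hplace zm (by simp)
  -- the uniformizer
  have htr1 : Algebra.trdeg ℂ K = (1 : ℕ) := by
    rw [IsFF.trdeg (k := ℂ) (K := K), Nat.cast_one]
  obtain ⟨y', E', i0, hb', hE', hi0, hy'r, hpres⟩ := Pool.Agent.W240.PG.Frame.main
    Pool.Agent.W762.PG.main ℂ K 1 htr1 (fun y hy => fin_adjoin y hy) P (divisorial_one P)
  have hi00 : i0 = 0 := Subsingleton.elim _ _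
  rw [hi00] at hi0
  set τ := y' 0 with hτ
  have hτne : τ ≠ 0 := by
    intro h0
    rw [h0, P.ord_zero] at hi0
    omega
  have hdual' : Dual y' E' := ⟨hb', hE'⟩
  have heτ : e τ ≠ 0 := fun h0 => hτne ((map_eq_zero_iff _ e.toRingHom.injective).1 h0)
  have hτt : Transcendental ℂ τ := hb'.1.transcendental 0
  have hτv : HasVal 𝓤 zm (e τ) 0 := by
    apply hasVal_zero ((hP τ).1 (hy'r 0))
    intro h1
    rw [← map_inv₀] at h1
    have h2 := (hP _).2 h1
    rw [P.reg_iff (inv_ne_zero hτne), P.ord_inv, hi0] at h2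
    omega
  -- the uniformizer is bounded on balls of a fixed size
  have hclaim : ∃ r > 0, ∀ᶠ m in (𝓤 : Filter ℕ), ∀ w ∈ ball (zm m) r,
      ∀ᶠ z in 𝓝[≠] w, ‖rep (e τ) z‖ ≤ 1 := by
    by_contra hno
    push Not at hno
    have hno' : ∀ r > 0, ∀ᶠ m in (𝓤 : Filter ℕ), ∃ w ∈ ball (zm m) r,
        ¬ ∀ᶠ z in 𝓝[≠] w, ‖rep (e τ) z‖ ≤ 1 := by
      intro r hr
      filter_upwards [hno r hr] with m hm
      obtain ⟨w, hw, hw2⟩ := hm
      exact ⟨w, hw, by simpa using hw2⟩
    have hex : ∀ ρ : ℝ, 0 < ρ → ρ < 1 → ∃ P' : Place ℂ K, P' ∈ S ∧ ∃ l : ℂ, ‖l‖ = ρ ∧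
        ¬ P'.Reg (τ - algebraMap ℂ K l)⁻¹ := by
      intro ρ hρ0 hρ1
      obtain ⟨s, hs0, hs⟩ := diag (l := (𝓤 : Filter ℕ))
        (P := fun m s => ∃ L, ‖L‖ = ρ ∧ Tendsto (rep (e τ)) (𝓝[≠] (zm m + s)) (𝓝 L))
        (fun L => hyper_ge' L) (by
        intro r hr
        filter_upwards [hno' r hr, hτv (ρ / 2) (by positivity)] with m h1 h2
        obtain ⟨w, hw, hw2⟩ := h1
        obtain ⟨z, hz, L, hL1, hL2⟩ := exists_modulus (rep_mero (e τ))
          (convex_ball (zm m) r).isPreconnected (mem_ball_self hr) (ρ := ρ)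
          ⟨ρ / 2, by positivity, by
            filter_upwards [h2] with z hz
            rw [sub_zero] at hz
            linarith⟩ hw (by
            intro h3
            apply hw2
            filter_upwards [h3] with z hz
            linarith)
        refine ⟨z - zm m, ?_, L, hL1, ?_⟩
        · rw [← dist_eq_norm]
          exact hz
        · rwa [add_sub_cancel])
      set c : ℕ → ℂ := fun m => zm m + s m with hc
      have hc0 : Tendsto (fun m => c m - zm m) 𝓤 (𝓝 0) := by
        have : (fun m => c m - zm m) = s := by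
          funext m
          rw [hc]
          ring
        rw [this]
        exact hs0
      obtain ⟨P', hP'S, hP'⟩ := hplace c hc0
      have hmem : e τ ∈ VM 𝓤 c := by
        refine ⟨ρ + 1, ?_⟩
        filter_upwards [hs] with m hm
        obtain ⟨L, hL1, hL2⟩ := hm
        filter_upwards [hL2.norm.eventually_lt_const (show ‖L‖ < ρ + 1 by linarith)] with z hz
        exact hz.le
      obtain ⟨l, hl⟩ := exists_val hmem
      have hln : ‖l‖ = ρ := by
        by_contra hne
        have hpos : 0 < |‖l‖ - ρ| / 2 := by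
          have := abs_pos.2 (sub_ne_zero.2 hne)
          positivity
        obtain ⟨m, hm1, hm2⟩ := (hs.and (hl _ hpos)).exists
        obtain ⟨L, hL1, hL2⟩ := hm1
        have h3 := (hL2.sub_const L)
        rw [sub_self] at h3
        have h4 := h3.norm.eventually_lt_const (show ‖(0 : ℂ)‖ < |‖l‖ - ρ| / 2 by
          rw [norm_zero]; exact hpos)
        obtain ⟨z, hz1, hz2⟩ := (hm2.and h4).exists
        have h5 : |‖l‖ - ‖L‖| ≤ ‖l - L‖ := abs_norm_sub_norm_le l L
        have h6 : ‖l - L‖ ≤ ‖rep (e τ) z - L‖ + ‖rep (e τ) z - l‖ := by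
          have := norm_sub_le (rep (e τ) z - L) (rep (e τ) z - l)
          rwa [sub_sub_sub_cancel_left] at this
        rw [hL1] at h5
        linarith
      refine ⟨P', hP'S, l, hln, fun h3 => ?_⟩
      have h4 := (hP' _).1 h3
      rw [map_inv₀, map_sub, e.commutes] at h4
      have h5 := hl.sub_const l
      rw [sub_self] at h5
      refine h5.inv_not ?_ h4
      intro h6
      have h7 : e (τ - algebraMap ℂ K l) = 0 := by rw [map_sub, e.commutes, h6]
      have h8 := (map_eq_zero_iff _ e.toRingHom.injective).1 h7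
      apply hτt
      rw [sub_eq_zero] at h8
      rw [h8]
      exact isAlgebraic_algebraMap _
    -- infinitely many places
    have hk : ∀ k : ℕ, (0 : ℝ) < 1 / ((k : ℝ) + 2) ∧ 1 / ((k : ℝ) + 2) < 1 := by
      intro k
      constructor
      · positivity
      · rw [div_lt_one (by positivity)]
        have : (0 : ℝ) ≤ k := Nat.cast_nonneg k
        linarith
    choose Pk hPkS lk hlk hPk using fun k : ℕ => hex _ (hk k).1 (hk k).2
    have hinj : Function.Injective Pk := by
      intro k k' hkk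
      by_contra hne
      have hlne : lk k ≠ lk k' := by
        intro h1
        apply hne
        have h2 := (hlk k).symm.trans ((congrArg norm h1).trans (hlk k'))
        rw [div_eq_div_iff (by positivity) (by positivity)] at h2
        have h3 : (k : ℝ) = k' := by linarith
        exact_mod_cast h3
      have h1 := hPk k
      have h2 := hPk k'
      rw [← hkk] at h2
      have hsub : ∀ l : ℂ, τ - algebraMap ℂ K l ≠ 0 := by
        intro l h8
        apply hτt
        rw [sub_eq_zero] at h8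
        rw [h8]
        exact isAlgebraic_algebraMap _
      have hpos : ∀ l : ℂ, ¬ (Pk k).Reg (τ - algebraMap ℂ K l)⁻¹ →
          0 < (Pk k).ord (τ - algebraMap ℂ K l) := by
        intro l hl
        rw [(Pk k).reg_iff (inv_ne_zero (hsub l)), (Pk k).ord_inv] at hl
        linarith
      have h3 := hpos _ h1
      have h4 := hpos _ h2
      have h5 : (τ - algebraMap ℂ K (lk k')) - (τ - algebraMap ℂ K (lk k)) =
          algebraMap ℂ K (lk k - lk k') := by
        rw [map_sub]; ring
      have h6 : algebraMap ℂ K (lk k - lk k') ≠ 0 := by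
        rw [Ne, map_eq_zero]
        exact sub_ne_zero.2 hlne
      have h7 := (Pk k).ord_sub (hsub (lk k')) (hsub (lk k)) (by rwa [h5])
      rw [h5, (Pk k).ord_const (sub_ne_zero.2 hlne)] at h7
      have h8 := lt_min h4 h3
      linarith
    exact (Set.infinite_range_of_injective hinj).mono (by
      rintro _ ⟨k, rfl⟩
      exact hPkS k) S.finite_toSet
  obtain ⟨r, hr, hball⟩ := hclaim
  -- the change of coordinates
  have hEE : ω ![E] = (E τ) ^ N * ω E' := by
    have h1 := hω (Matrix.of fun i j => (![E] : Fin 1 → Derivation ℂ K K) i (y' j)) E'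
    have h2 : (fun i => ∑ j, (Matrix.of fun i j => (![E] : Fin 1 → Derivation ℂ K K) i (y' j)) i j • E' j)
        = ![E] := by
      funext i
      exact (hdual'.expand ((![E] : Fin 1 → Derivation ℂ K K) i)).symm
    rw [h2, Matrix.det_fin_one] at h1
    exact h1
  have hder : IsDer e (fun k => MD (e k)) := h.isDer R
  have hchain : MD (e τ) = MD (e x) * e (E τ) := by
    have := hder.chain hx τ
    rw [this]
    simp
  have hT : e (ω ![E]) * MD (e x) ^ N = e (ω E') * MD (e τ) ^ N := by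
    rw [hEE, hchain, map_mul, map_pow, mul_pow]
    ring
  have hωE' : e (ω E') ∈ VM 𝓤 zm := (hP _).1 (hreg P (divisorial_one P) E' hpres)
  obtain ⟨C, hC⟩ := hωE'
  have hbig := hyper_ge' ((|C|) * (1 / (r / 4)) ^ N + 1)
  obtain ⟨m, hm1, hm2, hm3⟩ := (hball.and (hC.and hbig)).exists
  -- the derivative of the uniformizer
  have hnf : ∀ w ∈ ball (zm m) r, AnalyticAt ℂ (toMeromorphicNFOn (rep (e τ)) univ) w ∧
      ‖toMeromorphicNFOn (rep (e τ)) univ w‖ ≤ 1 := fun w hw =>
    nf_bounded (rep_mero _) (hm1 w hw)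
  have hder2 : ∀ w ∈ ball (zm m) (r / 2),
      ‖deriv (toMeromorphicNFOn (rep (e τ)) univ) w‖ ≤ 1 / (r / 4) := by
    intro w hw
    have hsub : closedBall w (r / 4) ⊆ ball (zm m) r := by
      intro v hv
      rw [mem_closedBall] at hv
      rw [mem_ball] at hw ⊢
      have := dist_triangle v w (zm m)
      linarith
    apply Complex.norm_deriv_le_of_forall_mem_sphere_norm_le (by positivity)
    · apply DifferentiableOn.diffContOnCl
      intro v hv
      rw [closure_ball _ (by positivity)] at hv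
      exact (hnf v (hsub hv)).1.differentiableAt.differentiableWithinAt
    · intro v hv
      exact (hnf v (hsub (sphere_subset_closedBall hv))).2
  have hMDτ : MD (e τ) = cl (deriv (toMeromorphicNFOn (rep (e τ)) univ)) nf_mero.deriv := by
    have h1 : e τ = cl (toMeromorphicNFOn (rep (e τ)) univ) nf_mero := by
      conv_lhs => rw [← cl_rep (e τ)]
      rw [cl_eq]
      exact nf_codis (rep_mero _)
    conv_lhs => rw [h1]
    rw [MD_cl]
  have hmp : ∀ N : ℕ, Meromorphic ((deriv (toMeromorphicNFOn (rep (e τ)) univ)) ^ N) :=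
    fun N z => (nf_mero.deriv z).pow N
  have hpw : ∀ N : ℕ, MD (e τ) ^ N = cl ((deriv (toMeromorphicNFOn (rep (e τ)) univ)) ^ N)
      (hmp N) := by
    intro N
    induction N with
    | zero =>
      rw [pow_zero]
      have h1 : (1 : MK) = algebraMap ℂ MK 1 := (map_one _).symm
      rw [h1, ← cl_const, cl_eq]
      exact Eventually.of_forall fun z => by simp
    | succ N ih =>
      rw [pow_succ, ih, hMDτ, cl_mul, cl_eq]
      exact Eventually.of_forall fun z => by simp [pow_succ]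
  have htt : ∀ᶠ z in codiscrete ℂ, t z = rep (e (ω E')) z *
      (deriv (toMeromorphicNFOn (rep (e τ)) univ) z) ^ N := by
    have h1 : cl t ht = cl (rep (e (ω E')) * (deriv (toMeromorphicNFOn (rep (e τ)) univ)) ^ N)
        ((rep_mero _).mul (hmp N)) := by
      rw [htT, hT, ← cl_mul (rep_mero _) (hmp N), cl_rep, hpw]
    exact cl_eq.1 h1
  have hfin : ∀ᶠ z in 𝓝[≠] (zm m), ‖t z‖ ≤ |C| * (1 / (r / 4)) ^ N := by
    have hb : ∀ᶠ z in 𝓝[≠] (zm m), z ∈ ball (zm m) (r / 2) :=
      (ball_mem_nhds _ (by positivity)) |> fun h => nhdsWithin_le_nhds h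
    filter_upwards [codis_ev htt (zm m), hm2, hb] with z h1 h2 h3
    rw [h1, norm_mul, norm_pow]
    apply mul_le_mul (h2.trans (le_abs_self C)) _ (by positivity) (abs_nonneg C)
    exact pow_le_pow_left₀ (norm_nonneg _) (hder2 z h3) N
  have hcont : Tendsto (fun z => ‖t z‖) (𝓝[≠] (zm m)) (𝓝 ‖t (zm m)‖) :=
    ((hzan m).continuousAt.norm.tendsto).mono_left nhdsWithin_le_nhds
  have h1 := le_of_tendsto hcont hfin
  have h2 := hzbig m
  linarith

/-- **Lemma C.** A curve which carries a Zariski dense entire curve of bounded derivative is not of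
general type. -/
theorem crv_not_general (hgen : coords ℂ y = ⊤) (h : Cv y φ) {B : ℝ}
    (hB : ∀ z, ‖fderiv ℝ φ z‖ ≤ B) : ¬ GeneralType ℂ K 1 := by
  classical
  rintro ⟨htr, N, hN, ω, hω, hreg, D, hD0, hDi⟩
  have hess : Algebra.EssFiniteType ℂ K := ess_of_coords hgen
  have hff : IsFF ℂ K := ⟨hess, by rw [htr, Nat.cast_one]⟩
  let R : ∀ h : K, Frac y h := fr hgen
  obtain ⟨x, hx⟩ := IsFF.exists_transcendental (k := ℂ) (K := K)
  have hxb : IsTranscendenceBasis ℂ (![x] : Fin 1 → K) := by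
    have h1 : AlgebraicIndependent ℂ (![x] : Fin 1 → K) := by
      rw [algebraicIndependent_unique_type_iff]
      exact hx
    apply h1.isTranscendenceBasis_of_trdeg_le_of_finite
    rw [htr, Cardinal.mk_fin]
  obtain ⟨E, hE⟩ := exists_der (![x] : Fin 1 → K) hxb (fun _ => 1)
  have hdual : Dual ![x] ![E] := by
    refine ⟨hxb, fun i j => ?_⟩
    rw [Subsingleton.elim i 0, Subsingleton.elim j 0, if_pos rfl]
    exact hE 0
  have hch : ∀ j, ω j D = (D 0 x) ^ N * ω j ![E] := by
    intro j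
    have h1 := hω j (Matrix.of fun i l => D i ((![x] : Fin 1 → K) l)) ![E]
    have h2 : (fun i => ∑ l, (Matrix.of fun i l => D i ((![x] : Fin 1 → K) l)) i l •
        (![E] : Fin 1 → Derivation ℂ K K) l) = D := by
      funext i
      exact (hdual.expand (D i)).symm
    rw [h2, Matrix.det_fin_one] at h1
    exact h1
  have hDx : (D 0 x) ^ N ≠ 0 := by
    intro h0
    apply hD0
    rw [hch, h0, zero_mul]
  have hω0 : ω 0 ![E] ≠ 0 := by
    intro h0
    apply hD0
    rw [hch, h0, mul_zero]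
  obtain ⟨c0, hc0⟩ := crv_const R hgen h hB (hω 0) (fun P hP => hreg P hP 0) hdual
  obtain ⟨c1, hc1⟩ := crv_const R hgen h hB (hω 1) (fun P hP => hreg P hP 1) hdual
  set e := h.emb R with he
  have hinj : Function.Injective e := e.toRingHom.injective
  have hMDx : MD (e x) ≠ 0 := by
    intro h0
    obtain ⟨c, hc⟩ := MD_eq_zero h0
    apply hx
    have h1 : x = algebraMap ℂ K c := hinj (by rw [hc, e.commutes])
    rw [h1]
    exact isAlgebraic_algebraMap _
  have he0 : e (ω 0 ![E]) ≠ 0 := fun h0 => hω0 ((map_eq_zero_iff _ hinj).1 h0)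
  have hMN : MD (e x) ^ N ≠ 0 := pow_ne_zero _ hMDx
  have hrat : ω 1 D / ω 0 D = algebraMap ℂ K (c1 / c0) := by
    apply hinj
    rw [e.commutes, map_div₀, map_div₀, ← hc0, ← hc1, hch 0, hch 1, map_mul, map_mul]
    have h3 : e ((D 0 x) ^ N) ≠ 0 := fun h0 => hDx ((map_eq_zero_iff _ hinj).1 h0)
    field_simp
  have h1 := hDi.transcendental 0
  apply h1
  change IsAlgebraic ℂ (ω 1 D / ω 0 D)
  rw [hrat]
  exact isAlgebraic_algebraMap _

end Pool.Agent.N155
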