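import Pool.Agent.N155.Ev
import Pool.Agent.N155.Ell
import Pool.Agent.Y190.OP.Bro

/-! Identity theorems for holomorphic curves, and limits along ultrafilters. -/

set_option autoImplicit false

open Filter Topology Metric Set MvPolynomial

namespace Pool.Agent.N155

open Pool.Agent.Y190.OP

variable {N : ℕ} {φ ψ : ℂ → Mat N}

/-- a local dichotomy is a global dichotomy -/
theorem dich {p : ℂ → Prop} (h : ∀ z, (∀ᶠ w in 𝓝 z, p w) ∨ (∀ᶠ w in 𝓝[≠] z, ¬ p w)) :
    (∀ z, p z) ∨ ∀ᶠ z in codiscrete ℂ, ¬ p z := by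
  set A : Set ℂ := {z | ∀ᶠ w in 𝓝 z, p w} with hA
  have hAo : IsOpen A := isOpen_setOfPred_eventually_nhds
  have hAc : IsOpen Aᶜ := by
    rw [isOpen_iff_mem_nhds]
    intro z hz
    have h1 : ∀ᶠ w in 𝓝[≠] z, ¬ p w := (h z).resolve_left hz
    have h2 : ∀ᶠ w in 𝓝[≠] z, w ∈ Aᶜ := by
      rw [← eventually_eventually_nhdsWithin] at h1
      filter_upwards [h1, self_mem_nhdsWithin] with w hw hwz hwA
      have h3 : ∀ᶠ v in 𝓝 w, ¬ p v := by
        rwa [IsOpen.nhdsWithin_eq isOpen_compl_singleton hwz] at hw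
      have h4 : ∀ᶠ v in 𝓝 w, p v := hwA
      obtain ⟨v, hv1, hv2⟩ := (h3.and h4).exists
      exact hv1 hv2
    have h3 : Aᶜ ∪ {z} ∈ 𝓝 z := by
      rw [eventually_nhdsWithin_iff] at h2
      filter_upwards [h2] with w hw
      by_cases hwz : w = z
      · right; exact hwz
      · left; exact hw hwz
    refine mem_of_superset h3 ?_
    rintro w (hw | hw)
    · exact hw
    · rw [mem_singleton_iff] at hw
      rw [hw]; exact hz
  have hcl : IsClopen A := ⟨⟨hAc⟩, hAo⟩
  rcases isClopen_iff.1 hcl with h1 | h1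
  · right
    apply codis_of_ev
    intro z
    refine (h z).resolve_left ?_
    intro hz
    have : z ∈ A := hz
    rw [h1] at this
    exact this
  · left
    intro z
    have : z ∈ A := by rw [h1]; exact mem_univ z
    exact this.self_of_nhds

lemma Phi_eq_iff {u v : Fin N → ℂ} (hu : u ≠ 0) (hv : v ≠ 0) :
    Phi u = Phi v ↔ ∀ j k, u j * v k = u k * v j := by
  constructor
  · intro h j k
    obtain ⟨c, hc, rfl⟩ := Phi_inj hu hv h
    simp only [Pi.smul_apply, smul_eq_mul]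
    ring
  · intro h
    obtain ⟨i, hi⟩ := Function.ne_iff.1 hu
    have hi' : u i ≠ 0 := hi
    have h1 : v = (v i / u i) • u := by
      funext j
      rw [Pi.smul_apply, smul_eq_mul, div_mul_eq_mul_div, eq_div_iff hi']
      linear_combination h i j
    have h2 : v i / u i ≠ 0 := by
      intro h0
      rw [h0, zero_smul] at h1
      exact hv h1
    rw [h1, Phi_smul h2]

/-- the identity theorem -/
theorem holP_dich (hφ : HolP univ φ) (hψ : HolP univ ψ) :
    (∀ z, φ z = ψ z) ∨ ∀ᶠ z in codiscrete ℂ, φ z ≠ ψ z := by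
  apply dich
  intro z
  obtain ⟨V, f, hV, hzV, hd, hf⟩ := hφ z (mem_univ z)
  obtain ⟨V', g, hV', hzV', hd', hg⟩ := hψ z (mem_univ z)
  have hiff : ∀ᶠ w in 𝓝 z, (φ w = ψ w ↔ ∀ j k, f w j * g w k = f w k * g w j) := by
    filter_upwards [hV.mem_nhds hzV, hV'.mem_nhds hzV'] with w hw hw'
    rw [(hf w hw).2, (hg w hw').2]
    exact Phi_eq_iff (hf w hw).1 (hg w hw').1
  have han : ∀ j k, AnalyticAt ℂ (fun w => f w j * g w k - f w k * g w j) z := by
    intro j k
    have h1 : ∀ j, AnalyticAt ℂ (fun w => f w j) z := fun j =>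
      ((differentiableOn_pi.1 hd) j).analyticAt (hV.mem_nhds hzV)
    have h2 : ∀ j, AnalyticAt ℂ (fun w => g w j) z := fun j =>
      ((differentiableOn_pi.1 hd') j).analyticAt (hV'.mem_nhds hzV')
    exact ((h1 j).mul (h2 k)).sub ((h1 k).mul (h2 j))
  by_cases hall : ∀ j k, ∀ᶠ w in 𝓝 z, f w j * g w k - f w k * g w j = 0
  · left
    have h1 : ∀ᶠ w in 𝓝 z, ∀ j k, f w j * g w k - f w k * g w j = 0 := by
      rw [eventually_all]
      intro j
      rw [eventually_all]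
      exact hall j
    filter_upwards [hiff, h1] with w hw1 hw2
    exact hw1.2 fun j k => sub_eq_zero.1 (hw2 j k)
  · right
    push Not at hall
    obtain ⟨j, k, hjk⟩ := hall
    have h1 := ((han j k).eventually_eq_zero_or_eventually_ne_zero).resolve_left (by
      intro h
      exact (Filter.not_eventually.2 (by simpa using hjk)) h)
    filter_upwards [h1, hiff.filter_mono nhdsWithin_le_nhds] with w hw1 hw2 hw3
    exact hw1 (sub_eq_zero.2 (hw2.1 hw3 j k))

theorem holP_ext (hφ : HolP univ φ) (hψ : HolP univ ψ) {z0 : ℂ}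
    (h : ∀ᶠ z in 𝓝 z0, φ z = ψ z) (z : ℂ) : φ z = ψ z := by
  refine (holP_dich hφ hψ).resolve_right (fun h1 => ?_) z
  have h2 := codis_ev h1 z0
  obtain ⟨w, hw1, hw2⟩ := (h2.and (h.filter_mono nhdsWithin_le_nhds)).exists
  exact hw1 hw2

/-- a form which does not vanish identically along the curve -/
theorem nz_dich (hφ : HolP univ φ) {G : MvPolynomial (Fin N) ℂ} {d : ℕ} (hG : G.IsHomogeneous d) :
    (∀ z, ¬ nz G (φ z)) ∨ ∀ᶠ z in codiscrete ℂ, nz G (φ z) := by
  have h0 : (∀ z, ¬ nz G (φ z)) ∨ ∀ᶠ z in codiscrete ℂ, ¬ ¬ nz G (φ z) := by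
    apply dich
    intro z
    obtain ⟨V, f, hV, hzV, hd, hf⟩ := hφ z (mem_univ z)
    have hiff : ∀ᶠ w in 𝓝 z, (nz G (φ w) ↔ eval (f w) G ≠ 0) := by
      filter_upwards [hV.mem_nhds hzV] with w hw
      rw [(hf w hw).2]
      exact nz_Phi hG (hf w hw).1
    rcases (an_eval hV hd G hzV).eventually_eq_zero_or_eventually_ne_zero with h1 | h1
    · left
      filter_upwards [hiff, h1] with w hw1 hw2 hw3
      exact hw1.1 hw3 hw2
    · right
      filter_upwards [hiff.filter_mono nhdsWithin_le_nhds, h1] with w hw1 hw2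
      exact not_not.2 (hw1.2 hw2)
  simpa only [not_not] using h0

theorem nz_codis (hφ : HolP univ φ) {G : MvPolynomial (Fin N) ℂ} {d : ℕ} (hG : G.IsHomogeneous d)
    {z1 : ℂ} (h1 : nz G (φ z1)) : ∀ᶠ z in codiscrete ℂ, nz G (φ z) :=
  (nz_dich hφ hG).resolve_left fun h => h z1 h1

/-! ### limits along ultrafilters -/

theorem exists_lim {𝓤 : Ultrafilter ℕ} {h : ℕ → ℂ} {C : ℝ} (hb : ∀ᶠ n in (𝓤 : Filter ℕ), ‖h n‖ ≤ C) :
    ∃ y : ℂ, Tendsto h 𝓤 (𝓝 y) := by
  have h1 : (𝓤.map h : Filter ℂ) ≤ 𝓟 (closedBall (0 : ℂ) C) := by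
    rw [Ultrafilter.coe_map, le_principal_iff, mem_map]
    filter_upwards [hb] with n hn
    exact mem_closedBall_zero_iff.2 hn
  obtain ⟨y, -, hy⟩ := (isCompact_closedBall (0 : ℂ) C).ultrafilter_le_nhds (𝓤.map h) h1
  exact ⟨y, hy⟩

/-- Montel's theorem -/
theorem ultra_montel {𝓤 : Ultrafilter ℕ} {U : Set ℂ} {h : ℕ → ℂ → ℂ}
    (hd : ∀ z ∈ U, ∃ V ∈ 𝓝 z, ∃ C : ℝ, ∀ᶠ n in (𝓤 : Filter ℕ),
      DifferentiableOn ℂ (h n) V ∧ ∀ w ∈ V, ‖h n w‖ ≤ C) :
    ∃ H : ℂ → ℂ, CConv (𝓤 : Filter ℕ) U h H := by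
  classical
  have hlim : ∀ z, ∃ y : ℂ, z ∈ U → Tendsto (fun n => h n z) 𝓤 (𝓝 y) := by
    intro z
    by_cases hz : z ∈ U
    · obtain ⟨V, hV, C, hC⟩ := hd z hz
      obtain ⟨y, hy⟩ := exists_lim (𝓤 := 𝓤) (h := fun n => h n z) (C := C) (by
        filter_upwards [hC] with n hn
        exact hn.2 z (mem_of_mem_nhds hV))
      exact ⟨y, fun _ => hy⟩
    · exact ⟨0, fun h => absurd h hz⟩
  choose H hH using hlim
  refine ⟨H, fun z hz => ?_⟩
  obtain ⟨V, hV, C, hC⟩ := hd z hz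
  obtain ⟨r, hr, hrV⟩ := Metric.mem_nhds_iff.1 hV
  have hC0 : 0 ≤ C := by
    obtain ⟨n, hn⟩ := hC.exists
    exact (norm_nonneg _).trans (hn.2 z (mem_of_mem_nhds hV))
  have hr2 : 0 < r / 2 := by positivity
  have hlip : ∀ᶠ n in (𝓤 : Filter ℕ), ∀ w ∈ ball z (r / 2), ‖h n w - h n z‖ ≤
      C / (r / 4) * ‖w - z‖ := by
    filter_upwards [hC] with n hn w hw
    have hdiff : ∀ x ∈ ball z (r / 2), DifferentiableAt ℂ (h n) x := by
      intro x hx
      have hxr : x ∈ ball z r := ball_subset_ball (by linarith) hx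
      exact (hn.1.mono hrV).differentiableAt (isOpen_ball.mem_nhds hxr)
    have hder : ∀ x ∈ ball z (r / 2), ‖deriv (h n) x‖ ≤ C / (r / 4) := by
      intro x hx
      have hsub : closedBall x (r / 4) ⊆ ball z r := by
        intro y hy
        rw [mem_ball] at hx ⊢
        rw [mem_closedBall] at hy
        have := dist_triangle y x z
        linarith
      apply Complex.norm_deriv_le_of_forall_mem_sphere_norm_le (by positivity)
      · have h1 : DifferentiableOn ℂ (h n) (closedBall x (r / 4)) := (hn.1.mono hrV).mono hsub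
        exact h1.diffContOnCl_ball (subset_refl _)
      · intro y hy
        exact hn.2 y (hrV (hsub (sphere_subset_closedBall hy)))
    exact (convex_ball z (r / 2)).norm_image_sub_le_of_norm_deriv_le hdiff hder
      (mem_ball_self hr2) hw
  rw [Metric.tendsto_nhds]
  intro ε hε
  have h2 := Metric.tendsto_nhds.1 (hH z hz) (ε / 2) (by positivity)
  rw [eventually_prod_iff]
  refine ⟨_, h2.and hlip, fun w => w ∈ ball z (r / 2) ∧ C / (r / 4) * ‖w - z‖ < ε / 2, ?_, ?_⟩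
  · have h4 : ∀ᶠ w in 𝓝 z, w ∈ ball z (r / 2) := isOpen_ball.mem_nhds (mem_ball_self hr2)
    have h5 : Tendsto (fun w => C / (r / 4) * ‖w - z‖) (𝓝 z) (𝓝 0) := by
      have : Continuous fun w : ℂ => C / (r / 4) * ‖w - z‖ := by fun_prop
      have h6 := this.tendsto z
      simpa using h6
    exact h4.and (h5.eventually_lt_const (by positivity))
  · rintro n ⟨hn1, hn2⟩ w ⟨hw1, hw2⟩
    calc dist (h n w) (H z) ≤ dist (h n w) (h n z) + dist (h n z) (H z) := dist_triangle _ _ _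
      _ < ε / 2 + ε / 2 := by
          refine add_lt_add ?_ hn1
          rw [dist_eq_norm]
          exact (hn2 w hw1).trans_lt hw2
      _ = ε := by ring

/-- limits of holomorphic functions -/
theorem CConv.an {l : Filter ℕ} [l.NeBot] {U : Set ℂ} {h : ℕ → ℂ → ℂ} {H : ℂ → ℂ}
    (hc : CConv l U h H) {z : ℂ} (hU : IsOpen U) (hz : z ∈ U)
    (hd : ∃ V ∈ 𝓝 z, ∀ᶠ n in l, DifferentiableOn ℂ (h n) V) :
    AnalyticAt ℂ H z ∧ Tendsto (fun n => deriv (h n) z) l (𝓝 (deriv H z)) := by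
  obtain ⟨V, hV, hd⟩ := hd
  obtain ⟨W, hWV, hW, hzW⟩ := _root_.mem_nhds_iff.1 (inter_mem hV (hU.mem_nhds hz))
  have h1 : CConv l W h H := fun w hw => hc w (hWV hw).2
  have h2 : ∀ᶠ n in l, DifferentiableOn ℂ (h n) W := by
    filter_upwards [hd] with n hn
    exact hn.mono fun w hw => (hWV hw).1
  have h3 := h1.locUnif hW
  refine ⟨(h3.differentiableOn h2 hW).analyticAt (hW.mem_nhds hzW), ?_⟩
  exact (h3.deriv h2 hW).tendsto_at hzW

/-- limits of curves -/
theorem exists_limit {T : Set (Mat N)} (hT : IsCompact T) (hTP : T ⊆ PM) {𝓤 : Ultrafilter ℕ}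
    {h : ℕ → ℂ → Mat N} {K : ℝ} (hH : ∀ n, HolP univ (h n)) (hm : ∀ n z, h n z ∈ T)
    (hb : ∀ n z, ‖fderiv ℝ (h n) z‖ ≤ K) :
    ∃ H : ℂ → Mat N, HolP univ H ∧ (∀ z, H z ∈ T) ∧ CConv (𝓤 : Filter ℕ) univ h H ∧
      ∀ z, Tendsto (fun n => fderiv ℝ (h n) z) 𝓤 (𝓝 (fderiv ℝ H z)) := by
  have hlim : ∀ z : ℂ, ∃ y ∈ T, Tendsto (fun n => h n z) 𝓤 (𝓝 y) := by
    intro z
    have h1 : (𝓤.map (fun n => h n z) : Filter (Mat N)) ≤ 𝓟 T := by
      rw [Ultrafilter.coe_map, le_principal_iff, mem_map]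
      exact Eventually.of_forall fun n => hm n z
    obtain ⟨y, hy, hy'⟩ := hT.ultrafilter_le_nhds (𝓤.map (fun n => h n z)) h1
    exact ⟨y, hy, hy'⟩
  choose H hHmem hHt using hlim
  have hK0 : 0 ≤ K := (norm_nonneg _).trans (hb 0 0)
  have hCC : CConv (𝓤 : Filter ℕ) univ h H := by
    intro z _
    rw [Metric.tendsto_nhds]
    intro ε hε
    have h2 := Metric.tendsto_nhds.1 (hHt z) (ε / 2) (by positivity)
    rw [eventually_prod_iff]
    refine ⟨_, h2, fun w => K * ‖w - z‖ < ε / 2, ?_, ?_⟩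
    · have h5 : Tendsto (fun w => K * ‖w - z‖) (𝓝 z) (𝓝 0) := by
        have : Continuous fun w : ℂ => K * ‖w - z‖ := by fun_prop
        have h6 := this.tendsto z
        simpa using h6
      exact h5.eventually_lt_const (by positivity)
    · intro n hn w hw
      have h6 : ‖h n w - h n z‖ ≤ K * ‖w - z‖ :=
        (convex_univ).norm_image_sub_le_of_norm_fderiv_le
          (fun x _ => (hH n).differentiableAt (mem_univ x))
          (fun x _ => hb n x) (mem_univ z) (mem_univ w)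
      calc dist (h n w) (H z) ≤ dist (h n w) (h n z) + dist (h n z) (H z) := dist_triangle _ _ _
        _ < ε / 2 + ε / 2 := by
            refine add_lt_add ?_ hn
            rw [dist_eq_norm]
            exact h6.trans_lt hw
        _ = ε := by ring
  have hl := holP_limit isOpen_univ hCC (Eventually.of_forall hH) (fun z _ => hTP (hHmem z))
  exact ⟨H, hl.1, hHmem, hCC, fun z => hl.2 z (mem_univ z)⟩

/-- uniform convergence on compact sets, for the distance of two sequences -/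
theorem CConv.compact {l : Filter ℕ} {φ ψ : ℕ → ℂ → Mat N} {H : ℂ → Mat N}
    (h1 : CConv l univ φ H) (h2 : CConv l univ ψ H) {A : Set ℂ} (hA : IsCompact A) {ε : ℝ}
    (hε : 0 < ε) : ∀ᶠ n in l, ∀ z ∈ A, ‖φ n z - ψ n z‖ < ε := by
  refine hA.induction_on (p := fun A => ∀ᶠ n in l, ∀ z ∈ A, ‖φ n z - ψ n z‖ < ε) ?_ ?_ ?_ ?_
  · exact Eventually.of_forall fun n z hz => absurd hz (notMem_empty z)
  · intro s t hst ht
    filter_upwards [ht] with n hn z hz
    exact hn z (hst hz)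
  · intro s t hs ht
    filter_upwards [hs, ht] with n hn1 hn2 z hz
    rcases hz with hz | hz
    · exact hn1 z hz
    · exact hn2 z hz
  · intro z _
    have h3 : Tendsto (fun p : ℕ × ℂ => ‖φ p.1 p.2 - ψ p.1 p.2‖) (l ×ˢ 𝓝 z) (𝓝 0) := by
      have := ((h1 z (mem_univ z)).sub (h2 z (mem_univ z))).norm
      simpa using this
    have h4 := h3.eventually_lt_const hε
    rw [eventually_prod_iff] at h4
    obtain ⟨pa, hpa, pb, hpb, hab⟩ := h4
    refine ⟨{w | pb w}, mem_nhdsWithin_of_mem_nhds hpb, ?_⟩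
    filter_upwards [hpa] with n hn w hw
    exact hab hn hw

end Pool.Agent.N155
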