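import Pool.Agent.Y190.OP.Lim
import Pool.Agent.W602.GT.SpDefs

/-! Values of quotients of forms at the points of projective space, given by projection matrices. -/

set_option autoImplicit false

open Filter Topology Metric Set MvPolynomial

namespace Pool.Agent.N155

open Pool.Agent.Y190.OP

variable {N : ℕ}

/-- a column of a matrix -/
def colv (M : Mat N) (i : Fin N) : Fin N → ℂ := fun j => M j i

/-- the hermitian pairing of the values of two forms -/
noncomputable def nn (G1 G0 : MvPolynomial (Fin N) ℂ) (M : Mat N) : ℂ :=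
  ∑ i, eval (colv M i) G1 * (starRingEnd ℂ) (eval (colv M i) G0)

/-- the value of the quotient of two forms of the same degree -/
noncomputable def qv (G1 G0 : MvPolynomial (Fin N) ℂ) (M : Mat N) : ℂ := nn G1 G0 M / nn G0 G0 M

/-- the form does not vanish at the point -/
def nz (G : MvPolynomial (Fin N) ℂ) (M : Mat N) : Prop := nn G G M ≠ 0

lemma eval_smul {G : MvPolynomial (Fin N) ℂ} {d : ℕ} (hG : G.IsHomogeneous d) (c : ℂ)
    (v : Fin N → ℂ) : eval (c • v) G = c ^ d * eval v G := by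
  rw [eval_eq', eval_eq', Finset.mul_sum]
  refine Finset.sum_congr rfl fun m hm => ?_
  have h1 : ∑ i, m i = d := by
    have := hG (mem_support_iff.1 hm)
    rw [← this, Finsupp.weight_apply]
    simp [Finsupp.sum_fintype]
  simp only [Pi.smul_apply, smul_eq_mul, mul_pow]
  rw [Finset.prod_mul_distrib, Finset.prod_pow_eq_pow_sum, h1]
  ring

lemma colv_Phi (u : Fin N → ℂ) (i : Fin N) :
    colv (Phi u) i = ((starRingEnd ℂ) (u i) / nsq u) • u := by
  funext j
  unfold colv Phi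
  rw [Pi.smul_apply, smul_eq_mul]
  ring

/-- the positive factor -/
noncomputable def sf (u : Fin N → ℂ) (d : ℕ) : ℂ :=
  ∑ i, (((starRingEnd ℂ) (u i) / nsq u) ^ d * (starRingEnd ℂ) (((starRingEnd ℂ) (u i) / nsq u) ^ d))

lemma sf_ne {u : Fin N → ℂ} (hu : u ≠ 0) (d : ℕ) : sf u d ≠ 0 := by
  obtain ⟨i, hi⟩ := Function.ne_iff.1 hu
  have hi' : u i ≠ 0 := hi
  have h1 : sf u d = ((∑ i, ‖((starRingEnd ℂ) (u i) / nsq u) ^ d‖ ^ 2 : ℝ) : ℂ) := by
    unfold sf
    push_cast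
    refine Finset.sum_congr rfl fun l _ => ?_
    rw [Complex.mul_conj, Complex.normSq_eq_norm_sq]
    push_cast
    rfl
  rw [h1]
  have h2 : 0 < ∑ i, ‖((starRingEnd ℂ) (u i) / nsq u) ^ d‖ ^ 2 := by
    apply Finset.sum_pos'
    · intro i _
      positivity
    · refine ⟨i, Finset.mem_univ i, ?_⟩
      have h3 : ((starRingEnd ℂ) (u i) / nsq u) ^ d ≠ 0 := by
        apply pow_ne_zero
        exact div_ne_zero (by rwa [Ne, map_eq_zero]) (nsq_ne hu)
      positivity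
  exact_mod_cast h2.ne'

lemma nn_Phi {G1 G0 : MvPolynomial (Fin N) ℂ} {d : ℕ} (h1 : G1.IsHomogeneous d)
    (h0 : G0.IsHomogeneous d) (u : Fin N → ℂ) :
    nn G1 G0 (Phi u) = sf u d * (eval u G1 * (starRingEnd ℂ) (eval u G0)) := by
  unfold nn sf
  rw [Finset.sum_mul]
  refine Finset.sum_congr rfl fun i _ => ?_
  rw [colv_Phi, eval_smul h1, eval_smul h0, map_mul]
  ring

lemma nz_Phi {G : MvPolynomial (Fin N) ℂ} {d : ℕ} (hG : G.IsHomogeneous d) {u : Fin N → ℂ}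
    (hu : u ≠ 0) : nz G (Phi u) ↔ eval u G ≠ 0 := by
  unfold nz
  rw [nn_Phi hG hG]
  constructor
  · intro h h0
    apply h
    rw [h0, zero_mul, mul_zero]
  · intro h
    exact mul_ne_zero (sf_ne hu d) (mul_ne_zero h (by rwa [Ne, map_eq_zero]))

lemma qv_Phi {G1 G0 : MvPolynomial (Fin N) ℂ} {d : ℕ} (h1 : G1.IsHomogeneous d)
    (h0 : G0.IsHomogeneous d) {u : Fin N → ℂ} (hu : u ≠ 0) :
    qv G1 G0 (Phi u) = eval u G1 / eval u G0 := by
  unfold qv
  rw [nn_Phi h1 h0, nn_Phi h0 h0]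
  have h2 := sf_ne hu d
  by_cases h3 : eval u G0 = 0
  · rw [h3]; simp
  · have h4 : (starRingEnd ℂ) (eval u G0) ≠ 0 := by rwa [Ne, map_eq_zero]
    field_simp

lemma contDiff_nn (G1 G0 : MvPolynomial (Fin N) ℂ) : ContDiff ℝ 1 (nn G1 G0) := by
  have h0 : ∀ (G : MvPolynomial (Fin N) ℂ) (i : Fin N),
      ContDiff ℝ 1 fun M : Mat N => eval (colv M i) G := by
    intro G i
    have h1 : ContDiff ℂ 1 fun v : Fin N → ℂ => eval v G := by
      simp only [eval_eq']
      fun_prop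
    have h3 : ContDiff ℝ 1 fun M : Mat N => colv M i := by
      unfold colv
      fun_prop
    exact (h1.restrict_scalars ℝ).comp h3
  unfold nn
  apply ContDiff.sum
  intro i _
  exact (h0 G1 i).mul (Complex.conjCLE.toContinuousLinearMap.contDiff.comp (h0 G0 i))

lemma continuous_nn (G1 G0 : MvPolynomial (Fin N) ℂ) : Continuous (nn G1 G0) :=
  (contDiff_nn G1 G0).continuous

lemma isOpen_nz (G : MvPolynomial (Fin N) ℂ) : IsOpen {M : Mat N | nz G M} :=
  isOpen_ne_fun (continuous_nn G G) continuous_const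

lemma contDiffAt_qv {G1 G0 : MvPolynomial (Fin N) ℂ} {M : Mat N} (h : nz G0 M) :
    ContDiffAt ℝ 1 (qv G1 G0) M := by
  unfold qv
  simp only [div_eq_mul_inv]
  exact (contDiff_nn G1 G0).contDiffAt.mul ((contDiff_nn G0 G0).contDiffAt.inv h)

lemma continuousAt_qv {G1 G0 : MvPolynomial (Fin N) ℂ} {M : Mat N} (h : nz G0 M) :
    ContinuousAt (qv G1 G0) M := (contDiffAt_qv h).continuousAt

lemma lip_qv {G1 G0 : MvPolynomial (Fin N) ℂ} {M : Mat N} (h : nz G0 M) :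
    ∃ (C : ℝ) (O : Set (Mat N)), 0 ≤ C ∧ O ∈ 𝓝 M ∧
      ∀ P ∈ O, ∀ Q ∈ O, ‖qv G1 G0 P - qv G1 G0 Q‖ ≤ C * ‖P - Q‖ := by
  obtain ⟨K, O, hO, hL⟩ := (contDiffAt_qv (G1 := G1) h).exists_lipschitzOnWith
  refine ⟨K, O, K.2, hO, fun P hP Q hQ => ?_⟩
  have := hL.dist_le_mul P hP Q hQ
  rwa [dist_eq_norm, dist_eq_norm] at this

/-! ### holomorphic curves -/

variable {U : Set ℂ} {φ ψ : ℂ → Mat N}

lemma an_eval {V : Set ℂ} {f : ℂ → Fin N → ℂ} (hV : IsOpen V) (hd : DifferentiableOn ℂ f V)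
    (G : MvPolynomial (Fin N) ℂ) {z : ℂ} (hz : z ∈ V) : AnalyticAt ℂ (fun w => eval (f w) G) z := by
  have h1 : ∀ j, AnalyticAt ℂ (fun w => f w j) z := fun j =>
    ((differentiableOn_pi.1 hd) j).analyticAt (hV.mem_nhds hz)
  simp only [eval_eq']
  apply Finset.analyticAt_fun_sum
  intro m _
  apply analyticAt_const.mul
  apply Finset.analyticAt_fun_prod
  intro j _
  exact (h1 j).pow _

theorem an_qv (h : HolP U φ) {z : ℂ} (hz : z ∈ U) {G1 G0 : MvPolynomial (Fin N) ℂ} {d : ℕ}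
    (h1 : G1.IsHomogeneous d) (h0 : G0.IsHomogeneous d) (hn : nz G0 (φ z)) :
    AnalyticAt ℂ (fun w => qv G1 G0 (φ w)) z := by
  obtain ⟨V, f, hV, hzV, hd, hf⟩ := h z hz
  have h2 : (fun w => qv G1 G0 (φ w)) =ᶠ[𝓝 z] fun w => eval (f w) G1 / eval (f w) G0 := by
    filter_upwards [hV.mem_nhds hzV] with w hw
    rw [(hf w hw).2, qv_Phi h1 h0 (hf w hw).1]
  have h3 : eval (f z) G0 ≠ 0 := by
    rw [(hf z hzV).2] at hn
    exact (nz_Phi h0 (hf z hzV).1).1 hn
  exact ((an_eval hV hd G1 hzV).div (an_eval hV hd G0 hzV) h3).congr h2.symm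

theorem mero_qv (h : HolP univ φ) {G1 G0 : MvPolynomial (Fin N) ℂ} {d : ℕ}
    (h1 : G1.IsHomogeneous d) (h0 : G0.IsHomogeneous d) :
    Meromorphic (fun w => qv G1 G0 (φ w)) := by
  intro z
  obtain ⟨V, f, hV, hzV, hd, hf⟩ := h z (mem_univ z)
  have h2 : (fun w => qv G1 G0 (φ w)) =ᶠ[𝓝 z] fun w => eval (f w) G1 / eval (f w) G0 := by
    filter_upwards [hV.mem_nhds hzV] with w hw
    rw [(hf w hw).2, qv_Phi h1 h0 (hf w hw).1]
  exact ((an_eval hV hd G1 hzV).meromorphicAt.div (an_eval hV hd G0 hzV).meromorphicAt).congr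
    (h2.symm.filter_mono nhdsWithin_le_nhds)

end Pool.Agent.N155
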