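import Pool.Agent.N155.Cur
import Pool.Agent.W602.GT.MordDefs

/-! Values of rational functions, and the pull-back to the field of meromorphic functions. -/

set_option autoImplicit false

open Filter Topology Metric Set MvPolynomial

namespace Pool.Agent.N155

open Pool.Agent.Y190.OP Pool.Agent.W602.GT

variable {n : ℕ} {K : Type} [Field K] [Algebra ℂ K]

/-- a presentation of the rational function `h` as a quotient of forms -/
structure Frac (y : Fin (n + 1) → K) (h : K) where
  d : ℕ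
  G1 : MvPolynomial (Fin (n + 1)) ℂ
  G0 : MvPolynomial (Fin (n + 1)) ℂ
  h1 : G1.IsHomogeneous d
  h0 : G0.IsHomogeneous d
  hn : val y G0 ≠ 0
  eq : h = val y G1 / val y G0

variable {y : Fin (n + 1) → K}

/-- the points of the variety with generic point `y`, as matrices -/
def TX (y : Fin (n + 1) → K) : Set (Mat (n + 1)) := {M | ∃ u ∈ VarPts ℂ y, M = Phi u}

theorem val_eval {u : Fin (n + 1) → ℂ} (G : MvPolynomial (Fin (n + 1)) ℂ) :
    val u G = eval u G := by
  unfold val
  rw [aeval_eq_eval]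

theorem val_add' (G H : MvPolynomial (Fin (n + 1)) ℂ) : val y (G + H) = val y G + val y H :=
  map_add _ _ _

theorem val_sub' (G H : MvPolynomial (Fin (n + 1)) ℂ) : val y (G - H) = val y G - val y H :=
  map_sub _ _ _

theorem val_mul' (G H : MvPolynomial (Fin (n + 1)) ℂ) : val y (G * H) = val y G * val y H :=
  map_mul _ _ _

theorem val_C' (c : ℂ) : val y (C c : MvPolynomial (Fin (n + 1)) ℂ) = algebraMap ℂ K c :=
  aeval_C _ _

theorem val_one' : val y (1 : MvPolynomial (Fin (n + 1)) ℂ) = 1 := map_one _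

theorem val_X' (i : Fin (n + 1)) : val y (X i : MvPolynomial (Fin (n + 1)) ℂ) = y i :=
  aeval_X _ _

theorem TX_PM : TX y ⊆ PM := by
  rintro _ ⟨u, hu, rfl⟩
  exact ⟨u, hu.1, rfl⟩

variable (R : ∀ h : K, Frac y h)

/-- the value of the rational function `h` -/
noncomputable def ev (h : K) (M : Mat (n + 1)) : ℂ := qv (R h).G1 (R h).G0 M

/-- the denominator of `h` does not vanish -/
def good (h : K) (M : Mat (n + 1)) : Prop := nz (R h).G0 M

theorem isOpen_good (h : K) : IsOpen {M : Mat (n + 1) | good R h M} := isOpen_nz _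

theorem good_Phi {h : K} {u : Fin (n + 1) → ℂ} (hu : u ≠ 0) :
    good R h (Phi u) ↔ eval u (R h).G0 ≠ 0 := nz_Phi (R h).h0 hu

theorem ev_Phi {h : K} {u : Fin (n + 1) → ℂ} (hu : u ≠ 0) :
    ev R h (Phi u) = eval u (R h).G1 / eval u (R h).G0 := qv_Phi (R h).h1 (R h).h0 hu

/-- the value does not depend on the presentation -/
theorem ev_eq {h : K} {u : Fin (n + 1) → ℂ} (hu : u ∈ VarPts ℂ y) {e : ℕ}
    {H1 H0 : MvPolynomial (Fin (n + 1)) ℂ} (h1 : H1.IsHomogeneous e) (h0 : H0.IsHomogeneous e)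
    (hn : val y H0 ≠ 0) (he : h = val y H1 / val y H0) (hu0 : eval u H0 ≠ 0)
    (hg : good R h (Phi u)) : ev R h (Phi u) = eval u H1 / eval u H0 := by
  rw [ev_Phi R hu.1]
  rw [good_Phi R hu.1] at hg
  rw [div_eq_div_iff hg hu0]
  have h2 : val y ((R h).G1 * H0 - H1 * (R h).G0) = 0 := by
    rw [val_sub', val_mul', val_mul', sub_eq_zero]
    have h3 := he.symm.trans (R h).eq
    rw [div_eq_div_iff hn (R h).hn] at h3
    rw [← h3]
  have h3 : IsForm ((R h).G1 * H0 - H1 * (R h).G0) :=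
    ⟨(R h).d + e, ((R h).h1.mul h0).sub (by
      have := h1.mul (R h).h0
      rwa [add_comm e] at this)⟩
  have h4 := hu.2 _ h3 h2
  rw [val_eval, map_sub, map_mul, map_mul, sub_eq_zero] at h4
  exact h4

theorem ev_add {h k : K} {M : Mat (n + 1)} (hM : M ∈ TX y) (g1 : good R h M) (g2 : good R k M)
    (g3 : good R (h + k) M) : ev R (h + k) M = ev R h M + ev R k M := by
  obtain ⟨u, hu, rfl⟩ := hM
  have e1 := (good_Phi R hu.1).1 g1
  have e2 := (good_Phi R hu.1).1 g2
  rw [ev_eq R hu (H1 := (R h).G1 * (R k).G0 + (R h).G0 * (R k).G1) (H0 := (R h).G0 * (R k).G0)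
    (((R h).h1.mul (R k).h0).add ((R h).h0.mul (R k).h1)) ((R h).h0.mul (R k).h0)
    (by rw [val_mul']; exact mul_ne_zero (R h).hn (R k).hn)
    (by
      rw [val_add', val_mul', val_mul', val_mul', ← div_add_div _ _ (R h).hn (R k).hn, ← (R h).eq,
        ← (R k).eq])
    (by rw [map_mul]; exact mul_ne_zero e1 e2) g3, ev_Phi R hu.1, ev_Phi R hu.1,
    div_add_div _ _ e1 e2, map_add, map_mul, map_mul, map_mul]

theorem ev_mul {h k : K} {M : Mat (n + 1)} (hM : M ∈ TX y) (g1 : good R h M) (g2 : good R k M)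
    (g3 : good R (h * k) M) : ev R (h * k) M = ev R h M * ev R k M := by
  obtain ⟨u, hu, rfl⟩ := hM
  have e1 := (good_Phi R hu.1).1 g1
  have e2 := (good_Phi R hu.1).1 g2
  rw [ev_eq R hu (H1 := (R h).G1 * (R k).G1) (H0 := (R h).G0 * (R k).G0)
    ((R h).h1.mul (R k).h1) ((R h).h0.mul (R k).h0)
    (by rw [val_mul']; exact mul_ne_zero (R h).hn (R k).hn)
    (by rw [val_mul', val_mul', ← div_mul_div_comm, ← (R h).eq, ← (R k).eq])
    (by rw [map_mul]; exact mul_ne_zero e1 e2) g3, ev_Phi R hu.1, ev_Phi R hu.1,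
    div_mul_div_comm, map_mul, map_mul]

theorem ev_const (c : ℂ) {M : Mat (n + 1)} (hM : M ∈ TX y) (g : good R (algebraMap ℂ K c) M) :
    ev R (algebraMap ℂ K c) M = c := by
  obtain ⟨u, hu, rfl⟩ := hM
  rw [ev_eq R hu (H1 := C c) (H0 := 1) (isHomogeneous_C _ c) (isHomogeneous_one _ _)
    (by rw [val_one']; exact one_ne_zero) (by rw [val_C', val_one', div_one])
    (by rw [map_one]; exact one_ne_zero) g, eval_C, map_one, div_one]

theorem ev_ratio {i : Fin (n + 1)} (j : Fin (n + 1)) (hi : y i ≠ 0) {M : Mat (n + 1)}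
    (hM : M ∈ TX y) (g : good R (y j / y i) M) (hMi : nz (X i) M) :
    ev R (y j / y i) M = qv (X j) (X i) M := by
  obtain ⟨u, hu, rfl⟩ := hM
  have h1 : eval u (X i : MvPolynomial (Fin (n + 1)) ℂ) ≠ 0 :=
    (nz_Phi (isHomogeneous_X _ _) hu.1).1 hMi
  rw [ev_eq R hu (H1 := X j) (H0 := X i) (isHomogeneous_X _ _) (isHomogeneous_X _ _)
    (by rw [val_X']; exact hi) (by rw [val_X', val_X']) h1 g,
    qv_Phi (isHomogeneous_X _ _) (isHomogeneous_X _ _) hu.1]

/-- a curve in the variety which is Zariski dense -/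
structure Cv (y : Fin (n + 1) → K) (φ : ℂ → Mat (n + 1)) : Prop where
  hol : HolP univ φ
  mem : ∀ z, φ z ∈ TX y
  dense : ∀ G, IsForm G → val y G ≠ 0 → ∃ z, nz G (φ z)

variable {φ : ℂ → Mat (n + 1)}

theorem Cv.nz (h : Cv y φ) {G : MvPolynomial (Fin (n + 1)) ℂ} (hG : IsForm G) (hv : val y G ≠ 0) :
    ∀ᶠ z in codiscrete ℂ, N155.nz G (φ z) := by
  obtain ⟨z, hz⟩ := h.dense G hG hv
  obtain ⟨d, hd⟩ := hG
  exact nz_codis h.hol hd hz

theorem Cv.good (h : Cv y φ) (k : K) : ∀ᶠ z in codiscrete ℂ, N155.good R k (φ z) :=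
  h.nz ⟨_, (R k).h0⟩ (R k).hn

theorem Cv.mero (h : Cv y φ) (k : K) : Meromorphic (fun z => ev R k (φ z)) :=
  mero_qv h.hol (R k).h1 (R k).h0

theorem Cv.an (h : Cv y φ) {k : K} {z : ℂ} (hz : N155.good R k (φ z)) :
    AnalyticAt ℂ (fun z => ev R k (φ z)) z :=
  an_qv h.hol (mem_univ z) (R k).h1 (R k).h0 hz

/-- the pull-back of rational functions -/
noncomputable def Cv.emb (h : Cv y φ) : K →ₐ[ℂ] MK :=
  AlgHom.mk'
    { toFun := fun k => cl (fun z => ev R k (φ z)) (h.mero R k)
      map_one' := by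
        have h1 : (1 : MK) = algebraMap ℂ MK 1 := (map_one _).symm
        rw [h1, ← cl_const, cl_eq]
        have h2 : (1 : K) = algebraMap ℂ K 1 := (map_one _).symm
        filter_upwards [h.good R 1] with z hz
        have := ev_const R 1 (h.mem z) (by rw [← h2]; exact hz)
        rwa [← h2] at this
      map_mul' := fun a b => by
        rw [cl_mul, cl_eq]
        filter_upwards [h.good R a, h.good R b, h.good R (a * b)] with z h1 h2 h3
        exact ev_mul R (h.mem z) h1 h2 h3
      map_zero' := by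
        have h1 : (0 : MK) = algebraMap ℂ MK 0 := (map_zero _).symm
        rw [h1, ← cl_const, cl_eq]
        have h2 : (0 : K) = algebraMap ℂ K 0 := (map_zero _).symm
        filter_upwards [h.good R 0] with z hz
        have := ev_const R 0 (h.mem z) (by rw [← h2]; exact hz)
        rwa [← h2] at this
      map_add' := fun a b => by
        rw [cl_add, cl_eq]
        filter_upwards [h.good R a, h.good R b, h.good R (a + b)] with z h1 h2 h3
        exact ev_add R (h.mem z) h1 h2 h3 }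
    (fun c x => by
      change cl (fun z => ev R (c • x) (φ z)) _ = c • cl (fun z => ev R x (φ z)) _
      rw [Algebra.smul_def c (cl (fun z => ev R x (φ z)) _), ← cl_const, cl_mul, cl_eq]
      rw [Algebra.smul_def]
      filter_upwards [h.good R (algebraMap ℂ K c), h.good R x, h.good R (algebraMap ℂ K c * x)]
        with z h1 h2 h3
      rw [ev_mul R (h.mem z) h1 h2 h3, ev_const R c (h.mem z) h1]
      rfl)

theorem Cv.emb_apply (h : Cv y φ) (k : K) :
    h.emb R k = cl (fun z => ev R k (φ z)) (h.mero R k) := rfl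

end Pool.Agent.N155
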