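import Pool.Agent.N155.Ufp
import Pool.Agent.N155.Der
import Pool.Agent.Helper386.D5V.Helper399_FF4a

/-! Rational functions which are regular at the prime divisors are formal power series. -/

set_option autoImplicit false

open FF PowerSeries

namespace Pool.Agent.N155

open Pool.Agent.W602.GT Pool.Agent.TH143.GT

/-- power series in two variables -/
abbrev PS2 : Type := PowerSeries (PowerSeries ℂ)

theorem algC (c : ℂ) : algebraMap ℂ PS2 c = PowerSeries.C (PowerSeries.C c) := by
  rw [PowerSeries.algebraMap_apply, PowerSeries.algebraMap_apply]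
  rfl

section dfun

variable {R : Type} [CommRing R]

/-- the derivative of a power series -/
noncomputable def dfun (f : PowerSeries R) : PowerSeries R := PowerSeries.derivative R f

theorem dfun_add (f g : PowerSeries R) : dfun (f + g) = dfun f + dfun g := map_add _ f g

theorem dfun_mul (f g : PowerSeries R) : dfun (f * g) = f * dfun g + g * dfun f :=
  Derivation.leibniz _ f g

theorem dfun_C (r : R) : dfun (PowerSeries.C r) = 0 := PowerSeries.derivative_C

theorem dfun_X : dfun (PowerSeries.X : PowerSeries R) = 1 := PowerSeries.derivative_X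

theorem dfun_zero : dfun (0 : PowerSeries R) = 0 := map_zero _

theorem dfun_one : dfun (1 : PowerSeries R) = 0 := by
  rw [← map_one (PowerSeries.C (R := R)), dfun_C]

theorem dfun_sum {ι : Type} (s : Finset ι) (f : ι → PowerSeries R) :
    dfun (∑ i ∈ s, f i) = ∑ i ∈ s, dfun (f i) := map_sum _ _ _

end dfun

/-- the derivative in the inner variable -/
noncomputable def dS : Derivation ℂ PS2 PS2 :=
  Derivation.mk'
    { toFun := fun f => PowerSeries.mk fun n => dfun (PowerSeries.coeff n f)
      map_add' := fun f g => by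
        ext n : 1
        simp only [coeff_mk, map_add, dfun_add]
      map_smul' := fun c f => by
        ext n : 1
        simp only [coeff_mk, RingHom.id_apply]
        rw [Algebra.smul_def, Algebra.smul_def, algC, PowerSeries.coeff_C_mul,
          PowerSeries.coeff_C_mul, coeff_mk, dfun_mul, dfun_C, mul_zero, add_zero] }
    (fun f g => by
      ext n : 1
      simp only [LinearMap.coe_mk, AddHom.coe_mk, coeff_mk, smul_eq_mul, map_add]
      rw [PowerSeries.coeff_mul, PowerSeries.coeff_mul, PowerSeries.coeff_mul, dfun_sum]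
      simp only [dfun_mul, coeff_mk, Finset.sum_add_distrib]
      congr 1
      exact (Finset.Nat.sum_antidiagonal_swap (f := fun x : ℕ × ℕ =>
        (coeff x.1) g * dfun ((coeff x.2) f))))

theorem coeff_dS (f : PS2) (n : ℕ) :
    PowerSeries.coeff n (dS f) = dfun (PowerSeries.coeff n f) := by
  change PowerSeries.coeff n (PowerSeries.mk fun n => dfun (PowerSeries.coeff n f)) = _
  rw [coeff_mk]

/-- the derivative in the outer variable -/
noncomputable def dT : Derivation ℂ PS2 PS2 :=
  Derivation.mk'
    { toFun := fun f => dfun f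
      map_add' := fun f g => dfun_add f g
      map_smul' := fun c f => by
        simp only [RingHom.id_apply]
        rw [Algebra.smul_def, Algebra.smul_def, algC, dfun_mul, dfun_C, mul_zero, add_zero] }
    (fun f g => by
      simp only [LinearMap.coe_mk, AddHom.coe_mk, smul_eq_mul]
      exact dfun_mul f g)

theorem dT_apply (f : PS2) : dT f = dfun f := rfl

/-- linear series -/
noncomputable def lin (a b c : ℂ) : PS2 :=
  PowerSeries.C (PowerSeries.C a + PowerSeries.C b * PowerSeries.X) +
    PowerSeries.C (PowerSeries.C c) * PowerSeries.X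

theorem dT_lin (a b c : ℂ) : dT (lin a b c) = algebraMap ℂ PS2 c := by
  unfold lin
  rw [dT_apply, algC, dfun_add, dfun_C, zero_add, dfun_mul, dfun_C, dfun_X, mul_zero, add_zero,
    mul_one]

theorem dS_lin (a b c : ℂ) : dS (lin a b c) = algebraMap ℂ PS2 b := by
  have h1 : ∀ r : PowerSeries ℂ, dS (PowerSeries.C r) = PowerSeries.C (dfun r) := by
    intro r
    ext n : 1
    rw [coeff_dS, PowerSeries.coeff_C, PowerSeries.coeff_C]
    split_ifs
    · rfl
    · rw [dfun_zero]
  have h2 : dS (PowerSeries.X : PS2) = 0 := by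
    ext n : 1
    rw [coeff_dS, PowerSeries.coeff_X]
    split_ifs
    · rw [dfun_one, map_zero]
    · rw [dfun_zero, map_zero]
  unfold lin
  rw [map_add, h1, Derivation.leibniz, h1, h2, dfun_C, smul_zero, map_zero,
    smul_zero, add_zero, add_zero, dfun_add, dfun_C, zero_add, dfun_mul,
    dfun_C, dfun_X, mul_zero, add_zero, mul_one, algC]

/-- derivations extend to the field of fractions -/
theorem exists_der_frac {A M : Type} [CommRing A] [IsDomain A] [Algebra ℂ A] [Field M] [Algebra A M]
    [IsFractionRing A M] [Algebra ℂ M] [IsScalarTower ℂ A M] (D : Derivation ℂ A A) :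
    ∃ D' : Derivation ℂ M M, ∀ a, D' (algebraMap A M a) = algebraMap A M (D a) := by
  have h1 : Algebra.FormallyEtale A M :=
    Algebra.FormallyEtale.of_isLocalization (nonZeroDivisors A)
  let e := KaehlerDifferential.tensorKaehlerEquivOfFormallyEtale ℂ A M
  let l : Ω[A⁄ℂ] →ₗ[A] M := (Algebra.linearMap A M).comp D.liftKaehlerDifferential
  let Λ : Ω[M⁄ℂ] →ₗ[M] M := (LinearMap.liftBaseChange M l).comp e.symm.toLinearMap
  refine ⟨Λ.compDer (KaehlerDifferential.D ℂ M), fun z => ?_⟩
  change LinearMap.liftBaseChange M l (e.symm (KaehlerDifferential.D ℂ M (algebraMap A M z))) = _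
  rw [KaehlerDifferential.tensorKaehlerEquivOfFormallyEtale_symm_D_algebraMap]
  simp [l]

theorem isUnit_lin {a b c : ℂ} (ha : a ≠ 0) : IsUnit (lin a b c) := by
  unfold lin
  rw [PowerSeries.isUnit_iff_constantCoeff]
  simp only [map_add, map_mul, PowerSeries.constantCoeff_C, PowerSeries.constantCoeff_X, mul_zero,
    add_zero]
  rw [PowerSeries.isUnit_iff_constantCoeff]
  simp only [map_add, map_mul, PowerSeries.constantCoeff_C, PowerSeries.constantCoeff_X, mul_zero,
    add_zero]
  exact IsUnit.mk0 a ha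

theorem lin_sub (a b c d : ℂ) : lin a b c - algebraMap ℂ PS2 d = lin (a - d) b c := by
  unfold lin
  rw [algC, map_sub, map_add, map_add, map_sub]
  ring

/-- the two coordinates have no common prime factor -/
theorem not_both {p : PS2} (hp : Prime p) {m : Fin 2 → Fin 2 → ℂ}
    (hdet : m 0 0 * m 1 1 - m 0 1 * m 1 0 ≠ 0) :
    ∃ l : Fin 2, ¬ p ∣ lin 0 (m l 0) (m l 1) := by
  by_contra hcon
  push Not at hcon
  have h0 := hcon 0
  have h1 := hcon 1
  set D := m 0 0 * m 1 1 - m 0 1 * m 1 0 with hD
  have hcc : ∀ z w : ℂ, (PowerSeries.C (PowerSeries.C (z * w)) : PS2) =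
      PowerSeries.C (PowerSeries.C z) * PowerSeries.C (PowerSeries.C w) := by
    intro z w; rw [map_mul, map_mul]
  have hDu : (PowerSeries.C (PowerSeries.C D) : PS2) * PowerSeries.C (PowerSeries.C D⁻¹) = 1 := by
    rw [← hcc, mul_inv_cancel₀ hdet, map_one, map_one]
  have hX : p ∣ (PowerSeries.X : PS2) := by
    have h2 : (PowerSeries.X : PS2) * PowerSeries.C (PowerSeries.C D) =
        PowerSeries.C (PowerSeries.C (m 0 0)) * lin 0 (m 1 0) (m 1 1) -
        PowerSeries.C (PowerSeries.C (m 1 0)) * lin 0 (m 0 0) (m 0 1) := by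
      unfold lin
      rw [hD]
      simp only [map_sub, map_mul, map_add, map_zero]
      ring
    have h3 : (PowerSeries.X : PS2) = (PowerSeries.X : PS2) * PowerSeries.C (PowerSeries.C D) *
        PowerSeries.C (PowerSeries.C D⁻¹) := by
      rw [mul_assoc, hDu, mul_one]
    rw [h3, h2]
    exact Dvd.dvd.mul_right (dvd_sub (h1.mul_left _) (h0.mul_left _)) _
  have hS : p ∣ (PowerSeries.C (PowerSeries.X : PowerSeries ℂ) : PS2) := by
    have h2 : (PowerSeries.C (PowerSeries.X : PowerSeries ℂ) : PS2) *
        PowerSeries.C (PowerSeries.C D) =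
        PowerSeries.C (PowerSeries.C (m 1 1)) * lin 0 (m 0 0) (m 0 1) -
        PowerSeries.C (PowerSeries.C (m 0 1)) * lin 0 (m 1 0) (m 1 1) := by
      unfold lin
      rw [hD]
      simp only [map_sub, map_mul, map_add, map_zero]
      ring
    have h3 : (PowerSeries.C (PowerSeries.X : PowerSeries ℂ) : PS2) =
        (PowerSeries.C (PowerSeries.X : PowerSeries ℂ) : PS2) * PowerSeries.C (PowerSeries.C D) *
        PowerSeries.C (PowerSeries.C D⁻¹) := by
      rw [mul_assoc, hDu, mul_one]
    rw [h3, h2]
    exact Dvd.dvd.mul_right (dvd_sub (h0.mul_left _) (h1.mul_left _)) _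
  have hXp : Prime (PowerSeries.X : PS2) := PowerSeries.X_prime
  obtain ⟨c, hc⟩ := hX
  have hXd : (PowerSeries.X : PS2) ∣ p := by
    rcases hXp.irreducible.isUnit_or_isUnit hc with h | h
    · exact absurd h hp.not_isUnit
    · obtain ⟨u, hu⟩ := h
      refine ⟨(u⁻¹ : PS2ˣ), ?_⟩
      rw [hc, ← hu, mul_assoc, Units.mul_inv, mul_one]
  have h4 := hXd.trans hS
  rw [PowerSeries.X_dvd_iff, PowerSeries.constantCoeff_C] at h4
  exact PowerSeries.X_ne_zero h4

variable {K : Type} [Field K] [Algebra ℂ K] {M : Type} [Field M] [Algebra PS2 M]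
  [IsFractionRing PS2 M] [Algebra ℂ M] [IsScalarTower ℂ PS2 M]

/-- polynomials in one variable, at a place where all `u - c` are units -/
theorem poly_ord (v : Place ℂ K) {u : K} (h : ∀ c : ℂ, u - algebraMap ℂ K c ≠ 0 ∧
    v.ord (u - algebraMap ℂ K c) = 0) (G : Polynomial ℂ) (hG : G ≠ 0) :
    Polynomial.aeval u G ≠ 0 ∧ v.ord (Polynomial.aeval u G) = 0 := by
  have hs := IsAlgClosed.splits G
  have h1 := hs.eq_prod_roots
  have hlc : G.leadingCoeff ≠ 0 := by rwa [Ne, Polynomial.leadingCoeff_eq_zero]
  have h2 : ∀ s : Multiset ℂ, Polynomial.aeval u ((s.map fun a => Polynomial.X - Polynomial.C a).prod) ≠ 0 ∧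
      v.ord (Polynomial.aeval u ((s.map fun a => Polynomial.X - Polynomial.C a).prod)) = 0 := by
    intro s
    induction s using Multiset.induction_on with
    | empty =>
      simp only [Multiset.map_zero, Multiset.prod_zero, map_one]
      exact ⟨one_ne_zero, v.ord_one⟩
    | cons a s ih =>
      rw [Multiset.map_cons, Multiset.prod_cons, map_mul, map_sub, Polynomial.aeval_X,
        Polynomial.aeval_C]
      refine ⟨mul_ne_zero (h a).1 ih.1, ?_⟩
      rw [v.ord_mul (h a).1 ih.1, (h a).2, ih.2, add_zero]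
  have h3 := h2 G.roots
  rw [h1, map_mul, Polynomial.aeval_C]
  have h4 : algebraMap ℂ K G.leadingCoeff ≠ 0 := by rwa [Ne, _root_.map_eq_zero]
  refine ⟨mul_ne_zero h4 h3.1, ?_⟩
  rw [v.ord_mul h4 h3.1, v.ord_const hlc, h3.2, add_zero]

/-- **Lemma F.** -/
theorem formal_mem (e : K →ₐ[ℂ] M) {x : Fin 2 → K} {E : Fin 2 → Derivation ℂ K K}
    (hx : Dual x E) {a : Fin 2 → ℂ} {m : Fin 2 → Fin 2 → ℂ}
    (hdet : m 0 0 * m 1 1 - m 0 1 * m 1 0 ≠ 0)
    (hex : ∀ l, e (x l) = algebraMap PS2 M (lin (a l) (m l 0) (m l 1))) {q : K}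
    (hq : ∀ v : Place ℂ K, Divisorial 2 v → (∀ l, DerReg v (E l)) → v.Reg q) :
    ∃ α : PS2, e q = algebraMap PS2 M α := by
  classical
  apply ufd_mem
  intro p hp w hw
  let _ : Algebra K M := e.toRingHom.toAlgebra
  have hst : IsScalarTower ℂ K M := IsScalarTower.of_algebraMap_eq fun c => (e.commutes c).symm
  have halg : ∀ f : K, algebraMap K M f = e f := fun f => rfl
  -- the derivations
  set dd := m 0 0 * m 1 1 - m 0 1 * m 1 0 with hdd
  let D : Fin 2 → Derivation ℂ PS2 PS2 :=
    ![(m 1 1 / dd) • dS - (m 1 0 / dd) • dT, (m 0 0 / dd) • dT - (m 0 1 / dd) • dS]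
  have hD : ∀ l j, D l (lin (a j) (m j 0) (m j 1)) = if l = j then 1 else 0 := by
    have hsm : ∀ z w : ℂ, z • algebraMap ℂ PS2 w = algebraMap ℂ PS2 (z * w) := by
      intro z w
      rw [Algebra.smul_def, ← map_mul]
    intro l j
    fin_cases l <;> fin_cases j
    · change ((m 1 1 / dd) • dS - (m 1 0 / dd) • dT) (lin (a 0) (m 0 0) (m 0 1)) = 1
      rw [Derivation.sub_apply, Derivation.smul_apply, Derivation.smul_apply, dS_lin, dT_lin, hsm,
        hsm, ← map_sub, ← map_one (algebraMap ℂ PS2)]
      congr 1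
      rw [div_mul_eq_mul_div, div_mul_eq_mul_div, ← sub_div, div_eq_one_iff_eq hdet, hdd]
      ring
    · change ((m 1 1 / dd) • dS - (m 1 0 / dd) • dT) (lin (a 1) (m 1 0) (m 1 1)) = 0
      rw [Derivation.sub_apply, Derivation.smul_apply, Derivation.smul_apply, dS_lin, dT_lin, hsm,
        hsm, ← map_sub, ← map_zero (algebraMap ℂ PS2)]
      congr 1
      ring
    · change ((m 0 0 / dd) • dT - (m 0 1 / dd) • dS) (lin (a 0) (m 0 0) (m 0 1)) = 0
      rw [Derivation.sub_apply, Derivation.smul_apply, Derivation.smul_apply, dS_lin, dT_lin, hsm,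
        hsm, ← map_sub, ← map_zero (algebraMap ℂ PS2)]
      congr 1
      ring
    · change ((m 0 0 / dd) • dT - (m 0 1 / dd) • dS) (lin (a 1) (m 1 0) (m 1 1)) = 1
      rw [Derivation.sub_apply, Derivation.smul_apply, Derivation.smul_apply, dS_lin, dT_lin, hsm,
        hsm, ← map_sub, ← map_one (algebraMap ℂ PS2)]
      congr 1
      rw [div_mul_eq_mul_div, div_mul_eq_mul_div, ← sub_div, div_eq_one_iff_eq hdet, hdd]
  choose D' hD' using fun l => exists_der_frac (M := M) (D l)
  have hinj : Function.Injective (algebraMap PS2 M) := IsFractionRing.injective PS2 M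
  have hne : ∀ a : PS2, a ≠ 0 → algebraMap PS2 M a ≠ 0 := fun a ha h0 =>
    ha ((map_eq_zero_iff _ hinj).1 h0)
  -- the derivations preserve the valuation ring
  have hDreg : ∀ l (f : M), w.Reg f → w.Reg (D' l f) := by
    intro l f hf
    obtain ⟨α, β, hβ, rfl⟩ := (ufd_reg_iff hp hw f).1 hf
    have hβ0 : β ≠ 0 := by
      rintro rfl
      exact hβ (dvd_zero _)
    have h1 : D' l (algebraMap PS2 M α / algebraMap PS2 M β) =
        algebraMap PS2 M (D l α * β - α * D l β) / algebraMap PS2 M (β * β) := by
      have hb := hne β hβ0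
      rw [div_eq_mul_inv, (D' l).leibniz, (D' l).leibniz_inv, hD', hD', map_sub, map_mul, map_mul,
        map_mul]
      simp only [smul_eq_mul]
      field_simp
      ring
    rw [h1]
    refine (ufd_reg_iff hp hw _).2 ⟨_, _, ?_, rfl⟩
    intro h2
    rcases hp.dvd_or_dvd h2 with h3 | h3 <;> exact hβ h3
  -- compatibility
  have hcomp : ∀ l (f : K), D' l (e f) = e (E l f) := by
    intro l f
    have h1 : IsDer e (fun f => D' l (e f)) := by
      constructor
      · intro a b
        simp only [map_add]
      · intro a b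
        simp only [map_mul, Derivation.leibniz, smul_eq_mul]
      · intro c
        rw [e.commutes, Derivation.map_algebraMap]
    have h2 := h1.chain hx f
    simp only [hex, hD', hD] at h2
    rw [h2]
    rw [Finset.sum_eq_single l]
    · rw [if_pos rfl, map_one, one_mul]
    · intro j _ hj
      rw [if_neg (Ne.symm hj), map_zero, zero_mul]
    · intro hl
      exact absurd (Finset.mem_univ l) hl
  -- the coordinate with transcendental residue
  obtain ⟨l0, hl0⟩ := not_both hp hdet
  have hlin : ∀ c : ℂ, ¬ p ∣ lin (a l0) (m l0 0) (m l0 1) - algebraMap ℂ PS2 c := by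
    intro c
    rw [lin_sub]
    by_cases hc : a l0 - c = 0
    · rw [hc]
      exact hl0
    · intro h1
      exact hp.not_isUnit (isUnit_of_dvd_unit h1 (isUnit_lin hc))
  by_cases htriv : ∀ f : K, w.ord (algebraMap K M f) = 0
  · right
    rw [← halg, htriv q]
  push Not at htriv
  obtain ⟨k, v, hov⟩ := exists_over (K := K) w htriv
  rw [← halg]
  rw [hov.reg]
  apply hq v
  · refine ⟨fun _ => x l0, fun G hG => ?_⟩
    have hunits : ∀ c : ℂ, x l0 - algebraMap ℂ K c ≠ 0 ∧ v.ord (x l0 - algebraMap ℂ K c) = 0 := by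
      intro c
      have h1 : e (x l0 - algebraMap ℂ K c) =
          algebraMap PS2 M (lin (a l0) (m l0 0) (m l0 1) - algebraMap ℂ PS2 c) := by
        rw [map_sub, e.commutes, hex, map_sub, ← IsScalarTower.algebraMap_apply ℂ PS2 M]
      have h2 : w.ord (e (x l0 - algebraMap ℂ K c)) = 0 := by
        rw [h1]
        exact ufd_ord_zero hw (hlin c)
      have h3 := hov.2 (x l0 - algebraMap ℂ K c)
      rw [halg, h2] at h3
      refine ⟨fun h0 => ?_, ?_⟩
      · rw [h0, map_zero] at h1
        have h4 := (map_eq_zero_iff _ hinj).1 h1.symm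
        exact hlin c (by rw [h4]; exact dvd_zero _)
      · have h5 : (k : ℤ) ≠ 0 := by exact_mod_cast hov.1.ne'
        exact (mul_eq_zero.1 h3.symm).resolve_left h5
    let G' : Polynomial ℂ := MvPolynomial.aeval (fun _ : Fin (2 - 1) => Polynomial.X) G
    have hev : ∀ {L : Type} [Field L] [Algebra ℂ L] (z : L),
        Polynomial.aeval z G' = MvPolynomial.aeval (fun _ => z) G := by
      intro L _ _ z
      have h1 := MvPolynomial.comp_aeval_apply (f := fun _ : Fin (2 - 1) => (Polynomial.X : Polynomial ℂ))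
        (Polynomial.aeval z) G
      rw [h1]
      simp
    have hG' : G' ≠ 0 := by
      intro h0
      apply hG
      apply MvPolynomial.funext
      intro c
      have huniq : c = fun _ => c ⟨0, by norm_num⟩ := by
        funext i
        congr 1
        exact Subsingleton.elim (α := Fin 1) i ⟨0, by norm_num⟩
      rw [huniq, map_zero, ← MvPolynomial.aeval_eq_eval, ← hev, h0, map_zero]
    have := poly_ord v hunits G' hG'
    rwa [hev] at this
  · intro l f hf
    have h1 : w.Reg (e f) := by
      rw [← halg, hov.reg]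
      exact hf
    have h2 := hDreg l _ h1
    rw [hcomp, ← halg, hov.reg] at h2
    exact h2

end Pool.Agent.N155
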