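import Pool.Agent.N155.Tay

/-! Boundedness of quotients of analytic functions in two variables. -/

set_option autoImplicit false

open Filter Topology Set Metric

namespace Pool.Agent.N155

/-- the maximum principle for a quotient -/
theorem disc_bound {f0 f1 : ℂ → ℂ} {r m M : ℝ} (hr : 0 < r) (hm : 0 < m)
    (h0 : ∀ t ∈ closedBall (0 : ℂ) r, AnalyticAt ℂ f0 t)
    (h1 : ∀ t ∈ closedBall (0 : ℂ) r, AnalyticAt ℂ f1 t)
    (hs0 : ∀ t ∈ sphere (0 : ℂ) r, m ≤ ‖f0 t‖) (hs1 : ∀ t ∈ sphere (0 : ℂ) r, ‖f1 t‖ ≤ M)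
    (hord : ∀ t ∈ closedBall (0 : ℂ) r, analyticOrderAt f0 t ≤ analyticOrderAt f1 t) :
    ‖f1 0‖ ≤ M / m * ‖f0 0‖ := by
  -- the denominator is nowhere locally zero
  have hrs : (r : ℂ) ∈ sphere (0 : ℂ) r := by
    rw [mem_sphere_zero_iff_norm, Complex.norm_real, Real.norm_of_nonneg hr.le]
  have hnz : ∀ t ∈ closedBall (0 : ℂ) r, ∀ᶠ s in 𝓝[≠] t, f0 s ≠ 0 := by
    intro t ht
    refine ((h0 t ht).eventually_eq_zero_or_eventually_ne_zero).resolve_left fun h2 => ?_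
    have h3 := AnalyticOnNhd.eqOn_zero_of_preconnected_of_eventuallyEq_zero (f := f0)
      (U := closedBall (0 : ℂ) r) h0 (convex_closedBall _ _).isPreconnected ht h2
    have h4 := h3 (sphere_subset_closedBall hrs)
    have h5 := hs0 _ hrs
    rw [h4, Pi.zero_apply, norm_zero] at h5
    linarith
  have hquot : ∀ t ∈ closedBall (0 : ℂ) r, ∃ H : ℂ → ℂ, AnalyticAt ℂ H t ∧
      (f1 / f0) =ᶠ[𝓝[≠] t] H := by
    intro t ht
    have hne : analyticOrderAt f0 t ≠ ⊤ := by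
      intro h2
      rw [analyticOrderAt_eq_top] at h2
      obtain ⟨s, hs1, hs2⟩ := ((hnz t ht).and (h2.filter_mono nhdsWithin_le_nhds)).exists
      exact hs1 hs2
    obtain ⟨N, hN⟩ := ENat.ne_top_iff_exists.1 hne
    obtain ⟨g0, hg0, hg0n, hg0e⟩ := ((h0 t ht).analyticOrderAt_eq_natCast).1 hN.symm
    have hle : (N : ℕ∞) ≤ analyticOrderAt f1 t := by
      rw [hN]
      exact hord t ht
    obtain ⟨g1, hg1, hg1e⟩ := (natCast_le_analyticOrderAt (h1 t ht)).1 hle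
    refine ⟨g1 / g0, hg1.div hg0 hg0n, ?_⟩
    filter_upwards [hg0e.filter_mono nhdsWithin_le_nhds, hg1e.filter_mono nhdsWithin_le_nhds,
      self_mem_nhdsWithin] with s h2 h3 h4
    have h5 : (s - t) ^ N ≠ 0 := pow_ne_zero _ (sub_ne_zero.2 h4)
    rw [Pi.div_apply, Pi.div_apply, h2, h3, smul_eq_mul, smul_eq_mul, mul_div_mul_left _ _ h5]
  have hmer : MeromorphicOn (f1 / f0) (closedBall (0 : ℂ) r) := fun t ht =>
    (h1 t ht).meromorphicAt.div (h0 t ht).meromorphicAt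
  set h := toMeromorphicNFOn (f1 / f0) (closedBall (0 : ℂ) r) with hh
  have hhan : ∀ t ∈ closedBall (0 : ℂ) r, AnalyticAt ℂ h t := by
    intro t ht
    have h2 : MeromorphicNFAt h t := meromorphicNFOn_toMeromorphicNFOn (f1 / f0) _ ht
    rw [← h2.meromorphicOrderAt_nonneg_iff_analyticAt]
    obtain ⟨H, hH, hHe⟩ := hquot t ht
    have h3 : h =ᶠ[𝓝[≠] t] H :=
      (hmer.toMeromorphicNFOn_eq_self_on_nhdsNE ht).trans hHe
    rw [meromorphicOrderAt_congr h3]
    exact hH.meromorphicOrderAt_nonneg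
  have hmul : ∀ t ∈ closedBall (0 : ℂ) r, h t * f0 t = f1 t := by
    intro t ht
    have h3 : (fun s => h s * f0 s) =ᶠ[𝓝[≠] t] f1 := by
      filter_upwards [hmer.toMeromorphicNFOn_eq_self_on_nhdsNE ht, hnz t ht] with s h4 h5
      have h6 : h s = (f1 / f0) s := h4
      rw [h6, Pi.div_apply, div_mul_cancel₀ _ h5]
    have h4 : ContinuousAt (fun s => h s * f0 s) t :=
      (hhan t ht).continuousAt.mul (h0 t ht).continuousAt
    exact ((h4.eventuallyEq_nhds_iff_eventuallyEq_nhdsNE (h1 t ht).continuousAt).1 h3).self_of_nhds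
  have hbound : ∀ t ∈ sphere (0 : ℂ) r, ‖h t‖ ≤ M / m := by
    intro t ht
    have h2 := hmul t (sphere_subset_closedBall ht)
    have h3 := hs0 t ht
    have h4 := hs1 t ht
    rw [← h2, norm_mul] at h4
    rw [le_div_iff₀ hm]
    exact (mul_le_mul_of_nonneg_left h3 (norm_nonneg _)).trans h4
  have h0m : ‖h 0‖ ≤ M / m := by
    have hd : DiffContOnCl ℂ h (ball (0 : ℂ) r) := by
      apply DifferentiableOn.diffContOnCl
      intro t ht
      rw [closure_ball _ hr.ne'] at ht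
      exact (hhan t ht).differentiableAt.differentiableWithinAt
    apply Complex.norm_le_of_forall_mem_frontier_norm_le isBounded_ball hd
    · intro t ht
      rw [frontier_ball _ hr.ne'] at ht
      exact hbound t ht
    · rw [closure_ball _ hr.ne']
      exact mem_closedBall_self hr.le
  have h2 := hmul 0 (mem_closedBall_self hr.le)
  rw [← h2, norm_mul]
  exact mul_le_mul_of_nonneg_right h0m (norm_nonneg _)

variable {U : Set (ℂ × ℂ)} (hU : IsOpen U)

theorem line_shift {g : ℂ × ℂ → ℂ} (d p : ℂ × ℂ) (t : ℂ) :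
    analyticOrderAt (fun s : ℂ => g ((p + t • d) + s • d)) 0 =
      analyticOrderAt (fun s : ℂ => g (p + s • d)) t := by
  have h1 : AnalyticAt ℂ (fun s : ℂ => s + t) 0 := by fun_prop
  have h2 : deriv (fun s : ℂ => s + t) 0 ≠ 0 := by
    simp
  have h3 := analyticOrderAt_comp_of_deriv_ne_zero (f := fun s : ℂ => g (p + s • d)) h1 h2
  rw [zero_add] at h3
  rw [← h3]
  congr 1
  funext s
  simp only [Function.comp]
  congr 1
  rw [add_smul]
  abel

/-- **Local boundedness of a quotient.** -/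
theorem quot_bound {p0 : ℂ × ℂ} (hp0 : p0 ∈ U) {d : ℂ × ℂ} {g0 g1 : AnU hU}
    (hd : ¬ ∀ᶠ t : ℂ in 𝓝 0, ext0 U g0.1 (p0 + t • d) = 0)
    (hord : ∀ p ∈ U, analyticOrderAt (fun t : ℂ => ext0 U g0.1 (p + t • d)) 0 ≤
      analyticOrderAt (fun t : ℂ => ext0 U g1.1 (p + t • d)) 0) :
    ∃ C : ℝ, ∀ᶠ p in 𝓝 p0, ‖ext0 U g1.1 p‖ ≤ C * ‖ext0 U g0.1 p‖ := by
  have hp0' : p0 + (0 : ℂ) • d ∈ U := by rwa [zero_smul, add_zero]
  have h1 := ((analyticAt_line hU d p0 g0 hp0').eventually_eq_zero_or_eventually_ne_zero).resolve_left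
    hd
  have h2 : ∀ᶠ t : ℂ in 𝓝 0, p0 + t • d ∈ U := (isOpen_line hU d p0).mem_nhds hp0'
  rw [eventually_nhdsWithin_iff] at h1
  obtain ⟨r', hr', hball⟩ := Metric.eventually_nhds_iff_ball.1 (h1.and h2)
  set r := r' / 2 with hr
  have hr0 : 0 < r := by positivity
  have hin : ∀ t ∈ closedBall (0 : ℂ) r, p0 + t • d ∈ U := by
    intro t ht
    apply (hball t _).2
    rw [mem_closedBall_zero_iff] at ht
    rw [mem_ball_zero_iff]
    linarith
  have hne : ∀ t ∈ sphere (0 : ℂ) r, ext0 U g0.1 (p0 + t • d) ≠ 0 := by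
    intro t ht
    rw [mem_sphere_zero_iff_norm] at ht
    apply (hball t _).1
    · rintro rfl
      rw [norm_zero] at ht
      linarith
    · rw [mem_ball_zero_iff]
      linarith
  have hcont : ∀ (g : AnU hU) (t : ℂ), p0 + t • d ∈ U →
      ContinuousAt (fun x : (ℂ × ℂ) × ℂ => ext0 U g.1 (x.1 + x.2 • d)) (p0, t) := by
    intro g t ht
    have h3 : ContinuousAt (ext0 U g.1) (p0 + t • d) := (g.2 _ ht).continuousAt
    have h4 : ContinuousAt (fun x : (ℂ × ℂ) × ℂ => x.1 + x.2 • d) (p0, t) := by fun_prop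
    exact ContinuousAt.comp (g := ext0 U g.1) (f := fun x : (ℂ × ℂ) × ℂ => x.1 + x.2 • d) h3 h4
  -- compactness of the circle
  have hcs : IsCompact (sphere (0 : ℂ) r) := isCompact_sphere _ _
  have hcb : IsCompact (closedBall (0 : ℂ) r) := isCompact_closedBall _ _
  have hsne : (sphere (0 : ℂ) r).Nonempty := NormedSpace.sphere_nonempty.2 hr0.le
  have hc0 : ContinuousOn (fun t : ℂ => ‖ext0 U g0.1 (p0 + t • d)‖) (sphere (0 : ℂ) r) := by
    intro t ht
    exact (analyticAt_line hU d p0 g0 (hin t (sphere_subset_closedBall ht))).continuousAt.norm.continuousWithinAt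
  have hc1 : ContinuousOn (fun t : ℂ => ‖ext0 U g1.1 (p0 + t • d)‖) (sphere (0 : ℂ) r) := by
    intro t ht
    exact (analyticAt_line hU d p0 g1 (hin t (sphere_subset_closedBall ht))).continuousAt.norm.continuousWithinAt
  obtain ⟨t0, ht0, hmin⟩ := hcs.exists_isMinOn hsne hc0
  obtain ⟨t1, ht1, hmax⟩ := hcs.exists_isMaxOn hsne hc1
  set m := ‖ext0 U g0.1 (p0 + t0 • d)‖ with hm
  set M := ‖ext0 U g1.1 (p0 + t1 • d)‖ with hM
  have hm0 : 0 < m := norm_pos_iff.2 (hne t0 ht0)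
  have e0 : ∀ᶠ p in 𝓝 p0, ∀ t ∈ sphere (0 : ℂ) r, m / 2 ≤ ‖ext0 U g0.1 (p + t • d)‖ := by
    apply hcs.eventually_forall_of_forall_eventually
    intro t ht
    have h3 := (hcont g0 t (hin t (sphere_subset_closedBall ht))).norm
    have h4 : m / 2 < ‖ext0 U g0.1 (p0 + t • d)‖ := by
      have : m ≤ ‖ext0 U g0.1 (p0 + t • d)‖ := hmin ht
      linarith
    exact (h3.eventually_const_lt h4).mono fun x hx => hx.le
  have e1 : ∀ᶠ p in 𝓝 p0, ∀ t ∈ sphere (0 : ℂ) r, ‖ext0 U g1.1 (p + t • d)‖ ≤ M + 1 := by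
    apply hcs.eventually_forall_of_forall_eventually
    intro t ht
    have h3 := (hcont g1 t (hin t (sphere_subset_closedBall ht))).norm
    have h4 : ‖ext0 U g1.1 (p0 + t • d)‖ < M + 1 := by
      have : ‖ext0 U g1.1 (p0 + t • d)‖ ≤ M := hmax ht
      linarith
    exact (h3.eventually_lt_const h4).mono fun x hx => hx.le
  have e2 : ∀ᶠ p in 𝓝 p0, ∀ t ∈ closedBall (0 : ℂ) r, p + t • d ∈ U := by
    apply hcb.eventually_forall_of_forall_eventually
    intro t ht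
    have h4 : ContinuousAt (fun x : (ℂ × ℂ) × ℂ => x.1 + x.2 • d) (p0, t) := by fun_prop
    exact h4.eventually_mem (hU.mem_nhds (hin t ht))
  refine ⟨(M + 1) / (m / 2), ?_⟩
  filter_upwards [e0, e1, e2] with p q0 q1 q2
  have h5 := disc_bound (f0 := fun t : ℂ => ext0 U g0.1 (p + t • d))
    (f1 := fun t : ℂ => ext0 U g1.1 (p + t • d)) hr0 (by positivity : 0 < m / 2)
    (fun t ht => analyticAt_line hU d p g0 (q2 t ht))
    (fun t ht => analyticAt_line hU d p g1 (q2 t ht)) q0 q1 (by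
      intro t ht
      rw [← line_shift d p t, ← line_shift d p t]
      exact hord _ (q2 t ht))
  simp only [zero_smul, add_zero] at h5
  exact h5

/-- a direction in which a nonzero function does not vanish -/
theorem exists_dir {p0 : ℂ × ℂ} (hp0 : p0 ∈ U) {g : AnU hU}
    (hg : ¬ ∀ᶠ p in 𝓝 p0, ext0 U g.1 p = 0) :
    ∃ d : ℂ × ℂ, ¬ ∀ᶠ t : ℂ in 𝓝 0, ext0 U g.1 (p0 + t • d) = 0 := by
  by_contra hcon
  push Not at hcon
  apply hg
  obtain ⟨r, hr, hball⟩ := Metric.isOpen_iff.1 hU p0 hp0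
  filter_upwards [ball_mem_nhds p0 hr] with z hz
  have h1 : ∀ t ∈ closedBall (0 : ℂ) 1, p0 + t • (z - p0) ∈ U := by
    intro t ht
    apply hball
    rw [mem_closedBall_zero_iff] at ht
    rw [mem_ball, dist_eq_norm] at hz ⊢
    rw [add_sub_cancel_left, norm_smul]
    calc ‖t‖ * ‖z - p0‖ ≤ 1 * ‖z - p0‖ := by gcongr
      _ < r := by rwa [one_mul]
  have h2 := AnalyticOnNhd.eqOn_zero_of_preconnected_of_eventuallyEq_zero
    (f := fun t : ℂ => ext0 U g.1 (p0 + t • (z - p0))) (U := closedBall (0 : ℂ) 1)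
    (fun t ht => analyticAt_line hU (z - p0) p0 g (h1 t ht)) (convex_closedBall _ _).isPreconnected
    (mem_closedBall_self zero_le_one) (hcon (z - p0))
  have h3 := h2 (show (1 : ℂ) ∈ closedBall (0 : ℂ) 1 by simp)
  simpa using h3

/-- a function which vanishes near `p` has Taylor series zero at `p` -/
theorem TT_zero (p : U) (e d : ℂ × ℂ) {g : AnU hU}
    (hg : ∀ᶠ z in 𝓝 (p : ℂ × ℂ), ext0 U g.1 z = 0) : TT hU p e d g = 0 := by
  have h1 : ∀ (d : ℂ × ℂ) (g : AnU hU), (∀ᶠ z in 𝓝 (p : ℂ × ℂ), ext0 U g.1 z = 0) →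
      ∀ᶠ z in 𝓝 (p : ℂ × ℂ), ext0 U (dD hU d g).1 z = 0 := by
    intro d g hg
    rw [← eventually_eventually_nhds] at hg
    filter_upwards [hg, hU.mem_nhds p.2] with z hz hzU
    rw [ext0_apply _ hzU, dD_apply]
    have h2 : ext0 U g.1 =ᶠ[𝓝 z] fun _ => 0 := hz
    rw [h2.fderiv_eq]
    simp
  have h2 : ∀ (d : ℂ × ℂ) (n : ℕ) (g : AnU hU), (∀ᶠ z in 𝓝 (p : ℂ × ℂ), ext0 U g.1 z = 0) →
      ∀ᶠ z in 𝓝 (p : ℂ × ℂ), ext0 U (dp (dD hU d) n g).1 z = 0 := by
    intro d n g hg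
    induction n with
    | zero => exact hg
    | succ n ih =>
      filter_upwards [h1 d _ ih, hU.mem_nhds p.2] with z hz hzU
      rw [ext0_apply _ hzU] at hz ⊢
      change ((n + 1 : ℂ)⁻¹) * (dD hU d (dp (dD hU d) n g)).1 ⟨z, hzU⟩ = 0
      rw [hz, mul_zero]
  ext a b
  unfold TT
  rw [coeff_Tay, coeff_Tay, ← ext0_evA]
  simpa using (h2 e b _ (h2 d a g hg)).self_of_nhds

end Pool.Agent.N155
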