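import Pool.Agent.N155.Tht
import Pool.Agent.N155.Crv

/-! Brody curves, and the differential `da / b` along a Zariski dense Brody curve. -/

set_option autoImplicit false

open Filter Topology Metric Set MvPolynomial

namespace Pool.Agent.N155

open FF Pool.Agent.Y190.OP Pool.Agent.W602.GT Pool.Agent.TH143.GT

/-- **Brody's lemma.** -/
theorem brody {N : ℕ} {T : Set (Mat N)} (hT : IsCompact T) (hTP : T ⊆ PM) {Ψ : ℂ → Mat N}
    (hΨ : HolP univ Ψ) (hΨT : ∀ z, Ψ z ∈ T) (hne : ¬ ∀ z, Ψ z = Ψ 0) :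
    ∃ H : ℂ → Mat N, HolP univ H ∧ (∀ z, H z ∈ T) ∧ (∀ z, ‖fderiv ℝ H z‖ ≤ 2) ∧
      ‖fderiv ℝ H 0‖ = 1 := by
  have h1 : ∀ n : ℕ, ∃ h : ℂ → Mat N, HolP (ball 0 (n + 1 : ℝ)) h ∧
      (∀ z ∈ ball (0 : ℂ) (n + 1 : ℝ), h z ∈ T) ∧
      (∀ z ∈ ball (0 : ℂ) ((n + 1 : ℝ) / 2), ‖fderiv ℝ h z‖ ≤ 2) ∧ ‖fderiv ℝ h 0‖ = 1 := by
    intro n
    exact big hΨ hΨT hne (by positivity)
  choose h hH hHS hHd hH0 using h1
  set 𝓤 : Ultrafilter ℕ := hyperfilter ℕ with h𝓤
  have hcof : ∀ R : ℝ, ∀ᶠ n : ℕ in (𝓤 : Filter ℕ), R ≤ n := hyper_ge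
  have hlim : ∀ z : ℂ, ∃ y ∈ T, Tendsto (fun n => h n z) 𝓤 (𝓝 y) := by
    intro z
    have h1 : ((𝓤.map fun n => h n z) : Filter (Mat N)) ≤ 𝓟 T := by
      rw [Ultrafilter.coe_map, le_principal_iff, mem_map]
      filter_upwards [hcof ‖z‖] with n hn
      exact hHS n z (mem_ball_zero_iff.2 (by linarith))
    obtain ⟨M, hM, hM'⟩ := hT.ultrafilter_le_nhds (𝓤.map fun n => h n z) h1
    exact ⟨M, hM, hM'⟩
  choose H hHmem hHt using hlim
  have hCC : ∀ R : ℝ, 0 < R → CConv (𝓤 : Filter ℕ) (ball 0 R) h H := by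
    intro R hR z hz
    rw [Metric.tendsto_nhds]
    intro ε hε
    have h2 := Metric.tendsto_nhds.1 (hHt z) (ε / 2) (by positivity)
    have h3 := hcof (2 * R)
    rw [eventually_prod_iff]
    refine ⟨_, h2.and h3, fun w => w ∈ ball (0 : ℂ) R ∧ dist w z < ε / 4, ?_, ?_⟩
    · have h4 : ∀ᶠ w in 𝓝 z, w ∈ ball (0 : ℂ) R := isOpen_ball.mem_nhds hz
      have h5 : ∀ᶠ w in 𝓝 z, dist w z < ε / 4 := ball_mem_nhds z (by positivity)
      exact h4.and h5
    · rintro n ⟨hn1, hn2⟩ w ⟨hw1, hw2⟩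
      have h6 : ‖h n w - h n z‖ ≤ 2 * ‖w - z‖ := by
        have hsub : ball (0 : ℂ) R ⊆ ball (0 : ℂ) ((n + 1 : ℝ) / 2) :=
          ball_subset_ball (by linarith)
        have hsub2 : ball (0 : ℂ) R ⊆ ball (0 : ℂ) (n + 1 : ℝ) :=
          ball_subset_ball (by linarith)
        exact (convex_ball (0 : ℂ) R).norm_image_sub_le_of_norm_fderiv_le
          (fun x hx => (hH n).differentiableAt (hsub2 hx))
          (fun x hx => hHd n x (hsub hx)) hz hw1
      calc dist (h n w) (H z) ≤ dist (h n w) (h n z) + dist (h n z) (H z) := dist_triangle _ _ _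
        _ < ε / 2 + ε / 2 := by
            refine add_lt_add ?_ hn1
            rw [dist_eq_norm]
            rw [dist_eq_norm] at hw2
            linarith
        _ = ε := by ring
  have hev : ∀ R : ℝ, 0 < R → ∀ᶠ n in (𝓤 : Filter ℕ), HolP (ball 0 R) (h n) := by
    intro R _
    filter_upwards [hcof R] with n hn
    exact (hH n).mono (ball_subset_ball (by linarith))
  have hl := fun (R : ℝ) (hR : 0 < R) => holP_limit isOpen_ball (hCC R hR)
    (hev R hR) (fun z _ => hTP (hHmem z))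
  have hHol : HolP univ H := by
    intro z _
    exact (hl (‖z‖ + 1) (by positivity)).1 z (mem_ball_zero_iff.2 (by linarith))
  refine ⟨H, hHol, hHmem, fun z => ?_, ?_⟩
  · have ht := (hl (‖z‖ + 1) (by positivity)).2 z (mem_ball_zero_iff.2 (by linarith))
    refine le_of_tendsto ht.norm ?_
    filter_upwards [hcof (2 * ‖z‖)] with n hn
    exact hHd n z (mem_ball_zero_iff.2 (by linarith))
  · have ht := (hl 1 one_pos).2 0 (mem_ball_self one_pos)
    have h2 := ht.norm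
    simp only [hH0] at h2
    exact tendsto_nhds_unique h2 tendsto_const_nhds |>.symm ▸ rfl

variable {n : ℕ} {K : Type} [Field K] [Algebra ℂ K] {y : Fin (n + 1) → K}
  (R : ∀ h : K, Frac y h) {φ : ℂ → Mat (n + 1)}

theorem deriv_pt (h : Cv y φ) {i j : Fin (n + 1)}
    (hi : y i ≠ 0) {O : Set (Mat (n + 1))} (hO : IsOpen O) {C : ℝ} (hC : 0 ≤ C)
    (hL : ∀ M ∈ O, ∀ M' ∈ O, ‖qv (X j) (X i) M - qv (X j) (X i) M'‖ ≤ C * ‖M - M'‖)
    (hnz : ∀ M ∈ O, nz (X i) M) {z : ℂ} (hz : φ z ∈ O) (hg : good R (y j / y i) (φ z)) :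
    ‖deriv (fun w => ev R (y j / y i) (φ w)) z‖ ≤ C * ‖fderiv ℝ φ z‖ := by
  have hcont : Continuous φ := continuous_iff_continuousAt.2 fun _ =>
    h.hol.continuousAt (mem_univ _)
  have hd := (h.an R hg).differentiableAt.hasDerivAt
  have hφd := (h.hol.differentiableAt (mem_univ z)).hasFDerivAt
  have key : ∀ ε > 0, ‖deriv (fun w => ev R (y j / y i) (φ w)) z‖ ≤ C * (‖fderiv ℝ φ z‖ + ε) := by
    intro ε hε
    refine hd.le_of_lip' (mul_nonneg hC (by positivity)) ?_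
    filter_upwards [hcont.continuousAt.eventually (hO.mem_nhds hz),
      hcont.continuousAt.eventually ((isOpen_good R (y j / y i)).mem_nhds hg),
      hφd.isLittleO.def hε] with w hw hw' hw2
    rw [ev_ratio R j hi (h.mem w) hw' (hnz _ hw), ev_ratio R j hi (h.mem z) hg (hnz _ hz)]
    refine (hL _ hw _ hz).trans ?_
    rw [mul_assoc]
    apply mul_le_mul_of_nonneg_left _ hC
    have h1 : ‖φ w - φ z‖ ≤ ‖φ w - φ z - (fderiv ℝ φ z) (w - z)‖ + ‖(fderiv ℝ φ z) (w - z)‖ := by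
      have := norm_add_le (φ w - φ z - (fderiv ℝ φ z) (w - z)) ((fderiv ℝ φ z) (w - z))
      rwa [sub_add_cancel] at this
    have h2 := (fderiv ℝ φ z).le_opNorm (w - z)
    linarith
  have h1 : Tendsto (fun ε : ℝ => C * (‖fderiv ℝ φ z‖ + ε)) (𝓝[>] 0)
      (𝓝 (C * (‖fderiv ℝ φ z‖ + 0))) := by
    apply Tendsto.mono_left _ nhdsWithin_le_nhds
    exact (tendsto_id.const_add _).const_mul _
  rw [add_zero] at h1
  refine ge_of_tendsto h1 ?_
  filter_upwards [self_mem_nhdsWithin] with ε hε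
  exact key ε hε

/-- the differential `da / b` along a curve is bounded by the derivative of the curve -/
theorem theta_bound (hLB : LB R) {a b : K} {g2 g3 : ℂ}
    (hab : b ^ 2 = 4 * a ^ 3 - algebraMap ℂ K g2 * a - algebraMap ℂ K g3)
    (hdisc : g2 ^ 3 ≠ 27 * g3 ^ 2) (hb : b ≠ 0) :
    ∃ C : ℝ, 0 ≤ C ∧ ∀ (φ : ℂ → Mat (n + 1)) (h : Cv y φ) (t : ℂ → ℂ) (ht : Meromorphic t),
      cl t ht = MD (h.emb R a) / h.emb R b → ∀ᶠ z in codiscrete ℂ, ‖t z‖ ≤ C * ‖fderiv ℝ φ z‖ := by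
  have main : ∃ C : ℝ, 0 ≤ C ∧ ∀ (φ : ℂ → Mat (n + 1)) (h : Cv y φ) (t : ℂ → ℂ)
      (ht : Meromorphic t), cl t ht = MD (h.emb R a) / h.emb R b →
      ∀ᶠ z in codiscrete ℂ, φ z ∈ TX y → ‖t z‖ ≤ C * ‖fderiv ℝ φ z‖ := by
    refine isCompact_TX.induction_on (p := fun S => ∃ C : ℝ, 0 ≤ C ∧ ∀ (φ : ℂ → Mat (n + 1))
      (h : Cv y φ) (t : ℂ → ℂ) (ht : Meromorphic t), cl t ht = MD (h.emb R a) / h.emb R b →
      ∀ᶠ z in codiscrete ℂ, φ z ∈ S → ‖t z‖ ≤ C * ‖fderiv ℝ φ z‖) ?_ ?_ ?_ ?_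
    · exact ⟨0, le_rfl, fun φ h t ht _ => Eventually.of_forall fun z hz => absurd hz (by simp)⟩
    · rintro S S' hSS ⟨C, hC, h⟩
      refine ⟨C, hC, fun φ hφ t ht he => ?_⟩
      filter_upwards [h φ hφ t ht he] with z hz hzS
      exact hz (hSS hzS)
    · rintro S S' ⟨C, hC, h⟩ ⟨C', hC', h'⟩
      refine ⟨max C C', hC.trans (le_max_left _ _), fun φ hφ t ht he => ?_⟩
      filter_upwards [h φ hφ t ht he, h' φ hφ t ht he] with z hz hz' hzS
      rcases hzS with hzS | hzS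
      · exact (hz hzS).trans (mul_le_mul_of_nonneg_right (le_max_left _ _) (norm_nonneg _))
      · exact (hz' hzS).trans (mul_le_mul_of_nonneg_right (le_max_right _ _) (norm_nonneg _))
    · intro M0 hM0
      obtain ⟨i, j, k, E, hyi, hnzi, hdual, hbd⟩ := hLB M0 hM0
      obtain ⟨O0, hO0, C0, hC0⟩ := hbd (E 0 a / b) fun v _ hE => theta_reg hab hdisc hb v (hE 0)
      obtain ⟨O1, hO1, C1, hC1⟩ := hbd (E 1 a / b) fun v _ hE => theta_reg hab hdisc hb v (hE 1)
      obtain ⟨L0, O2, hL0, hO2, hLip0⟩ := lip_qv (G1 := X j) hnzi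
      obtain ⟨L1, O3, hL1, hO3, hLip1⟩ := lip_qv (G1 := X k) hnzi
      have hnb : {M : Mat (n + 1) | nz (X i) M} ∈ 𝓝 M0 := (isOpen_nz _).mem_nhds hnzi
      obtain ⟨O, hOsub, hO, hM0O⟩ := _root_.mem_nhds_iff.1
        (inter_mem (inter_mem hO0 hO1) (inter_mem (inter_mem hO2 hO3) hnb))
      refine ⟨O, mem_nhdsWithin_of_mem_nhds (hO.mem_nhds hM0O),
        |C0| * L0 + |C1| * L1, by positivity, fun φ h t ht he => ?_⟩
      set e := h.emb R with hedef
      have hder : IsDer e (fun k => MD (e k)) := h.isDer R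
      have hch : MD (e a) / e b = MD (e (y j / y i)) * e (E 0 a / b) +
          MD (e (y k / y i)) * e (E 1 a / b) := by
        have h1 := hder.chain hdual a
        rw [Fin.sum_univ_two] at h1
        have h2 : MD (e a) = MD (e (y j / y i)) * e (E 0 a) + MD (e (y k / y i)) * e (E 1 a) := h1
        have e0 : e (E 0 a / b) = e (E 0 a) / e b := map_div₀ e _ _
        have e1 : e (E 1 a / b) = e (E 1 a) / e b := map_div₀ e _ _
        rw [h2, e0, e1]
        ring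
      have hcl : cl t ht = cl ((deriv fun z => ev R (y j / y i) (φ z)) *
          (fun z => ev R (E 0 a / b) (φ z)) + (deriv fun z => ev R (y k / y i) (φ z)) *
          (fun z => ev R (E 1 a / b) (φ z)))
          ((((h.mero R _).deriv).mul (h.mero R _)).add (((h.mero R _).deriv).mul (h.mero R _))) := by
        rw [he, hch]
        rw [hedef, Cv.emb_apply, Cv.emb_apply, Cv.emb_apply, Cv.emb_apply, MD_cl, MD_cl, cl_mul,
          cl_mul, cl_add]
      filter_upwards [cl_eq.1 hcl, h.good R (y j / y i), h.good R (y k / y i),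
        h.good R (E 0 a / b), h.good R (E 1 a / b)] with z hz1 hz2 hz3 hz4 hz5 hzO
      rw [hz1, Pi.add_apply, Pi.mul_apply, Pi.mul_apply]
      have b0 := hC0 (φ z) ⟨(hOsub hzO).1.1, h.mem z⟩ hz4
      have b1 := hC1 (φ z) ⟨(hOsub hzO).1.2, h.mem z⟩ hz5
      have d0 := deriv_pt R h hyi hO hL0 (fun M hM M' hM' =>
        hLip0 M (hOsub hM).2.1.1 M' (hOsub hM').2.1.1) (fun M hM => (hOsub hM).2.2) hzO hz2
      have d1 := deriv_pt R h hyi hO hL1 (fun M hM M' hM' =>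
        hLip1 M (hOsub hM).2.1.2 M' (hOsub hM').2.1.2) (fun M hM => (hOsub hM).2.2) hzO hz3
      refine (norm_add_le _ _).trans ?_
      rw [norm_mul, norm_mul]
      have c0 := mul_le_mul d0 (b0.trans (le_abs_self _)) (norm_nonneg _)
        (mul_nonneg hL0 (norm_nonneg _))
      have c1 := mul_le_mul d1 (b1.trans (le_abs_self _)) (norm_nonneg _)
        (mul_nonneg hL1 (norm_nonneg _))
      calc _ ≤ L0 * ‖fderiv ℝ φ z‖ * |C0| + L1 * ‖fderiv ℝ φ z‖ * |C1| := add_le_add c0 c1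
        _ = (|C0| * L0 + |C1| * L1) * ‖fderiv ℝ φ z‖ := by ring
  obtain ⟨C, hC, hmain⟩ := main
  refine ⟨C, hC, fun φ h t ht he => ?_⟩
  filter_upwards [hmain φ h t ht he] with z hz
  exact hz (h.mem z)

/-- **The first curve.** -/
theorem exists_cur (hLB : LB R) {a b : K} {g2 g3 : ℂ}
    (hab : b ^ 2 = 4 * a ^ 3 - algebraMap ℂ K g2 * a - algebraMap ℂ K g3)
    (hdisc : g2 ^ 3 ≠ 27 * g3 ^ 2) (hb : b ≠ 0) (ha : Transcendental ℂ a) (h : Cv y φ)
    (hB : ∀ z, ‖fderiv ℝ φ z‖ ≤ 2) :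
    ∃ (c : ℂ) (c0 : ℝ), c ≠ 0 ∧ 0 < c0 ∧ Cur R a b c c0 φ := by
  obtain ⟨C, hC, hbd⟩ := theta_bound R hLB hab hdisc hb
  set e := h.emb R with hedef
  have hinj : Function.Injective e := e.toRingHom.injective
  obtain ⟨t, ht, htT⟩ := cl_surj (MD (e a) / e b)
  have h1 := hbd φ h t ht htT
  obtain ⟨c, hc⟩ := mk_const ht (C := C * 2) (by
    filter_upwards [h1] with z hz
    exact hz.trans (mul_le_mul_of_nonneg_left (hB z) hC))
  have heb : e b ≠ 0 := fun h0 => hb ((map_eq_zero_iff _ hinj).1 h0)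
  have hMD : MD (e a) = algebraMap ℂ MK c * e b := by
    rw [← hc, htT, div_mul_cancel₀ _ heb]
  have hcne : c ≠ 0 := by
    rintro rfl
    rw [map_zero, zero_mul] at hMD
    obtain ⟨c', hc'⟩ := MD_eq_zero hMD
    apply ha
    have h2 : a = algebraMap ℂ K c' := hinj (by rw [hc', e.commutes])
    rw [h2]
    exact isAlgebraic_algebraMap _
  have htc : ∀ᶠ z in codiscrete ℂ, t z = c := by
    rw [← cl_const] at hc
    exact cl_eq.1 hc
  have hlow : ∀ z, ‖c‖ ≤ C * ‖fderiv ℝ φ z‖ := by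
    intro z
    have h2 : Tendsto (fun w => C * ‖fderiv ℝ φ w‖) (𝓝[≠] z) (𝓝 (C * ‖fderiv ℝ φ z‖)) := by
      have h3 : ContinuousAt (fderiv ℝ φ) z := h.hol.continuousAt_fderiv (mem_univ z)
      exact ((h3.norm.tendsto).const_mul C).mono_left nhdsWithin_le_nhds
    refine ge_of_tendsto h2 ?_
    filter_upwards [codis_ev h1 z, codis_ev htc z] with w hw1 hw2
    rw [hw2] at hw1
    exact hw1
  have hcpos : 0 < ‖c‖ := norm_pos_iff.2 hcne
  refine ⟨c, ‖c‖ / (C + 1), hcne, by positivity, h.hol, h.mem, hB, fun z => ?_, fun z hz1 hz2 => ?_⟩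
  · rw [div_le_iff₀ (by positivity)]
    have := hlow z
    have h2 := norm_nonneg (fderiv ℝ φ z)
    nlinarith
  · have h2 : cl (deriv fun z => ev R a (φ z)) ((h.mero R a).deriv) =
        cl ((fun _ => c) * fun z => ev R b (φ z)) ((Meromorphic.const c).mul (h.mero R b)) := by
      rw [← MD_cl (h.mero R a), ← cl_mul (Meromorphic.const c) (h.mero R b), cl_const]
      exact hMD
    have h3 := cl_eq.1 h2
    have h4 : ContinuousAt (deriv fun z => ev R a (φ z)) z := (h.an R hz1).deriv.continuousAt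
    have h5 : ContinuousAt ((fun _ => c) * fun z => ev R b (φ z)) z :=
      continuousAt_const.mul (h.an R hz2).continuousAt
    exact eq_of_codis h3 h4 h5

end Pool.Agent.N155
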