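import Pool.Agent.N155.Har
import Pool.Agent.N155.Spec
import Pool.Agent.N155.IR

/-! Local boundedness on a projective surface which is a submanifold. -/

set_option autoImplicit false

open Filter Topology Set Metric MvPolynomial FF

namespace Pool.Agent.N155

open Pool.Agent.Y190.OP Pool.Agent.W602.GT Pool.Agent.TH143.GT

variable {n : ℕ} {K L : Type} [Field K] [Algebra ℂ K] [Field L] [Algebra ℂ L]

/-- a point with the same relations gives an embedding -/
theorem exists_emb {y : Fin (n + 1) → K} {z : Fin (n + 1) → L} (R : ∀ h : K, Frac y h)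
    (h : ∀ G : MvPolynomial (Fin (n + 1)) ℂ, IsForm G → (val y G = 0 ↔ val z G = 0)) :
    ∃ e : K →ₐ[ℂ] L, ∀ (d : ℕ) (H1 H0 : MvPolynomial (Fin (n + 1)) ℂ), H1.IsHomogeneous d →
      H0.IsHomogeneous d → val y H0 ≠ 0 → e (val y H1 / val y H0) = val z H1 / val z H0 := by
  have hkey : ∀ (f : K) (d : ℕ) (H1 H0 : MvPolynomial (Fin (n + 1)) ℂ), H1.IsHomogeneous d →
      H0.IsHomogeneous d → val y H0 ≠ 0 → f = val y H1 / val y H0 →
      val z (R f).G1 / val z (R f).G0 = val z H1 / val z H0 := by
    intro f d H1 H0 h1 h0 hn hf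
    have hz0 : val z H0 ≠ 0 := fun h2 => hn ((h H0 ⟨d, h0⟩).2 h2)
    have hzR : val z (R f).G0 ≠ 0 := fun h2 => (R f).hn ((h _ ⟨_, (R f).h0⟩).2 h2)
    rw [div_eq_div_iff hzR hz0]
    have h2 : val y ((R f).G1 * H0 - H1 * (R f).G0) = 0 := by
      rw [val_sub', val_mul', val_mul', sub_eq_zero]
      have h3 := (R f).eq.symm.trans hf
      rw [div_eq_div_iff (R f).hn hn] at h3
      exact h3
    have h3 : IsForm ((R f).G1 * H0 - H1 * (R f).G0) :=
      ⟨(R f).d + d, ((R f).h1.mul h0).sub (by
        have := h1.mul (R f).h0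
        rwa [add_comm d] at this)⟩
    have h4 := (h _ h3).1 h2
    rw [val_sub', val_mul', val_mul', sub_eq_zero] at h4
    exact h4
  refine ⟨AlgHom.mk'
    { toFun := fun f => val z (R f).G1 / val z (R f).G0
      map_one' := by
        rw [hkey 1 0 1 1 (isHomogeneous_one _ _) (isHomogeneous_one _ _)
          (by rw [val_one']; exact one_ne_zero) (by rw [val_one', div_one]), val_one', div_one]
      map_mul' := fun a b => by
        rw [hkey (a * b) _ _ _ ((R a).h1.mul (R b).h1) ((R a).h0.mul (R b).h0)
          (by rw [val_mul']; exact mul_ne_zero (R a).hn (R b).hn)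
          (by rw [val_mul', val_mul', ← div_mul_div_comm, ← (R a).eq, ← (R b).eq]), val_mul',
          val_mul', div_mul_div_comm]
      map_zero' := by
        rw [hkey 0 0 0 1 (isHomogeneous_zero _ _ _) (isHomogeneous_one _ _)
          (by rw [val_one']; exact one_ne_zero)
          (by unfold val; rw [map_zero, zero_div])]
        unfold val
        rw [map_zero, zero_div]
      map_add' := fun a b => by
        have ha : val z (R a).G0 ≠ 0 := fun h2 => (R a).hn ((h _ ⟨_, (R a).h0⟩).2 h2)
        have hb : val z (R b).G0 ≠ 0 := fun h2 => (R b).hn ((h _ ⟨_, (R b).h0⟩).2 h2)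
        rw [hkey (a + b) _ ((R a).G1 * (R b).G0 + (R a).G0 * (R b).G1) _
          (((R a).h1.mul (R b).h0).add ((R a).h0.mul (R b).h1)) ((R a).h0.mul (R b).h0)
          (by rw [val_mul']; exact mul_ne_zero (R a).hn (R b).hn)
          (by
            rw [val_add', val_mul', val_mul', val_mul', ← div_add_div _ _ (R a).hn (R b).hn,
              ← (R a).eq, ← (R b).eq]), val_add', val_mul', val_mul', val_mul',
          div_add_div _ _ ha hb] }
    (fun c f => ?_), fun d H1 H0 h1 h0 hn => hkey _ d H1 H0 h1 h0 hn rfl⟩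
  change val z (R (c • f)).G1 / val z (R (c • f)).G0 = c • (val z (R f).G1 / val z (R f).G0)
  have hf : val z (R f).G0 ≠ 0 := fun h2 => (R f).hn ((h _ ⟨_, (R f).h0⟩).2 h2)
  rw [hkey (c • f) _ (C c * (R f).G1) (R f).G0 (by
      have := (isHomogeneous_C (Fin (n + 1)) c).mul (R f).h1
      rwa [zero_add] at this) (R f).h0 (R f).hn (by
      rw [val_mul', val_C', Algebra.smul_def, mul_div_assoc, ← (R f).eq]), val_mul', val_C',
    Algebra.smul_def, mul_div_assoc]

/-- a point of the variety where two coordinates are independent is generic -/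
theorem spec_dense' {y : Fin (n + 1) → K} {z : Fin (n + 1) → L} {i0 : Fin (n + 1)}
    (h0' : z i0 ≠ 0) {d : ℕ} (hd : Algebra.trdeg ℂ K = d) {s : Fin d → Fin (n + 1)}
    (hs : AlgebraicIndependent ℂ (fun b => z (s b) / z i0))
    (h : ∀ G : MvPolynomial (Fin (n + 1)) ℂ, IsForm G → val y G = 0 → val z G = 0)
    {G : MvPolynomial (Fin (n + 1)) ℂ} (hG : IsForm G) (hG0 : val z G = 0) : val y G = 0 := by
  classical
  -- pass to the field generated by the coordinates
  let z' : Fin (n + 1) → coords ℂ z := fun j => ⟨z j / z i0,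
    IntermediateField.subset_adjoin ℂ _ ⟨j, i0, h0', rfl⟩⟩
  have hz'0 : z' i0 = 1 := Subtype.ext (div_self h0')
  have hval : ∀ G : MvPolynomial (Fin (n + 1)) ℂ, ((val z' G : coords ℂ z) : L) =
      val (fun j => z j / z i0) G := fun G =>
    MvPolynomial.comp_aeval_apply (f := z') (coords ℂ z).val G
  have hsc : ∀ (e : ℕ) (G : MvPolynomial (Fin (n + 1)) ℂ), G.IsHomogeneous e →
      val z G = z i0 ^ e * val (fun j => z j / z i0) G := by
    intro e G he
    unfold val
    rw [MvPolynomial.aeval_def, MvPolynomial.eval₂_eq', MvPolynomial.aeval_def,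
      MvPolynomial.eval₂_eq', Finset.mul_sum]
    refine Finset.sum_congr rfl fun a ha => ?_
    have h2 : ∑ j, a j = e := by
      have := he (mem_support_iff.1 ha)
      rw [← this, Finsupp.weight_apply]
      simp [Finsupp.sum_fintype]
    have h3 : ∏ j, (z j / z i0) ^ a j = (∏ j, z j ^ a j) / z i0 ^ e := by
      simp only [div_pow, Finset.prod_div_distrib]
      rw [Finset.prod_pow_eq_pow_sum, h2]
    rw [h3]
    have h4 : z i0 ^ e ≠ 0 := pow_ne_zero _ h0'
    field_simp
  have hzz : ∀ G : MvPolynomial (Fin (n + 1)) ℂ, IsForm G → (val z' G = 0 ↔ val z G = 0) := by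
    rintro G ⟨e, he⟩
    rw [hsc e G he, ← hval]
    constructor
    · intro h1
      rw [h1]
      simp
    · intro h1
      have h2 := (mul_eq_zero.1 h1).resolve_left (pow_ne_zero _ h0')
      exact Subtype.ext h2
  have hgen : coords ℂ z' = ⊤ := by
    have h1 : (coords ℂ z').map (coords ℂ z).val = coords ℂ z := by
      unfold coords
      rw [IntermediateField.adjoin_map]
      congr 1
      ext x
      constructor
      · rintro ⟨_, ⟨i, j, hj, rfl⟩, rfl⟩
        have hj' : z j ≠ 0 := by
          intro h2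
          apply hj
          apply Subtype.ext
          change z j / z i0 = 0
          rw [h2, zero_div]
        refine ⟨i, j, hj', ?_⟩
        rw [map_div₀]
        change z i / z i0 / (z j / z i0) = z i / z j
        field_simp
      · rintro ⟨i, j, hj, rfl⟩
        refine ⟨z' i / z' j, ⟨i, j, fun h2 => ?_, rfl⟩, ?_⟩
        · have h3 : z j / z i0 = 0 := congrArg Subtype.val h2
          rcases div_eq_zero_iff.1 h3 with h4 | h4
          · exact hj h4
          · exact h0' h4
        · change ((z' i / z' j : coords ℂ z) : L) = z i / z j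
          rw [IntermediateField.coe_div]
          change z i / z i0 / (z j / z i0) = z i / z j
          field_simp
    apply IntermediateField.map_injective (coords ℂ z).val
    rw [h1]
    ext x
    simp only [IntermediateField.mem_map, IntermediateField.mem_top, true_and]
    constructor
    · intro hx
      exact ⟨⟨x, hx⟩, rfl⟩
    · rintro ⟨x, rfl⟩
      exact x.2
  have hess : Algebra.EssFiniteType ℂ (coords ℂ z) := ess_of_coords hgen
  obtain ⟨w, hw⟩ := Cardinal.lt_aleph0.1 (trdeg_lt_aleph0 ℂ (coords ℂ z))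
  have hs' : AlgebraicIndependent ℂ (fun b => z' (s b)) := by
    have h1 : AlgebraicIndependent ℂ ((coords ℂ z).val ∘ fun b => z' (s b)) := hs
    exact h1.of_comp _
  have hdw : d ≤ w := by
    have h1 := hs'.cardinalMk_le_trdeg
    rw [hw, Cardinal.mk_fin] at h1
    exact_mod_cast h1
  exact spec_dense (Function.ne_iff.2 ⟨i0, by rw [hz'0]; exact one_ne_zero⟩) hgen hd hw hdw
    (fun G hG h1 => (hzz G hG).2 (h G hG h1)) hG ((hzz G hG).2 hG0)

/-- linear series in two independent directions are algebraically independent -/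
theorem lin_indep {a : Fin 2 → ℂ} {m : Fin 2 → Fin 2 → ℂ}
    (hdet : m 0 0 * m 1 1 - m 0 1 * m 1 0 ≠ 0) (P : MvPolynomial (Fin 2) ℂ)
    (hP : aeval (fun l => lin (a l) (m l 0) (m l 1)) P = 0) : P = 0 := by
  let ι : Polynomial (Polynomial ℂ) →+* PS2 :=
    (Polynomial.coeToPowerSeries.ringHom (R := PowerSeries ℂ)).comp
      (Polynomial.mapRingHom (Polynomial.coeToPowerSeries.ringHom (R := ℂ)))
  have hι : Function.Injective ι := by
    refine Function.Injective.comp (g := (Polynomial.coeToPowerSeries.ringHom (R := PowerSeries ℂ)))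
      (f := (Polynomial.mapRingHom (Polynomial.coeToPowerSeries.ringHom (R := ℂ)))) ?_ ?_
    · exact Polynomial.coe_injective _
    · exact Polynomial.map_injective _ (Polynomial.coe_injective _)
  let xp : Fin 2 → Polynomial (Polynomial ℂ) := fun l =>
    Polynomial.C (Polynomial.C (a l) + Polynomial.C (m l 0) * Polynomial.X) +
      Polynomial.C (Polynomial.C (m l 1)) * Polynomial.X
  let cc : ℂ →+* Polynomial (Polynomial ℂ) := Polynomial.C.comp Polynomial.C
  have h1 : ι (eval₂ cc xp P) = aeval (fun l => lin (a l) (m l 0) (m l 1)) P := by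
    rw [MvPolynomial.aeval_def, ← MvPolynomial.coe_eval₂Hom, ← RingHom.comp_apply,
      MvPolynomial.comp_eval₂Hom, MvPolynomial.coe_eval₂Hom]
    congr 1
    · apply RingHom.ext
      intro c
      rw [algC]
      simp [ι, cc]
    · funext l
      simp [ι, xp, lin]
  have h2 : eval₂ cc xp P = 0 := by
    apply hι
    rw [h1, hP, map_zero]
  apply MvPolynomial.funext
  intro w
  rw [map_zero]
  -- solve for the parameters
  set D := m 0 0 * m 1 1 - m 0 1 * m 1 0 with hD
  let s : ℂ := ((w 0 - a 0) * m 1 1 - (w 1 - a 1) * m 0 1) / D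
  let t : ℂ := ((w 1 - a 1) * m 0 0 - (w 0 - a 0) * m 1 0) / D
  let ε : Polynomial (Polynomial ℂ) →+* ℂ :=
    (Polynomial.evalRingHom s).comp (Polynomial.evalRingHom (Polynomial.C t))
  have h3 : ε (eval₂ cc xp P) = eval w P := by
    rw [← MvPolynomial.coe_eval₂Hom, ← RingHom.comp_apply, MvPolynomial.comp_eval₂Hom]
    rw [MvPolynomial.coe_eval₂Hom]
    have e1 : ε.comp cc = RingHom.id ℂ := by
      apply RingHom.ext
      intro c
      simp [ε, cc]
    have e2 : (fun i => ε (xp i)) = w := by
      funext l
      have : ε (xp l) = a l + m l 0 * s + m l 1 * t := by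
        simp [ε, xp]
      rw [this]
      fin_cases l
      · change a 0 + m 0 0 * s + m 0 1 * t = w 0
        simp only [s, t]
        field_simp
        rw [hD]
        ring
      · change a 1 + m 1 0 * s + m 1 1 * t = w 1
        simp only [s, t]
        field_simp
        rw [hD]
        ring
    rw [e1, e2]
    rfl
  rw [← h3, h2, map_zero]

end Pool.Agent.N155
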