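import Mathlib

/-! The field of meromorphic functions on the plane (after `Pool.Agent.TH143.EL.Mero` and
`Pool.Agent.TH143.EL.Fld`, with fewer imports). -/

set_option autoImplicit false



namespace Pool.Agent.N155


open Filter Topology Set

theorem codis_open {U : Set ℂ} (hU : U ∈ codiscrete ℂ) : IsOpen U := (mem_codiscrete'.1 hU).1

theorem codis_countable {U : Set ℂ} (hU : U ∈ codiscrete ℂ) : Uᶜ.Countable :=
  (HereditarilyLindelofSpace.isLindelof _).countable_of_isDiscrete (mem_codiscrete'.1 hU).2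

theorem codis_connected {U : Set ℂ} (hU : U ∈ codiscrete ℂ) : IsConnected U := by
  have h := (codis_countable hU).isConnected_compl_of_one_lt_rank (E := ℂ) (by
    rw [Complex.rank_real_complex]
    exact Nat.one_lt_ofNat)
  rwa [compl_compl] at h

theorem codis_pre {U : Set ℂ} (hU : U ∈ codiscrete ℂ) : IsPreconnected U :=
  (codis_connected hU).isPreconnected

theorem codis_ne {U : Set ℂ} (hU : U ∈ codiscrete ℂ) : U.Nonempty := (codis_connected hU).nonempty

theorem codis_punct {U : Set ℂ} (hU : U ∈ codiscrete ℂ) (x : ℂ) : U ∈ 𝓝[≠] x := by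
  have h := mem_codiscrete.1 hU x
  rwa [disjoint_principal_right, compl_compl] at h

theorem codis_of_punct {U : Set ℂ} (h : ∀ x, U ∈ 𝓝[≠] x) : U ∈ codiscrete ℂ := by
  rw [mem_codiscrete]
  intro x
  rw [disjoint_principal_right, compl_compl]
  exact h x

instance : (codiscrete ℂ).NeBot := by
  constructor
  intro h
  have h1 : (∅ : Set ℂ) ∈ codiscrete ℂ := by rw [h]; exact mem_bot
  exact (codis_ne h1).ne_empty rfl

theorem codis_ev {p : ℂ → Prop} (h : ∀ᶠ z in codiscrete ℂ, p z) (x : ℂ) : ∀ᶠ z in 𝓝[≠] x, p z :=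
  codis_punct h x

theorem codis_of_ev {p : ℂ → Prop} (h : ∀ x, ∀ᶠ z in 𝓝[≠] x, p z) : ∀ᶠ z in codiscrete ℂ, p z :=
  codis_of_punct h

theorem codis_of_ev' {p : ℂ → Prop} (h : ∀ x, ∀ᶠ z in 𝓝 x, p z) : ∀ᶠ z in codiscrete ℂ, p z :=
  codis_of_punct fun x => nhdsWithin_le_nhds (h x)

/-- on the good set everything holds in a full neighbourhood -/
theorem codis_nhds {U : Set ℂ} (hU : U ∈ codiscrete ℂ) {x : ℂ} (hx : x ∈ U) : U ∈ 𝓝 x :=
  (codis_open hU).mem_nhds hx

theorem punct_shift {p : ℂ → Prop} (a x : ℂ) (h : ∀ᶠ z in 𝓝[≠] (x + a), p z) :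
    ∀ᶠ z in 𝓝[≠] x, p (z + a) := by
  have h1 : Tendsto (fun z : ℂ => z + a) (𝓝[≠] x) (𝓝[≠] (x + a)) := by
    apply tendsto_nhdsWithin_of_tendsto_nhds_of_eventually_within
    · exact ((continuous_id.add continuous_const).tendsto x).mono_left nhdsWithin_le_nhds
    · filter_upwards [self_mem_nhdsWithin] with z hz
      intro h2
      exact hz (add_right_cancel h2)
  exact h1.eventually h

theorem codis_shift {p : ℂ → Prop} (a : ℂ) (h : ∀ᶠ z in codiscrete ℂ, p z) :
    ∀ᶠ z in codiscrete ℂ, p (z + a) :=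
  codis_of_ev fun x => punct_shift a x (codis_ev h (x + a))

theorem mero_an {f : ℂ → ℂ} (hf : Meromorphic f) : ∀ᶠ z in codiscrete ℂ, AnalyticAt ℂ f z :=
  codis_of_ev fun x => (hf x).eventually_analyticAt

theorem mero_top {f : ℂ → ℂ} (hf : Meromorphic f) {x : ℂ} (h : ∃ᶠ z in 𝓝[≠] x, f z = 0) (y : ℂ) :
    ∀ᶠ z in 𝓝[≠] y, f z = 0 := by
  have h1 := (hf x).frequently_zero_iff_eventuallyEq_zero.1 h
  have h2 : meromorphicOrderAt f x = ⊤ := meromorphicOrderAt_eq_top_iff.2 h1
  by_contra h3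
  have h4 : meromorphicOrderAt f y ≠ ⊤ := fun h5 => h3 (meromorphicOrderAt_eq_top_iff.1 h5)
  exact (MeromorphicOn.meromorphicOrderAt_ne_top_of_isPreconnected (U := univ)
    (fun z _ => hf z) isPreconnected_univ (mem_univ y) (mem_univ x) h4) h2

/-- identity theorem -/
theorem mero_id {f : ℂ → ℂ} (hf : Meromorphic f) {x : ℂ} (h : ∃ᶠ z in 𝓝[≠] x, f z = 0) :
    ∀ᶠ z in codiscrete ℂ, f z = 0 :=
  codis_of_ev (mero_top hf h)

theorem mero_ne {f : ℂ → ℂ} (hf : Meromorphic f) (h : ¬ ∀ᶠ z in codiscrete ℂ, f z = 0) :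
    ∀ᶠ z in codiscrete ℂ, f z ≠ 0 := by
  apply codis_of_ev
  intro x
  by_contra h1
  exact h (mero_id hf (by simpa using h1))

theorem mero_id2 {f g : ℂ → ℂ} (hf : Meromorphic f) (hg : Meromorphic g) {x : ℂ}
    (h : ∃ᶠ z in 𝓝[≠] x, f z = g z) : ∀ᶠ z in codiscrete ℂ, f z = g z := by
  have h1 := mero_id (hf.sub hg) (x := x) (h.mono fun z hz => by rw [Pi.sub_apply, hz, sub_self])
  filter_upwards [h1] with z hz
  exact sub_eq_zero.1 hz

/-- frequently in a punctured neighbourhood from eventually in a neighbourhood -/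
theorem freq_of_ev {p : ℂ → Prop} {x : ℂ} (h : ∀ᶠ z in 𝓝 x, p z) : ∃ᶠ z in 𝓝[≠] x, p z :=
  (h.filter_mono nhdsWithin_le_nhds).frequently

theorem mero_comp_add {f : ℂ → ℂ} (hf : Meromorphic f) (a : ℂ) :
    Meromorphic (fun z => f (z + a)) := by
  intro x
  exact (hf (x + a)).comp_analyticAt (g := fun z => z + a) (analyticAt_id.add analyticAt_const)

theorem mero_eval {σ : Type} [Fintype σ] {v : σ → ℂ → ℂ} (hv : ∀ j, Meromorphic (v j))
    (P : MvPolynomial σ ℂ) : Meromorphic (fun z => MvPolynomial.eval (fun j => v j z) P) := by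
  induction P using MvPolynomial.induction_on with
  | C a => simpa using Meromorphic.const a
  | add p q hp hq =>
    simp only [map_add]
    exact hp.add hq
  | mul_X p j hp =>
    simp only [map_mul, MvPolynomial.eval_X]
    exact hp.mul (hv j)

/-- an identity on a codiscrete set holds at all points where both sides are continuous -/
theorem eq_of_codis {f g : ℂ → ℂ} (h : ∀ᶠ z in codiscrete ℂ, f z = g z) {x : ℂ}
    (hf : ContinuousAt f x) (hg : ContinuousAt g x) : f x = g x := by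
  have h1 : f =ᶠ[𝓝[≠] x] g := codis_ev h x
  exact ((hf.eventuallyEq_nhds_iff_eventuallyEq_nhdsNE hg).1 h1).self_of_nhds



open Filter Topology Set Polynomial

/-- the ring of meromorphic functions (as functions) -/
def MerS : Subalgebra ℂ (ℂ → ℂ) where
  carrier := {f | Meromorphic f}
  mul_mem' := fun hf hg => Meromorphic.mul hf hg
  add_mem' := fun hf hg => Meromorphic.add hf hg
  algebraMap_mem' := fun c => Meromorphic.const c

/-- the ideal of functions vanishing outside of a discrete set -/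
def MJ : Ideal MerS where
  carrier := {f | ∀ᶠ z in codiscrete ℂ, f.1 z = 0}
  add_mem' := by
    intro f g hf hg
    change ∀ᶠ z in codiscrete ℂ, (f + g).1 z = 0
    have hf' : ∀ᶠ z in codiscrete ℂ, f.1 z = 0 := hf
    have hg' : ∀ᶠ z in codiscrete ℂ, g.1 z = 0 := hg
    filter_upwards [hf', hg'] with z h1 h2
    change f.1 z + g.1 z = 0
    rw [h1, h2, add_zero]
  zero_mem' := by
    change ∀ᶠ z in codiscrete ℂ, (0 : MerS).1 z = 0
    exact Eventually.of_forall fun _ => rfl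
  smul_mem' := by
    intro c f hf
    change ∀ᶠ z in codiscrete ℂ, (c * f).1 z = 0
    have hf' : ∀ᶠ z in codiscrete ℂ, f.1 z = 0 := hf
    filter_upwards [hf'] with z h1
    change c.1 z * f.1 z = 0
    rw [h1, mul_zero]

theorem mem_MJ {f : MerS} : f ∈ MJ ↔ ∀ᶠ z in codiscrete ℂ, f.1 z = 0 := Iff.rfl

instance : MJ.IsMaximal := by
  rw [Ideal.isMaximal_iff]
  constructor
  · intro h
    have h1 : ∀ᶠ z in codiscrete ℂ, (1 : ℂ) = 0 := h
    obtain ⟨_, h2⟩ := h1.exists
    exact one_ne_zero h2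
  · intro I x hI hx hxI
    have h1 := mero_ne x.2 hx
    have h2 : (⟨(x.1)⁻¹, Meromorphic.inv x.2⟩ : MerS) * x ∈ I := I.mul_mem_left _ hxI
    have h3 : (1 : MerS) - (⟨(x.1)⁻¹, Meromorphic.inv x.2⟩ : MerS) * x ∈ MJ := by
      rw [mem_MJ]
      filter_upwards [h1] with z hz
      change 1 - (x.1 z)⁻¹ * x.1 z = 0
      rw [inv_mul_cancel₀ hz, sub_self]
    have h4 := I.add_mem (hI h3) h2
    rwa [sub_add_cancel] at h4

/-- the field of meromorphic functions -/
abbrev MK : Type := MerS ⧸ MJ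

noncomputable instance : Field MK := Ideal.Quotient.field MJ

/-- the class of a meromorphic function -/
noncomputable def cl (f : ℂ → ℂ) (hf : Meromorphic f) : MK := Ideal.Quotient.mk MJ ⟨f, hf⟩

theorem cl_eq {f g : ℂ → ℂ} {hf : Meromorphic f} {hg : Meromorphic g} :
    cl f hf = cl g hg ↔ ∀ᶠ z in codiscrete ℂ, f z = g z := by
  unfold cl
  rw [Ideal.Quotient.eq, mem_MJ]
  constructor
  · intro h
    filter_upwards [h] with z hz
    exact sub_eq_zero.1 hz
  · intro h
    filter_upwards [h] with z hz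
    exact sub_eq_zero.2 hz

theorem cl_add {f g : ℂ → ℂ} (hf : Meromorphic f) (hg : Meromorphic g) :
    cl f hf + cl g hg = cl (f + g) (hf.add hg) := rfl

theorem cl_mul {f g : ℂ → ℂ} (hf : Meromorphic f) (hg : Meromorphic g) :
    cl f hf * cl g hg = cl (f * g) (hf.mul hg) := rfl

theorem cl_const (c : ℂ) : cl (fun _ => c) (Meromorphic.const c) = algebraMap ℂ MK c := rfl

theorem cl_eq_zero {f : ℂ → ℂ} {hf : Meromorphic f} :
    cl f hf = 0 ↔ ∀ᶠ z in codiscrete ℂ, f z = 0 := by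
  have h1 : (0 : MK) = cl (fun _ => 0) (Meromorphic.const 0) := by
    rw [cl_const, map_zero]
  rw [h1, cl_eq]

theorem cl_inv {f : ℂ → ℂ} (hf : Meromorphic f) : (cl f hf)⁻¹ = cl f⁻¹ hf.inv := by
  by_cases h : cl f hf = 0
  · rw [h, inv_zero]
    symm
    rw [cl_eq_zero] at h ⊢
    filter_upwards [h] with z hz
    rw [Pi.inv_apply, hz, inv_zero]
  · apply inv_eq_of_mul_eq_one_right
    rw [cl_mul]
    have h1 : (1 : MK) = cl (fun _ => 1) (Meromorphic.const 1) := by
      rw [cl_const, map_one]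
    rw [h1, cl_eq]
    have h2 := mero_ne hf (fun h0 => h (cl_eq_zero.2 h0))
    filter_upwards [h2] with z hz
    rw [Pi.mul_apply, Pi.inv_apply, mul_inv_cancel₀ hz]

theorem cl_div {f g : ℂ → ℂ} (hf : Meromorphic f) (hg : Meromorphic g) :
    cl f hf / cl g hg = cl (f / g) (hf.div hg) := by
  rw [div_eq_mul_inv, cl_inv, cl_mul, cl_eq]
  exact Eventually.of_forall fun z => by simp [div_eq_mul_inv]

theorem cl_surj (x : MK) : ∃ f, ∃ hf : Meromorphic f, cl f hf = x := by
  obtain ⟨⟨f, hf⟩, h⟩ := Ideal.Quotient.mk_surjective x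
  exact ⟨f, hf, h⟩

instance : CharZero MK := charZero_of_injective_algebraMap (algebraMap ℂ MK).injective

/-! ### the derivation -/

theorem deriv_codis {f g : ℂ → ℂ} (h : ∀ᶠ z in codiscrete ℂ, f z = g z) :
    ∀ᶠ z in codiscrete ℂ, deriv f z = deriv g z := by
  have h1 : ∀ z ∈ {z | f z = g z}, deriv f z = deriv g z := by
    intro z hz
    have h2 : {z | f z = g z} ∈ 𝓝 z := codis_nhds h hz
    exact Filter.EventuallyEq.deriv_eq h2
  filter_upwards [h] with z hz
  exact h1 z hz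

/-- the derivation of the field of meromorphic functions -/
noncomputable def MD (x : MK) : MK :=
  cl (deriv (Classical.choose (cl_surj x))) (Classical.choose (Classical.choose_spec (cl_surj x))).deriv

theorem MD_cl {f : ℂ → ℂ} (hf : Meromorphic f) : MD (cl f hf) = cl (deriv f) hf.deriv := by
  unfold MD
  rw [cl_eq]
  apply deriv_codis
  exact cl_eq.1 (Classical.choose_spec (Classical.choose_spec (cl_surj (cl f hf))))

theorem MD_add (x y : MK) : MD (x + y) = MD x + MD y := by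
  obtain ⟨f, hf, rfl⟩ := cl_surj x
  obtain ⟨g, hg, rfl⟩ := cl_surj y
  rw [cl_add, MD_cl, MD_cl, MD_cl, cl_add, cl_eq]
  filter_upwards [mero_an hf, mero_an hg] with z h1 h2
  rw [Pi.add_apply]
  exact deriv_add h1.differentiableAt h2.differentiableAt

theorem MD_mul (x y : MK) : MD (x * y) = x * MD y + y * MD x := by
  obtain ⟨f, hf, rfl⟩ := cl_surj x
  obtain ⟨g, hg, rfl⟩ := cl_surj y
  rw [cl_mul, MD_cl, MD_cl, MD_cl, cl_mul, cl_mul, cl_add, cl_eq]
  filter_upwards [mero_an hf, mero_an hg] with z h1 h2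
  rw [Pi.add_apply, Pi.mul_apply, Pi.mul_apply]
  rw [deriv_mul h1.differentiableAt h2.differentiableAt]
  ring

theorem MD_const (c : ℂ) : MD (algebraMap ℂ MK c) = 0 := by
  rw [← cl_const, MD_cl, cl_eq_zero]
  exact Eventually.of_forall fun z => by simp

/-- the derivation as a Mathlib derivation -/
noncomputable def MDer : Derivation ℂ MK MK :=
  Derivation.mk'
    { toFun := MD
      map_add' := MD_add
      map_smul' := fun c x => by
        rw [Algebra.smul_def, MD_mul, MD_const, mul_zero, add_zero, RingHom.id_apply,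
          Algebra.smul_def] }
    (fun x y => by
      change MD (x * y) = x • MD y + y • MD x
      rw [MD_mul, smul_eq_mul, smul_eq_mul])

theorem MDer_apply (x : MK) : MDer x = MD x := rfl

/-! ### evaluation of polynomials -/

/-- evaluation of a polynomial in two variables -/
noncomputable def ev2 {A : Type} [CommRing A] [Algebra ℂ A] (x y : A) : ℂ[X][X] →+* A :=
  eval₂RingHom (aeval x : ℂ[X] →ₐ[ℂ] A).toRingHom y

theorem ev2_C {A : Type} [CommRing A] [Algebra ℂ A] (x y : A) (p : ℂ[X]) :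
    ev2 x y (C p) = aeval x p := by
  unfold ev2
  rw [coe_eval₂RingHom, eval₂_C]
  rfl

theorem ev2_X {A : Type} [CommRing A] [Algebra ℂ A] (x y : A) : ev2 x y X = y := by
  unfold ev2
  rw [coe_eval₂RingHom, eval₂_X]

theorem ev2_hom {A A' : Type} [CommRing A] [Algebra ℂ A] [CommRing A'] [Algebra ℂ A']
    (φ : A →ₐ[ℂ] A') (x y : A) (P : ℂ[X][X]) : φ (ev2 x y P) = ev2 (φ x) (φ y) P := by
  induction P using Polynomial.induction_on' with
  | add p q hp hq => rw [map_add, map_add, map_add, hp, hq]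
  | monomial n a =>
    rw [← C_mul_X_pow_eq_monomial, map_mul, map_mul, map_mul, map_pow, map_pow, map_pow, ev2_C,
      ev2_C, ev2_X, ev2_X]
    congr 1
    exact (Polynomial.aeval_algHom_apply φ x a).symm

/-- evaluation at a point -/
def evS (z : ℂ) : MerS →ₐ[ℂ] ℂ := (Pi.evalAlgHom ℂ (fun _ : ℂ => ℂ) z).comp MerS.val

theorem ev2_cl {f g : ℂ → ℂ} (hf : Meromorphic f) (hg : Meromorphic g) (P : ℂ[X][X]) :
    ∃ h : Meromorphic (fun z => ev2 (f z) (g z) P),
      ev2 (cl f hf) (cl g hg) P = cl (fun z => ev2 (f z) (g z) P) h := by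
  have h1 : ∀ z, (ev2 (⟨f, hf⟩ : MerS) ⟨g, hg⟩ P).1 z = ev2 (f z) (g z) P := fun z =>
    ev2_hom (evS z) (⟨f, hf⟩ : MerS) ⟨g, hg⟩ P
  have h2 : (fun z => ev2 (f z) (g z) P) = (ev2 (⟨f, hf⟩ : MerS) ⟨g, hg⟩ P).1 :=
    funext fun z => (h1 z).symm
  have h3 : Meromorphic (fun z => ev2 (f z) (g z) P) := by
    rw [h2]
    exact (ev2 (⟨f, hf⟩ : MerS) ⟨g, hg⟩ P).2
  refine ⟨h3, ?_⟩
  have h4 := ev2_hom (Ideal.Quotient.mkₐ ℂ MJ) (⟨f, hf⟩ : MerS) ⟨g, hg⟩ P
  have h5 : ev2 (cl f hf) (cl g hg) P = Ideal.Quotient.mkₐ ℂ MJ (ev2 (⟨f, hf⟩ : MerS) ⟨g, hg⟩ P) :=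
    h4.symm
  rw [h5]
  change Ideal.Quotient.mk MJ _ = Ideal.Quotient.mk MJ _
  congr 1
  exact Subtype.ext h2.symm


end Pool.Agent.N155
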