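import Pool.Agent.N155.Frm

/-! Taylor expansions in two variables. -/

set_option autoImplicit false

open Filter Topology Set

namespace Pool.Agent.N155

section alg

variable {R : Type} [CommRing R] [Algebra ℂ R]

/-- divided powers of a derivation -/
noncomputable def dp (δ : Derivation ℂ R R) : ℕ → R → R
  | 0, f => f
  | n + 1, f => ((n + 1 : ℂ)⁻¹) • δ (dp δ n f)

variable (δ : Derivation ℂ R R)

theorem dp_zero (f : R) : dp δ 0 f = f := rfl

theorem dp_succ (n : ℕ) (f : R) : δ (dp δ n f) = ((n + 1 : ℂ)) • dp δ (n + 1) f := by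
  have h : (n + 1 : ℂ) ≠ 0 := by exact_mod_cast Nat.succ_ne_zero n
  change _ = (n + 1 : ℂ) • ((n + 1 : ℂ)⁻¹ • δ (dp δ n f))
  rw [smul_smul, mul_inv_cancel₀ h, one_smul]

theorem dp_add (n : ℕ) (f g : R) : dp δ n (f + g) = dp δ n f + dp δ n g := by
  induction n with
  | zero => rfl
  | succ n ih =>
    change _ • δ (dp δ n (f + g)) = _ • δ (dp δ n f) + _ • δ (dp δ n g)
    rw [ih, map_add, smul_add]

theorem dp_of_der_zero {f : R} (h : δ f = 0) (n : ℕ) : dp δ (n + 1) f = 0 := by
  induction n with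
  | zero =>
    change _ • δ f = 0
    rw [h, smul_zero]
  | succ n ih =>
    change _ • δ (dp δ (n + 1) f) = 0
    rw [ih, map_zero, smul_zero]

theorem dp_const (n : ℕ) (c : ℂ) : dp δ (n + 1) (algebraMap ℂ R c) = 0 :=
  dp_of_der_zero δ (δ.map_algebraMap c) n

theorem dp_mul (n : ℕ) (f g : R) :
    dp δ n (f * g) = ∑ x ∈ Finset.HasAntidiagonal.antidiagonal n, dp δ x.1 f * dp δ x.2 g := by
  induction n with
  | zero =>
    rw [Finset.HasAntidiagonal.antidiagonal_zero, Finset.sum_singleton]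
    rfl
  | succ n ih =>
    have h : (n + 1 : ℂ) ≠ 0 := by exact_mod_cast Nat.succ_ne_zero n
    have h1 : (n + 1 : ℂ) • dp δ (n + 1) (f * g) = (n + 1 : ℂ) •
        ∑ x ∈ Finset.HasAntidiagonal.antidiagonal (n + 1), dp δ x.1 f * dp δ x.2 g := by
      rw [← dp_succ, ih, map_sum, Finset.smul_sum]
      have h2 : ∀ x ∈ Finset.HasAntidiagonal.antidiagonal n, δ (dp δ x.1 f * dp δ x.2 g) =
          ((x.1 + 1 : ℕ) : ℂ) • (dp δ (x.1 + 1) f * dp δ x.2 g) +
          ((x.2 + 1 : ℕ) : ℂ) • (dp δ x.1 f * dp δ (x.2 + 1) g) := by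
        intro x _
        rw [δ.leibniz, dp_succ, dp_succ, smul_eq_mul, smul_eq_mul, mul_smul_comm, mul_smul_comm,
          add_comm, mul_comm (dp δ x.2 g)]
        push_cast
        rfl
      rw [Finset.sum_congr rfl h2, Finset.sum_add_distrib]
      have h3 : ∀ x ∈ Finset.HasAntidiagonal.antidiagonal (n + 1), (n + 1 : ℂ) • (dp δ x.1 f * dp δ x.2 g) =
          (x.1 : ℂ) • (dp δ x.1 f * dp δ x.2 g) + (x.2 : ℂ) • (dp δ x.1 f * dp δ x.2 g) := by
        intro x hx
        rw [Finset.HasAntidiagonal.mem_antidiagonal] at hx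
        rw [← add_smul]
        congr 1
        have : ((x.1 + x.2 : ℕ) : ℂ) = ((n + 1 : ℕ) : ℂ) := by rw [hx]
        push_cast at this
        rw [this]
      rw [Finset.sum_congr rfl h3, Finset.sum_add_distrib]
      congr 1
      · rw [Finset.Nat.sum_antidiagonal_succ (f := fun x : ℕ × ℕ => (x.1 : ℂ) • (dp δ x.1 f * dp δ x.2 g))]
        simp
      · rw [Finset.Nat.sum_antidiagonal_succ' (f := fun x : ℕ × ℕ => (x.2 : ℂ) • (dp δ x.1 f * dp δ x.2 g))]
        simp
    have h2 := congrArg (fun z => (n + 1 : ℂ)⁻¹ • z) h1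
    simp only [smul_smul, inv_mul_cancel₀ h, one_smul] at h2
    exact h2

variable {S : Type} [CommRing S] [Algebra ℂ S] (ε : R →ₐ[ℂ] S)

/-- the Taylor homomorphism of a derivation -/
noncomputable def Tay : R →ₐ[ℂ] PowerSeries S where
  toFun f := PowerSeries.mk fun n => ε (dp δ n f)
  map_one' := by
    ext n
    rw [PowerSeries.coeff_mk, PowerSeries.coeff_one]
    cases n with
    | zero => rw [if_pos rfl, dp_zero, map_one]
    | succ n =>
      rw [if_neg (Nat.succ_ne_zero n), ← map_one (algebraMap ℂ R), dp_const, map_zero]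
  map_mul' f g := by
    ext n
    rw [PowerSeries.coeff_mk, PowerSeries.coeff_mul, dp_mul, map_sum]
    simp only [PowerSeries.coeff_mk, map_mul]
  map_zero' := by
    ext n
    rw [PowerSeries.coeff_mk, map_zero]
    cases n with
    | zero => rw [dp_zero, map_zero]
    | succ n => rw [dp_of_der_zero δ (map_zero _), map_zero]
  map_add' f g := by
    ext n
    rw [map_add, PowerSeries.coeff_mk, PowerSeries.coeff_mk, PowerSeries.coeff_mk, dp_add, map_add]
  commutes' c := by
    ext n
    rw [PowerSeries.coeff_mk, PowerSeries.algebraMap_apply, PowerSeries.coeff_C]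
    cases n with
    | zero => rw [if_pos rfl, dp_zero, ε.commutes]
    | succ n => rw [if_neg (Nat.succ_ne_zero n), dp_const, map_zero]

theorem coeff_Tay (f : R) (n : ℕ) : PowerSeries.coeff n (Tay δ ε f) = ε (dp δ n f) := by
  change PowerSeries.coeff n (PowerSeries.mk fun n => ε (dp δ n f)) = _
  rw [PowerSeries.coeff_mk]

theorem Tay_lin {f : R} (h : δ (δ f) = 0) :
    Tay δ ε f = PowerSeries.C (ε f) + PowerSeries.C (ε (δ f)) * PowerSeries.X := by
  ext n
  rw [coeff_Tay, map_add, PowerSeries.coeff_C, PowerSeries.coeff_C_mul, PowerSeries.coeff_X]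
  have h1 : dp δ 1 f = δ f := by
    change (((0 : ℕ) : ℂ) + 1)⁻¹ • δ f = _
    rw [Nat.cast_zero, zero_add, inv_one, one_smul]
  match n with
  | 0 => simp [dp_zero]
  | 1 => simp [h1]
  | n + 2 =>
    have h2 : ∀ n, dp δ (n + 2) f = 0 := by
      intro n
      induction n with
      | zero =>
        change _ • δ (dp δ 1 f) = 0
        rw [h1, h, smul_zero]
      | succ n ih =>
        change _ • δ (dp δ (n + 2) f) = 0
        rw [ih, map_zero, smul_zero]
    rw [h2, map_zero]
    simp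

end alg

/-! ### the ring of analytic functions on an open set -/

/-- the extension by zero -/
noncomputable def ext0 (U : Set (ℂ × ℂ)) (g : U → ℂ) : ℂ × ℂ → ℂ :=
  open scoped Classical in fun z => if h : z ∈ U then g ⟨z, h⟩ else 0

variable {U : Set (ℂ × ℂ)}

theorem ext0_apply (g : U → ℂ) {z : ℂ × ℂ} (hz : z ∈ U) : ext0 U g z = g ⟨z, hz⟩ := by
  unfold ext0
  rw [dif_pos hz]

theorem ext0_eq (hU : IsOpen U) {g : U → ℂ} {G : ℂ × ℂ → ℂ} (h : ∀ z : U, g z = G z)
    {z : ℂ × ℂ} (hz : z ∈ U) : ext0 U g =ᶠ[𝓝 z] G := by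
  filter_upwards [hU.mem_nhds hz] with w hw
  rw [ext0_apply g hw]
  exact h ⟨w, hw⟩

/-- the ring of analytic functions on `U` -/
def AnU (hU : IsOpen U) : Subalgebra ℂ (U → ℂ) where
  carrier := {g | ∀ z ∈ U, AnalyticAt ℂ (ext0 U g) z}
  mul_mem' := by
    intro a b ha hb z hz
    refine ((ha z hz).mul (hb z hz)).congr ?_
    filter_upwards [hU.mem_nhds hz] with w hw
    change ext0 U a w * ext0 U b w = _
    rw [ext0_apply _ hw, ext0_apply _ hw, ext0_apply _ hw]
    rfl
  add_mem' := by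
    intro a b ha hb z hz
    refine ((ha z hz).add (hb z hz)).congr ?_
    filter_upwards [hU.mem_nhds hz] with w hw
    change ext0 U a w + ext0 U b w = _
    rw [ext0_apply _ hw, ext0_apply _ hw, ext0_apply _ hw]
    rfl
  algebraMap_mem' := by
    intro c z hz
    exact (analyticAt_const (v := c)).congr (ext0_eq hU (G := fun _ => c) (fun _ => rfl) hz).symm

variable (hU : IsOpen U)

/-- an analytic function as an element of the ring -/
noncomputable def toA (G : ℂ × ℂ → ℂ) (hG : ∀ z ∈ U, AnalyticAt ℂ G z) : AnU hU :=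
  ⟨fun z => G z, fun z hz => (hG z hz).congr (ext0_eq hU (G := G) (fun _ => rfl) hz).symm⟩

/-- the value at a point -/
def evA (p : U) : AnU hU →ₐ[ℂ] ℂ := (Pi.evalAlgHom ℂ (fun _ : U => ℂ) p).comp (AnU hU).val

theorem evA_apply (p : U) (g : AnU hU) : evA hU p g = g.1 p := rfl

theorem ext0_evA (p : U) (g : AnU hU) : ext0 U g.1 p = evA hU p g := by
  rw [ext0_apply _ p.2]
  rfl

/-- the derivative in the direction `d` -/
noncomputable def dD (d : ℂ × ℂ) : Derivation ℂ (AnU hU) (AnU hU) :=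
  Derivation.mk'
    { toFun := fun g => toA hU (fun z => fderiv ℂ (ext0 U g.1) z d) (fun z hz =>
        ((ContinuousLinearMap.apply ℂ ℂ d).analyticAt _).comp (g.2 z hz).fderiv)
      map_add' := fun f g => by
        apply Subtype.ext
        funext z
        change fderiv ℂ (ext0 U (f + g).1) z d = fderiv ℂ (ext0 U f.1) z d +
          fderiv ℂ (ext0 U g.1) z d
        have h1 : ext0 U (f + g).1 =ᶠ[𝓝 (z : ℂ × ℂ)] ext0 U f.1 + ext0 U g.1 := by
          filter_upwards [hU.mem_nhds z.2] with w hw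
          change _ = ext0 U f.1 w + ext0 U g.1 w
          rw [ext0_apply _ hw, ext0_apply _ hw, ext0_apply _ hw]
          rfl
        rw [h1.fderiv_eq, fderiv_add (f.2 z z.2).differentiableAt (g.2 z z.2).differentiableAt]
        rfl
      map_smul' := fun c g => by
        apply Subtype.ext
        funext z
        change fderiv ℂ (ext0 U (c • g).1) z d = c * fderiv ℂ (ext0 U g.1) z d
        have h1 : ext0 U (c • g).1 =ᶠ[𝓝 (z : ℂ × ℂ)] fun w => c • ext0 U g.1 w := by
          filter_upwards [hU.mem_nhds z.2] with w hw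
          rw [ext0_apply _ hw, ext0_apply _ hw]
          rfl
        rw [h1.fderiv_eq, fderiv_fun_const_smul (g.2 z z.2).differentiableAt]
        rfl }
    (fun f g => by
      apply Subtype.ext
      funext z
      change fderiv ℂ (ext0 U (f * g).1) z d = f.1 z * fderiv ℂ (ext0 U g.1) z d +
        g.1 z * fderiv ℂ (ext0 U f.1) z d
      have h1 : ext0 U (f * g).1 =ᶠ[𝓝 (z : ℂ × ℂ)] ext0 U f.1 * ext0 U g.1 := by
        filter_upwards [hU.mem_nhds z.2] with w hw
        change _ = ext0 U f.1 w * ext0 U g.1 w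
        rw [ext0_apply _ hw, ext0_apply _ hw, ext0_apply _ hw]
        rfl
      rw [h1.fderiv_eq, fderiv_mul (f.2 z z.2).differentiableAt (g.2 z z.2).differentiableAt,
        ext0_apply _ z.2, ext0_apply _ z.2]
      rfl)

theorem dD_apply (d : ℂ × ℂ) (g : AnU hU) (z : U) :
    (dD hU d g).1 z = fderiv ℂ (ext0 U g.1) z d := rfl

/-- the derivative along a line -/
theorem hasDerivAt_line (d p : ℂ × ℂ) (g : AnU hU) {t : ℂ} (ht : p + t • d ∈ U) :
    HasDerivAt (fun t : ℂ => ext0 U g.1 (p + t • d)) (ext0 U (dD hU d g).1 (p + t • d)) t := by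
  rw [ext0_apply _ ht, dD_apply]
  have h1 : HasFDerivAt (ext0 U g.1) (fderiv ℂ (ext0 U g.1) (p + t • d)) (p + t • d) :=
    (g.2 _ ht).differentiableAt.hasFDerivAt
  have h2 : HasDerivAt (fun t : ℂ => p + t • d) d t := by
    have := ((hasDerivAt_id t).smul_const d).const_add p
    simpa using this
  exact h1.comp_hasDerivAt t h2

theorem isOpen_line (hU : IsOpen U) (d p : ℂ × ℂ) : IsOpen {t : ℂ | p + t • d ∈ U} :=
  hU.preimage (by fun_prop)

theorem iteratedDeriv_line (d p : ℂ × ℂ) (g : AnU hU) (i : ℕ) : ∀ t : ℂ, p + t • d ∈ U →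
    iteratedDeriv i (fun t : ℂ => ext0 U g.1 (p + t • d)) t =
      (i.factorial : ℂ) * ext0 U (dp (dD hU d) i g).1 (p + t • d) := by
  induction i with
  | zero =>
    intro t _
    rw [iteratedDeriv_zero, Nat.factorial_zero, Nat.cast_one, one_mul]
    rfl
  | succ i ih =>
    intro t ht
    rw [iteratedDeriv_succ]
    have h1 : iteratedDeriv i (fun t : ℂ => ext0 U g.1 (p + t • d)) =ᶠ[𝓝 t]
        fun t => (i.factorial : ℂ) * ext0 U (dp (dD hU d) i g).1 (p + t • d) := by
      filter_upwards [(isOpen_line hU d p).mem_nhds ht] with s hs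
      exact ih s hs
    rw [h1.deriv_eq]
    have h2 := (hasDerivAt_line hU d p (dp (dD hU d) i g) ht).const_mul (i.factorial : ℂ)
    rw [h2.deriv, dp_succ, Nat.factorial_succ]
    rw [ext0_apply _ ht, ext0_apply _ ht]
    change (i.factorial : ℂ) * ((i + 1 : ℂ) * _) = _
    push_cast
    ring

theorem analyticAt_line (d p : ℂ × ℂ) (g : AnU hU) {t : ℂ} (ht : p + t • d ∈ U) :
    AnalyticAt ℂ (fun t : ℂ => ext0 U g.1 (p + t • d)) t := by
  have h1 : AnalyticAt ℂ (fun t : ℂ => p + t • d) t := by fun_prop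
  exact AnalyticAt.fun_comp (g := ext0 U g.1) (f := fun t : ℂ => p + t • d) (g.2 _ ht) h1

/-- the double Taylor series at `p` in the directions `e` (inner) and `d` (outer) -/
noncomputable def TT (p : U) (e d : ℂ × ℂ) : AnU hU →ₐ[ℂ] PS2 :=
  Tay (dD hU d) (Tay (dD hU e) (evA hU p))

theorem TT_lin (p : U) (e d : ℂ × ℂ) {g : AnU hU} {b c : ℂ}
    (he : dD hU e g = algebraMap ℂ (AnU hU) b) (hd : dD hU d g = algebraMap ℂ (AnU hU) c) :
    TT hU p e d g = lin (g.1 p) b c := by
  unfold TT lin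
  rw [Tay_lin _ _ (by rw [hd, Derivation.map_algebraMap]), hd, AlgHom.commutes,
    Tay_lin _ _ (by rw [he, Derivation.map_algebraMap]), he, AlgHom.commutes,
    PowerSeries.algebraMap_apply]
  rfl

/-- division of Taylor series gives an inequality of orders on the line -/
theorem order_of_dvd (p : U) (e d : ℂ × ℂ) {g0 g1 : AnU hU}
    (h : TT hU p e d g0 ∣ TT hU p e d g1) :
    analyticOrderAt (fun t : ℂ => ext0 U g0.1 ((p : ℂ × ℂ) + t • d)) 0 ≤
      analyticOrderAt (fun t : ℂ => ext0 U g1.1 ((p : ℂ × ℂ) + t • d)) 0 := by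
  have hp0 : (p : ℂ × ℂ) + (0 : ℂ) • d ∈ U := by
    rw [zero_smul, add_zero]
    exact p.2
  have hkey : ∀ (g : AnU hU) (N : ℕ),
      (N : ℕ∞) ≤ analyticOrderAt (fun t : ℂ => ext0 U g.1 ((p : ℂ × ℂ) + t • d)) 0 ↔
      ∀ i < N, evA hU p (dp (dD hU d) i g) = 0 := by
    intro g N
    rw [natCast_le_analyticOrderAt_iff_iteratedDeriv_eq_zero (analyticAt_line hU d p g hp0)]
    have h1 : ∀ i, iteratedDeriv i (fun t : ℂ => ext0 U g.1 ((p : ℂ × ℂ) + t • d)) 0 = 0 ↔
        evA hU p (dp (dD hU d) i g) = 0 := by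
      intro i
      rw [iteratedDeriv_line hU d p g i 0 hp0, zero_smul, add_zero, ext0_evA, mul_eq_zero]
      constructor
      · intro h2
        exact h2.resolve_left (by exact_mod_cast (Nat.factorial_ne_zero i))
      · exact Or.inr
    simp only [h1]
  -- restriction to the line
  have hmap : ∀ g : AnU hU, PowerSeries.map (PowerSeries.constantCoeff (R := ℂ)) (TT hU p e d g) =
      PowerSeries.mk fun n => evA hU p (dp (dD hU d) n g) := by
    intro g
    ext n
    rw [PowerSeries.coeff_map, PowerSeries.coeff_mk]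
    unfold TT
    rw [coeff_Tay, ← PowerSeries.coeff_zero_eq_constantCoeff_apply, coeff_Tay, dp_zero]
  obtain ⟨c, hc⟩ := h
  have h2 := congrArg (PowerSeries.map (PowerSeries.constantCoeff (R := ℂ))) hc
  rw [map_mul, hmap, hmap] at h2
  have h3 : ∀ N : ℕ, (∀ i < N, evA hU p (dp (dD hU d) i g0) = 0) →
      ∀ i < N, evA hU p (dp (dD hU d) i g1) = 0 := by
    intro N hN i hi
    have h4 : (PowerSeries.X : PowerSeries ℂ) ^ N ∣
        PowerSeries.mk fun n => evA hU p (dp (dD hU d) n g0) := by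
      rw [PowerSeries.X_pow_dvd_iff]
      intro j hj
      rw [PowerSeries.coeff_mk]
      exact hN j hj
    have h5 : (PowerSeries.X : PowerSeries ℂ) ^ N ∣
        PowerSeries.mk fun n => evA hU p (dp (dD hU d) n g1) := by
      rw [h2]
      exact h4.mul_right _
    rw [PowerSeries.X_pow_dvd_iff] at h5
    have := h5 i hi
    rwa [PowerSeries.coeff_mk] at this
  refine ENat.forall_natCast_le_iff_le.1 fun N hN => ?_
  rw [hkey] at hN ⊢
  exact h3 N hN

end Pool.Agent.N155
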