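import Pool.Agent.N155.Contra

/-! The differential `da / b`. -/

set_option autoImplicit false

open Filter Topology Metric Set MvPolynomial

namespace Pool.Agent.N155

open FF Pool.Agent.Y190.OP Pool.Agent.W602.GT Pool.Agent.TH143.GT

section place

variable {K : Type} [Field K] [Algebra ℂ K]

/-- `da / b` is regular everywhere -/
theorem theta_reg {a b : K} {g2 g3 : ℂ}
    (hab : b ^ 2 = 4 * a ^ 3 - algebraMap ℂ K g2 * a - algebraMap ℂ K g3)
    (hdisc : g2 ^ 3 ≠ 27 * g3 ^ 2) (hb : b ≠ 0) (v : Place ℂ K) {E : Derivation ℂ K K}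
    (hE : DerReg v E) : v.Reg (E a / b) := by
  have hder : 2 * b * E b = (12 * a ^ 2 - algebraMap ℂ K g2) * E a := by
    have h1 := congrArg E hab
    have e4 : E (4 * a ^ 3) = 12 * a ^ 2 * E a := by
      have h4 : (4 : K) = algebraMap ℂ K 4 := (map_ofNat _ 4).symm
      rw [h4, E.leibniz, E.map_algebraMap, smul_zero, add_zero, E.leibniz_pow, ← h4]
      simp only [smul_eq_mul, nsmul_eq_mul]
      push_cast
      ring
    rw [E.leibniz_pow, map_sub, map_sub, e4, E.leibniz, E.map_algebraMap, E.map_algebraMap] at h1
    simp only [smul_eq_mul, nsmul_eq_mul, mul_zero, add_zero, sub_zero, Nat.cast_ofNat,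
      Nat.add_one_sub_one, pow_one] at h1
    linear_combination h1
  have hreg : ∀ c : ℂ, v.Reg (algebraMap ℂ K c) := v.reg_const
  have hpow : ∀ {f : K}, v.Reg f → ∀ n : ℕ, v.Reg (f ^ n) := by
    intro f hf n
    rcases hf with rfl | hf
    · rcases Nat.eq_zero_or_pos n with rfl | hn
      · rw [pow_zero]; exact v.reg_one
      · rw [zero_pow hn.ne']; exact v.reg_zero
    · right
      rw [v.ord_pow]
      positivity
  have hsub : ∀ {f g : K}, v.Reg f → v.Reg g → v.Reg (f - g) := by
    intro f g hf hg
    rw [sub_eq_add_neg]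
    exact v.reg_add hf (v.reg_neg hg)
  have hnat : ∀ m : ℕ, v.Reg (m : K) := by
    intro m
    have : (m : K) = algebraMap ℂ K m := by simp
    rw [this]
    exact hreg _
  by_cases ha : v.Reg a
  · -- finite values
    have hb2 : v.Reg (b ^ 2) := by
      rw [hab]
      have h4 : v.Reg (4 : K) := by exact_mod_cast hnat 4
      exact hsub (hsub (v.reg_mul h4 (hpow ha 3)) (v.reg_mul (hreg _) ha)) (hreg _)
    have hbr : v.Reg b := by
      rw [v.reg_iff hb]
      rw [v.reg_iff (pow_ne_zero _ hb), v.ord_pow] at hb2
      push_cast at hb2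
      linarith
    rcases lt_or_eq_of_le ((v.reg_iff hb).1 hbr) with hpos | hzero
    · -- ramification points
      set p' : K := 12 * a ^ 2 - algebraMap ℂ K g2 with hp'
      have h12 : v.Reg (12 : K) := by exact_mod_cast hnat 12
      have hp'r : v.Reg p' := hsub (v.reg_mul h12 (hpow ha 2)) (hreg _)
      set U : K := algebraMap ℂ K (27 * g3) - algebraMap ℂ K (18 * g2) * a with hUdef
      set V : K := algebraMap ℂ K (6 * g2) * a ^ 2 - algebraMap ℂ K (9 * g3) * a -
        algebraMap ℂ K (g2 ^ 2) with hVdef
      have hUr : v.Reg U := hsub (hreg _) (v.reg_mul (hreg _) ha)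
      have hVr : v.Reg V := hsub (hsub (v.reg_mul (hreg _) (hpow ha 2)) (v.reg_mul (hreg _) ha))
        (hreg _)
      have hbez : U * b ^ 2 + V * p' = algebraMap ℂ K (g2 ^ 3 - 27 * g3 ^ 2) := by
        rw [hab, hUdef, hVdef, hp']
        simp only [map_sub, map_mul, map_pow, map_ofNat]
        ring
      have hΔ : g2 ^ 3 - 27 * g3 ^ 2 ≠ 0 := sub_ne_zero.2 hdisc
      have hp'0 : p' ≠ 0 ∧ v.ord p' = 0 := by
        by_contra hcon
        -- otherwise the discriminant has positive order
        have h1 : U * b ^ 2 = 0 ∨ 0 < v.ord (U * b ^ 2) := by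
          by_cases hU0 : U = 0
          · left; rw [hU0, zero_mul]
          · right
            rw [v.ord_mul hU0 (pow_ne_zero _ hb), v.ord_pow]
            have := (v.reg_iff hU0).1 hUr
            push_cast
            linarith
        have h2 : V * p' = 0 ∨ 0 < v.ord (V * p') := by
          by_cases hV0 : V = 0
          · left; rw [hV0, zero_mul]
          by_cases hp0 : p' = 0
          · left; rw [hp0, mul_zero]
          right
          rw [v.ord_mul hV0 hp0]
          have e1 := (v.reg_iff hV0).1 hVr
          have e2 := (v.reg_iff hp0).1 hp'r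
          have e3 : v.ord p' ≠ 0 := fun h => hcon ⟨hp0, h⟩
          omega
        have h3 : algebraMap ℂ K (g2 ^ 3 - 27 * g3 ^ 2) ≠ 0 := by rwa [Ne, map_eq_zero]
        have h4 : v.ord (algebraMap ℂ K (g2 ^ 3 - 27 * g3 ^ 2)) = 0 := v.ord_const hΔ
        rw [← hbez] at h3 h4
        rcases h1 with h1 | h1
        · rw [h1, zero_add] at h3 h4
          rcases h2 with h2 | h2
          · exact h3 h2
          · omega
        · rcases h2 with h2 | h2
          · rw [h2, add_zero] at h4
            omega
          · have e1 : U * b ^ 2 ≠ 0 := by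
              intro h0
              rw [h0, v.ord_zero] at h1
              omega
            have e2 : V * p' ≠ 0 := by
              intro h0
              rw [h0, v.ord_zero] at h2
              omega
            have := v.ord_add e1 e2 h3
            have := lt_min h1 h2
            omega
      have h5 : E a / b = 2 * E b * p'⁻¹ := by
        have := hp'0.1
        field_simp
        linear_combination -hder
      rw [h5]
      have h2r : v.Reg (2 : K) := by exact_mod_cast hnat 2
      refine v.reg_mul (v.reg_mul h2r (hE b hbr)) (Or.inr ?_)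
      rw [v.ord_inv, hp'0.2, neg_zero]
    · rw [div_eq_mul_inv]
      refine v.reg_mul (hE a ha) (Or.inr ?_)
      rw [v.ord_inv, ← hzero, neg_zero]
  · -- poles
    have ha0 : a ≠ 0 := by
      rintro rfl
      exact ha v.reg_zero
    have hneg : v.ord a < 0 := by
      rw [v.reg_iff ha0] at ha
      linarith
    have h4 : (4 : K) ≠ 0 := by
      have : (4 : K) = algebraMap ℂ K 4 := (map_ofNat _ 4).symm
      rw [this, Ne, map_eq_zero]
      norm_num
    have hord4 : v.ord (4 * a ^ 3) = 3 * v.ord a := by
      have e4 : v.ord (4 : K) = 0 := by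
        have : (4 : K) = algebraMap ℂ K 4 := (map_ofNat _ 4).symm
        rw [this]
        exact v.ord_const (by norm_num)
      rw [v.ord_mul h4 (pow_ne_zero _ ha0), v.ord_pow, e4]
      push_cast
      ring
    set r : K := -(algebraMap ℂ K g2 * a + algebraMap ℂ K g3) with hr
    have hrr : r = 0 ∨ v.ord a ≤ v.ord r := by
      by_cases h0 : r = 0
      · exact Or.inl h0
      right
      rw [hr, v.ord_neg]
      by_cases hg2 : g2 = 0
      · have h1 : algebraMap ℂ K g2 * a + algebraMap ℂ K g3 = algebraMap ℂ K g3 := by
          rw [hg2, map_zero, zero_mul, zero_add]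
        rw [h1]
        by_cases hg3 : g3 = 0
        · exfalso
          apply h0
          rw [hr, h1, hg3, map_zero, neg_zero]
        · rw [v.ord_const hg3]
          exact hneg.le
      · have e1 : v.ord (algebraMap ℂ K g2 * a) = v.ord a := by
          rw [v.ord_mul (by rwa [Ne, map_eq_zero]) ha0, v.ord_const hg2, zero_add]
        by_cases hg3 : g3 = 0
        · rw [hg3, map_zero, add_zero, e1]
        · have h1 := v.ord_add (f := algebraMap ℂ K g2 * a) (g := algebraMap ℂ K g3)
            (mul_ne_zero (by rwa [Ne, map_eq_zero]) ha0) (by rwa [Ne, map_eq_zero]) (by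
              intro h2
              apply h0
              rw [hr, h2, neg_zero])
          rw [e1, v.ord_const hg3, min_eq_left hneg.le] at h1
          exact h1
    have hbr : b ^ 2 = 4 * a ^ 3 + r := by
      rw [hab, hr]
      ring
    have hord : 2 * v.ord b = 3 * v.ord a := by
      have h1 : v.ord (b ^ 2) = 3 * v.ord a := by
        rcases hrr with h0 | h0
        · rw [hbr, h0, add_zero, hord4]
        · by_cases hr0 : r = 0
          · rw [hbr, hr0, add_zero, hord4]
          · rw [hbr, (v.ord_add_eq (mul_ne_zero h4 (pow_ne_zero _ ha0)) hr0 (by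
              rw [hord4]; linarith)).2, hord4]
      rw [v.ord_pow] at h1
      push_cast at h1
      exact h1
    have hw : v.Reg (a / b) := by
      right
      rw [v.ord_div ha0 hb]
      omega
    set s : K := algebraMap ℂ K (2 * g2) * (a / b ^ 2) + algebraMap ℂ K (3 * g3) * (1 / b ^ 2)
      with hs
    have hb2 : b ^ 2 ≠ 0 := pow_ne_zero _ hb
    have hs' : s = 0 ∨ 0 < v.ord s := by
      have hterm : ∀ (c : ℂ) (f : K), f ≠ 0 → 0 < v.ord f →
          algebraMap ℂ K c * f = 0 ∨ 0 < v.ord (algebraMap ℂ K c * f) := by
        intro c f hf hpos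
        by_cases hc : c = 0
        · left; rw [hc, map_zero, zero_mul]
        · right
          rw [v.ord_mul (by rwa [Ne, map_eq_zero]) hf, v.ord_const hc, zero_add]
          exact hpos
      have t1 := hterm (2 * g2) (a / b ^ 2) (div_ne_zero ha0 hb2) (by
        rw [v.ord_div ha0 hb2, v.ord_pow]
        push_cast
        omega)
      have t2 := hterm (3 * g3) (1 / b ^ 2) (div_ne_zero one_ne_zero hb2) (by
        rw [v.ord_div one_ne_zero hb2, v.ord_pow, v.ord_one]
        push_cast
        omega)
      by_cases h0 : s = 0
      · exact Or.inl h0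
      right
      rcases t1 with t1 | t1
      · rcases t2 with t2 | t2
        · exfalso
          apply h0
          rw [hs, t1, t2, add_zero]
        · rw [hs, t1, zero_add]
          exact t2
      · rcases t2 with t2 | t2
        · rw [hs, t2, add_zero]
          exact t1
        · have e1 : algebraMap ℂ K (2 * g2) * (a / b ^ 2) ≠ 0 := by
            intro h1
            rw [h1, v.ord_zero] at t1
            omega
          have e2 : algebraMap ℂ K (3 * g3) * (1 / b ^ 2) ≠ 0 := by
            intro h1
            rw [h1, v.ord_zero] at t2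
            omega
          have h1 := v.ord_add e1 e2 h0
          have h2 := lt_min t1 t2
          rw [hs]
          omega
    have hD : 1 + s ≠ 0 ∧ v.ord (1 + s) = 0 := by
      rcases hs' with h0 | h0
      · rw [h0, add_zero]
        exact ⟨one_ne_zero, v.ord_one⟩
      · have hs0 : s ≠ 0 := by
          intro h1
          rw [h1, v.ord_zero] at h0
          omega
        have h1 := v.ord_add_eq one_ne_zero hs0 (by rw [v.ord_one]; exact h0)
        rw [v.ord_one] at h1
        exact h1
    have hEw : E (a / b) = (b * E a - a * E b) / b ^ 2 := by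
      rw [div_eq_mul_inv, E.leibniz, E.leibniz_inv]
      simp only [smul_eq_mul]
      field_simp
      ring
    have hfin : E a / b = algebraMap ℂ K (-2) * E (a / b) * (1 + s)⁻¹ := by
      rw [eq_mul_inv_iff_mul_eq₀ hD.1, hEw, hs]
      have e2 : algebraMap ℂ K (-2) = -2 := by rw [map_neg, map_ofNat]
      have e3 : algebraMap ℂ K (2 * g2) = 2 * algebraMap ℂ K g2 := by rw [map_mul, map_ofNat]
      have e4 : algebraMap ℂ K (3 * g3) = 3 * algebraMap ℂ K g3 := by rw [map_mul, map_ofNat]
      rw [e2, e3, e4]
      field_simp
      have h1 : a * (2 * b * E b) = a * ((12 * a ^ 2 - algebraMap ℂ K g2) * E a) := by rw [hder]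
      linear_combination (3 * E a) * hab - h1
    rw [hfin]
    refine v.reg_mul (v.reg_mul (hreg _) (hE _ hw)) (Or.inr ?_)
    rw [v.ord_inv, hD.2, neg_zero]

end place

end Pool.Agent.N155
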