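import Pool.Agent.Helper386.D5V.Helper386_FF_Place

/-! The place of a prime element of a unique factorisation domain. -/

set_option autoImplicit false

open FF

namespace Pool.Agent.N155

variable {A : Type} [CommRing A] [IsDomain A] [UniqueFactorizationMonoid A] [Algebra ℂ A]
  {M : Type} [Field M] [Algebra A M] [IsFractionRing A M] [Algebra ℂ M] [IsScalarTower ℂ A M]

theorem le_mult {p a : A} (hp : Prime p) (ha : a ≠ 0) {k : ℕ} (h : p ^ k ∣ a) :
    k ≤ multiplicity p a :=
  (FiniteMultiplicity.of_prime_left hp ha).le_multiplicity_of_pow_dvd h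

theorem mult_add {p a b : A} (hp : Prime p) (hab : a + b ≠ 0) :
    min (multiplicity p a) (multiplicity p b) ≤ multiplicity p (a + b) := by
  apply le_mult hp hab
  apply dvd_add
  · exact (pow_dvd_pow p (min_le_left _ _)).trans (pow_multiplicity_dvd p a)
  · exact (pow_dvd_pow p (min_le_right _ _)).trans (pow_multiplicity_dvd p b)

theorem mult_mul {p a b : A} (hp : Prime p) (ha : a ≠ 0) (hb : b ≠ 0) :
    multiplicity p (a * b) = multiplicity p a + multiplicity p b :=
  multiplicity_mul hp (FiniteMultiplicity.of_prime_left hp (mul_ne_zero ha hb))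

theorem ufd_place {p : A} (hp : Prime p) : ∃ w : Place ℂ M, ∀ a : A, a ≠ 0 →
    w.ord (algebraMap A M a) = (multiplicity p a : ℤ) := by
  classical
  have hinj : Function.Injective (algebraMap A M) := IsFractionRing.injective A M
  have hfrac : ∀ z : M, ∃ a b : A, b ≠ 0 ∧ z = algebraMap A M a / algebraMap A M b := by
    intro z
    obtain ⟨a, b, hb, h⟩ := IsFractionRing.div_surjective (A := A) z
    exact ⟨a, b, nonZeroDivisors.ne_zero hb, h.symm⟩
  choose num den hden hz using hfrac
  have hne : ∀ a : A, a ≠ 0 → algebraMap A M a ≠ 0 := fun a ha h0 =>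
    ha ((map_eq_zero_iff _ hinj).1 h0)
  have hnum : ∀ z, z ≠ 0 → num z ≠ 0 := by
    intro z hz0 h0
    apply hz0
    rw [hz z, h0, map_zero, zero_div]
  have hwd : ∀ (z : M) (P Q : A), z ≠ 0 → Q ≠ 0 → z = algebraMap A M P / algebraMap A M Q →
      P ≠ 0 ∧ (multiplicity p (num z) : ℤ) - multiplicity p (den z) =
        multiplicity p P - multiplicity p Q := by
    intro z P Q hz0 hQ hzPQ
    have hP : P ≠ 0 := by
      intro h0
      apply hz0
      rw [hzPQ, h0, map_zero, zero_div]
    refine ⟨hP, ?_⟩
    have h1 : num z * Q = P * den z := by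
      apply hinj
      rw [map_mul, map_mul]
      have h5 : algebraMap A M P / algebraMap A M Q = algebraMap A M (num z) /
          algebraMap A M (den z) := by
        rw [← hzPQ]
        exact hz z
      rw [div_eq_div_iff (hne _ hQ) (hne _ (hden z))] at h5
      rw [← h5]
    have h3 := congrArg (multiplicity p) h1
    rw [mult_mul hp (hnum z hz0) hQ, mult_mul hp hP (hden z)] at h3
    have h4 : ((multiplicity p (num z) + multiplicity p Q : ℕ) : ℤ) =
      ((multiplicity p P + multiplicity p (den z) : ℕ) : ℤ) := by rw [h3]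
    push_cast at h4
    linarith
  let o : M → ℤ := fun z => if z = 0 then 0 else
    (multiplicity p (num z) : ℤ) - multiplicity p (den z)
  have ho : ∀ (z : M) (P Q : A), z ≠ 0 → Q ≠ 0 → z = algebraMap A M P / algebraMap A M Q →
      o z = multiplicity p P - multiplicity p Q := by
    intro z P Q hz0 hQ hzPQ
    simp only [o, if_neg hz0]
    exact (hwd z P Q hz0 hQ hzPQ).2
  have hunit : ∀ u : A, IsUnit u → multiplicity p u = 0 := by
    intro u hu
    rw [multiplicity_eq_zero]
    intro h
    exact hp.not_isUnit (isUnit_of_dvd_unit h hu)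
  have hval : ∀ a : A, a ≠ 0 → o (algebraMap A M a) = multiplicity p a := by
    intro a ha
    rw [ho _ a 1 (hne a ha) one_ne_zero (by rw [map_one, div_one]), hunit 1 isUnit_one]
    simp
  refine ⟨⟨o, by simp [o], ?_, ?_, ?_, ?_⟩, hval⟩
  · intro f g hf hg
    have h1 : f * g = algebraMap A M (num f * num g) / algebraMap A M (den f * den g) := by
      conv_lhs => rw [hz f, hz g]
      rw [map_mul, map_mul, div_mul_div_comm]
    rw [ho _ _ _ (mul_ne_zero hf hg) (mul_ne_zero (hden f) (hden g)) h1,
      ho f _ _ hf (hden f) (hz f), ho g _ _ hg (hden g) (hz g),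
      mult_mul hp (hnum f hf) (hnum g hg), mult_mul hp (hden f) (hden g)]
    push_cast
    ring
  · intro f g hf hg hfg
    have h1 : f + g = algebraMap A M (num f * den g + den f * num g) /
        algebraMap A M (den f * den g) := by
      conv_lhs => rw [hz f, hz g]
      rw [div_add_div _ _ (hne _ (hden f)) (hne _ (hden g)), map_add, map_mul, map_mul, map_mul]
    have h2 : num f * den g + den f * num g ≠ 0 := by
      intro h0
      apply hfg
      rw [h1, h0, map_zero, zero_div]
    rw [ho _ _ _ hfg (mul_ne_zero (hden f) (hden g)) h1, ho f _ _ hf (hden f) (hz f),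
      ho g _ _ hg (hden g) (hz g), mult_mul hp (hden f) (hden g)]
    have h3 := mult_add (p := p) hp h2
    rw [mult_mul hp (hnum f hf) (hden g), mult_mul hp (hden f) (hnum g hg)] at h3
    have h4 : ((min (multiplicity p (num f) + multiplicity p (den g))
      (multiplicity p (den f) + multiplicity p (num g)) : ℕ) : ℤ) ≤
      ((multiplicity p (num f * den g + den f * num g) : ℕ) : ℤ) := by exact_mod_cast h3
    push_cast at h4 ⊢
    rcases min_le_iff.1 h4 with h5 | h5
    · exact (min_le_left _ _).trans (by linarith)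
    · exact (min_le_right _ _).trans (by linarith)
  · intro c hc
    rw [IsScalarTower.algebraMap_apply ℂ A M]
    have hu : IsUnit (algebraMap ℂ A c) := (IsUnit.mk0 c hc).map _
    rw [hval _ hu.ne_zero, hunit _ hu]
    rfl
  · refine ⟨algebraMap A M p, hne p hp.ne_zero, ?_⟩
    rw [hval p hp.ne_zero, multiplicity_self]
    rfl

variable {p : A} {w : Place ℂ M}

/-- the elements of the ring are regular -/
theorem ufd_reg (hw : ∀ a : A, a ≠ 0 → w.ord (algebraMap A M a) = (multiplicity p a : ℤ)) (a : A) :
    w.Reg (algebraMap A M a) := by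
  by_cases ha : a = 0
  · rw [ha, map_zero]; exact w.reg_zero
  · right
    rw [hw a ha]
    positivity

theorem ufd_ord_zero (hw : ∀ a : A, a ≠ 0 → w.ord (algebraMap A M a) = (multiplicity p a : ℤ))
    {a : A} (ha : ¬ p ∣ a) : w.ord (algebraMap A M a) = 0 := by
  have h0 : a ≠ 0 := by
    rintro rfl
    exact ha (dvd_zero _)
  rw [hw a h0, multiplicity_eq_zero.2 ha]
  rfl

/-- the elements of the valuation ring -/
theorem ufd_reg_iff (hp : Prime p)
    (hw : ∀ a : A, a ≠ 0 → w.ord (algebraMap A M a) = (multiplicity p a : ℤ)) (f : M) :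
    w.Reg f ↔ ∃ a b : A, ¬ p ∣ b ∧ f = algebraMap A M a / algebraMap A M b := by
  have hinj : Function.Injective (algebraMap A M) := IsFractionRing.injective A M
  have hne : ∀ a : A, a ≠ 0 → algebraMap A M a ≠ 0 := fun a ha h0 =>
    ha ((map_eq_zero_iff _ hinj).1 h0)
  constructor
  · intro hf
    obtain ⟨a, b, hab, h⟩ := IsFractionRing.exists_reduced_fraction (A := A) f
    rw [IsFractionRing.mk'_eq_div] at h
    refine ⟨a, b, fun hb => ?_, h.symm⟩
    have hb0 : (b : A) ≠ 0 := nonZeroDivisors.coe_ne_zero b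
    by_cases ha : a = 0
    · rw [ha] at hab
      exact hp.not_isUnit (isUnit_of_dvd_unit hb (isRelPrime_zero_left.1 hab))
    have hpa : ¬ p ∣ a := fun h2 => hp.not_isUnit (hab h2 hb)
    have hf0 : f ≠ 0 := by
      rw [← h]
      exact div_ne_zero (hne a ha) (hne _ hb0)
    have h2 := (w.reg_iff hf0).1 hf
    rw [← h, w.ord_div (hne a ha) (hne _ hb0), ufd_ord_zero hw hpa, hw _ hb0] at h2
    have h3 : multiplicity p (b : A) = 0 := by
      have : (multiplicity p (b : A) : ℤ) ≤ 0 := by linarith
      exact_mod_cast le_antisymm this (by positivity)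
    exact (multiplicity_eq_zero.1 h3) hb
  · rintro ⟨a, b, hb, rfl⟩
    rw [div_eq_mul_inv]
    refine w.reg_mul (ufd_reg hw a) (Or.inr ?_)
    rw [w.ord_inv, ufd_ord_zero hw hb, neg_zero]

/-- an element which is regular at all the primes lies in the ring -/
theorem ufd_mem {f : M} (h : ∀ p : A, Prime p → ∀ w : Place ℂ M,
    (∀ a : A, a ≠ 0 → w.ord (algebraMap A M a) = (multiplicity p a : ℤ)) → w.Reg f) :
    ∃ a, f = algebraMap A M a := by
  have hinj : Function.Injective (algebraMap A M) := IsFractionRing.injective A M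
  have hne : ∀ a : A, a ≠ 0 → algebraMap A M a ≠ 0 := fun a ha h0 =>
    ha ((map_eq_zero_iff _ hinj).1 h0)
  obtain ⟨a, b, hab, hf⟩ := IsFractionRing.exists_reduced_fraction (A := A) f
  rw [IsFractionRing.mk'_eq_div] at hf
  have hb0 : (b : A) ≠ 0 := nonZeroDivisors.coe_ne_zero b
  by_cases hu : IsUnit (b : A)
  · obtain ⟨u, hu⟩ := hu
    refine ⟨a * (u⁻¹ : Aˣ), ?_⟩
    rw [← hf, map_mul, div_eq_mul_inv]
    congr 1
    apply inv_eq_of_mul_eq_one_right
    rw [← map_mul, ← hu, Units.mul_inv, map_one]
  · exfalso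
    obtain ⟨p, hp, hpb⟩ := WfDvdMonoid.exists_irreducible_factor hu hb0
    have hp' : Prime p := UniqueFactorizationMonoid.irreducible_iff_prime.1 hp
    obtain ⟨w, hw⟩ := ufd_place (M := M) hp'
    have h1 := h p hp' w hw
    obtain ⟨a', b', hb', he⟩ := (ufd_reg_iff hp' hw f).1 h1
    have hb'0 : b' ≠ 0 := by
      rintro rfl
      exact hb' (dvd_zero _)
    rw [← hf, div_eq_div_iff (hne _ hb0) (hne _ hb'0), ← map_mul, ← map_mul] at he
    have h2 := hinj he
    have h3 : p ∣ a * b' := by
      rw [h2]
      exact hpb.mul_left _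
    rcases hp'.dvd_or_dvd h3 with h4 | h4
    · exact hp'.not_isUnit (hab h4 hpb)
    · exact hb' h4

end Pool.Agent.N155
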