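import Pool.Agent.N155.Cur
import Pool.Agent.Helper386.D5V.Helper386_FF_Div

/-! Valuation rings of functions bounded near a sequence of points. -/

set_option autoImplicit false

open Filter Topology Metric Set

namespace Pool.Agent.N155

/-- a representative -/
noncomputable def rep (x : MK) : ℂ → ℂ := Classical.choose (cl_surj x)

theorem rep_mero (x : MK) : Meromorphic (rep x) := Classical.choose (Classical.choose_spec (cl_surj x))

theorem cl_rep (x : MK) : cl (rep x) (rep_mero x) = x :=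
  Classical.choose_spec (Classical.choose_spec (cl_surj x))

theorem rep_cl {f : ℂ → ℂ} (hf : Meromorphic f) : ∀ᶠ z in codiscrete ℂ, rep (cl f hf) z = f z := by
  have h := cl_rep (cl f hf)
  exact cl_eq.1 h

theorem rep_mul (x y : MK) : ∀ᶠ z in codiscrete ℂ, rep (x * y) z = rep x z * rep y z := by
  have h : x * y = cl (rep x * rep y) ((rep_mero x).mul (rep_mero y)) := by
    rw [← cl_mul (rep_mero x) (rep_mero y), cl_rep, cl_rep]
  have h2 := rep_cl ((rep_mero x).mul (rep_mero y))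
  rw [← h] at h2
  exact h2

theorem rep_add (x y : MK) : ∀ᶠ z in codiscrete ℂ, rep (x + y) z = rep x z + rep y z := by
  have h : x + y = cl (rep x + rep y) ((rep_mero x).add (rep_mero y)) := by
    rw [← cl_add (rep_mero x) (rep_mero y), cl_rep, cl_rep]
  have h2 := rep_cl ((rep_mero x).add (rep_mero y))
  rw [← h] at h2
  exact h2

theorem rep_const (c : ℂ) : ∀ᶠ z in codiscrete ℂ, rep (algebraMap ℂ MK c) z = c := by
  rw [← cl_const]
  exact rep_cl _

theorem rep_inv (x : MK) : ∀ᶠ z in codiscrete ℂ, rep (x⁻¹) z = (rep x z)⁻¹ := by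
  have h : x⁻¹ = cl (rep x)⁻¹ (rep_mero x).inv := by
    rw [← cl_inv (rep_mero x), cl_rep]
  have h2 := rep_cl (rep_mero x).inv
  rw [← h] at h2
  exact h2

theorem rep_ne {x : MK} (hx : x ≠ 0) : ∀ᶠ z in codiscrete ℂ, rep x z ≠ 0 := by
  refine mero_ne (rep_mero x) fun h => hx ?_
  rw [← cl_rep x]
  exact cl_eq_zero.2 h

/-- the dichotomy for meromorphic functions -/
theorem mero_lim {f : ℂ → ℂ} (hf : Meromorphic f) (z : ℂ) :
    (∃ L, Tendsto f (𝓝[≠] z) (𝓝 L)) ∨ Tendsto f (𝓝[≠] z) (Bornology.cobounded ℂ) := by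
  rcases lt_or_ge (meromorphicOrderAt f z) 0 with h | h
  · right
    exact tendsto_cobounded_of_meromorphicOrderAt_neg h
  · left
    exact tendsto_nhds_of_meromorphicOrderAt_nonneg (hf z) h

theorem ev_const_nhds {z : ℂ} {C D : ℝ} (h : ∀ᶠ _w in 𝓝[≠] z, C ≤ D) : C ≤ D := h.exists.choose_spec

/-- the ring of meromorphic functions bounded near the points `c m` -/
def VM (𝓤 : Ultrafilter ℕ) (c : ℕ → ℂ) : ValuationSubring MK where
  carrier := {x | ∃ C : ℝ, ∀ᶠ m in (𝓤 : Filter ℕ), ∀ᶠ z in 𝓝[≠] (c m), ‖rep x z‖ ≤ C}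
  mul_mem' := by
    rintro x y ⟨C, hC⟩ ⟨D, hD⟩
    refine ⟨C * D, ?_⟩
    filter_upwards [hC, hD] with m h1 h2
    filter_upwards [h1, h2, codis_ev (rep_mul x y) (c m)] with z h3 h4 h5
    rw [h5, norm_mul]
    exact mul_le_mul h3 h4 (norm_nonneg _) ((norm_nonneg _).trans h3)
  one_mem' := by
    refine ⟨1, Eventually.of_forall fun m => ?_⟩
    have h := rep_const 1
    rw [map_one] at h
    filter_upwards [codis_ev h (c m)] with z hz
    rw [hz, norm_one]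
  add_mem' := by
    rintro x y ⟨C, hC⟩ ⟨D, hD⟩
    refine ⟨C + D, ?_⟩
    filter_upwards [hC, hD] with m h1 h2
    filter_upwards [h1, h2, codis_ev (rep_add x y) (c m)] with z h3 h4 h5
    rw [h5]
    exact (norm_add_le _ _).trans (add_le_add h3 h4)
  zero_mem' := by
    refine ⟨0, Eventually.of_forall fun m => ?_⟩
    have h := rep_const 0
    rw [map_zero] at h
    filter_upwards [codis_ev h (c m)] with z hz
    rw [hz, norm_zero]
  neg_mem' := by
    rintro x ⟨C, hC⟩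
    refine ⟨C, ?_⟩
    filter_upwards [hC] with m h1
    have h := rep_mul (algebraMap ℂ MK (-1)) x
    have h' := rep_const (-1)
    have e1 : algebraMap ℂ MK (-1) * x = -x := by
      rw [map_neg, map_one, neg_one_mul]
    rw [e1] at h
    filter_upwards [h1, codis_ev h (c m), codis_ev h' (c m)] with z h3 h4 h5
    rw [h4, h5, norm_mul, norm_neg, norm_one, one_mul]
    exact h3
  mem_or_inv_mem' := by
    intro x
    by_cases hb : ∀ᶠ m in (𝓤 : Filter ℕ), ∀ᶠ z in 𝓝[≠] (c m), ‖rep x z‖ ≤ 2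
    · left
      exact ⟨2, hb⟩
    · right
      have hb' := Ultrafilter.eventually_not.2 hb
      refine ⟨1, ?_⟩
      filter_upwards [hb'] with m hm
      have h1 : ∀ᶠ z in 𝓝[≠] (c m), 1 ≤ ‖rep x z‖ := by
        rcases mero_lim (rep_mero x) (c m) with ⟨L, hL⟩ | hL
        · have h2 := hL.norm
          rcases lt_or_ge ‖L‖ 2 with h3 | h3
          · exfalso
            apply hm
            filter_upwards [h2.eventually_lt_const h3] with z hz using hz.le
          · filter_upwards [h2.eventually_const_lt (by linarith : (1 : ℝ) < ‖L‖)] with z hz using hz.le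
        · have h6 := (tendsto_norm_cobounded_atTop (E := ℂ)).comp hL
          filter_upwards [h6.eventually_ge_atTop 1] with z hz using hz
      filter_upwards [h1, codis_ev (rep_inv x) (c m)] with z hz1 hz2
      rw [hz2, norm_inv]
      exact inv_le_one_of_one_le₀ hz1

theorem mem_VM {𝓤 : Ultrafilter ℕ} {c : ℕ → ℂ} {f : ℂ → ℂ} {hf : Meromorphic f} :
    cl f hf ∈ VM 𝓤 c ↔ ∃ C : ℝ, ∀ᶠ m in (𝓤 : Filter ℕ), ∀ᶠ z in 𝓝[≠] (c m), ‖f z‖ ≤ C := by
  constructor
  · rintro ⟨C, hC⟩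
    refine ⟨C, ?_⟩
    filter_upwards [hC] with m h1
    filter_upwards [h1, codis_ev (rep_cl hf) (c m)] with z h3 h4
    rwa [← h4]
  · rintro ⟨C, hC⟩
    refine ⟨C, ?_⟩
    filter_upwards [hC] with m h1
    filter_upwards [h1, codis_ev (rep_cl hf) (c m)] with z h3 h4
    rwa [h4]

/-- the value `l` of `x` along the sequence `c` -/
def HasVal (𝓤 : Ultrafilter ℕ) (c : ℕ → ℂ) (x : MK) (l : ℂ) : Prop :=
  ∀ ε > 0, ∀ᶠ m in (𝓤 : Filter ℕ), ∀ᶠ z in 𝓝[≠] (c m), ‖rep x z - l‖ < ε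

theorem exists_val {𝓤 : Ultrafilter ℕ} {c : ℕ → ℂ} {x : MK} (hx : x ∈ VM 𝓤 c) :
    ∃ l, HasVal 𝓤 c x l := by
  classical
  obtain ⟨C, hC⟩ := hx
  have h1 : ∀ᶠ m in (𝓤 : Filter ℕ), ∃ L, Tendsto (rep x) (𝓝[≠] (c m)) (𝓝 L) ∧ ‖L‖ ≤ C := by
    filter_upwards [hC] with m hm
    rcases mero_lim (rep_mero x) (c m) with ⟨L, hL⟩ | hL
    · exact ⟨L, hL, le_of_tendsto hL.norm hm⟩
    · exfalso
      have h6 := (tendsto_norm_cobounded_atTop (E := ℂ)).comp hL
      have h7 := h6.eventually_gt_atTop C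
      obtain ⟨y, hy1, hy2⟩ := (hm.and h7).exists
      exact absurd hy1 (not_le.2 hy2)
  let Lf : ℕ → ℂ := fun m => if h : ∃ L, Tendsto (rep x) (𝓝[≠] (c m)) (𝓝 L) ∧ ‖L‖ ≤ C then
    h.choose else 0
  have h2 : ∀ᶠ m in (𝓤 : Filter ℕ), Tendsto (rep x) (𝓝[≠] (c m)) (𝓝 (Lf m)) ∧ ‖Lf m‖ ≤ C := by
    filter_upwards [h1] with m hm
    have : Lf m = hm.choose := by simp only [Lf]; rw [dif_pos hm]
    rw [this]
    exact hm.choose_spec
  obtain ⟨l, hl⟩ := exists_lim (h2.mono fun m hm => hm.2)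
  refine ⟨l, fun ε hε => ?_⟩
  have h3 : ∀ᶠ m in (𝓤 : Filter ℕ), ‖Lf m - l‖ < ε := by
    have := hl.sub_const l
    rw [sub_self] at this
    exact this.norm.eventually_lt_const (by simpa using hε)
  filter_upwards [h2, h3] with m h4 h5
  exact ((h4.1.sub_const l).norm).eventually_lt_const h5

theorem HasVal.mem {𝓤 : Ultrafilter ℕ} {c : ℕ → ℂ} {x : MK} {l : ℂ} (h : HasVal 𝓤 c x l) :
    x ∈ VM 𝓤 c := by
  refine ⟨‖l‖ + 1, ?_⟩
  filter_upwards [h 1 one_pos] with m hm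
  filter_upwards [hm] with z hz
  have h1 : ‖rep x z‖ ≤ ‖rep x z - l‖ + ‖l‖ := by
    have := norm_add_le (rep x z - l) l
    rwa [sub_add_cancel] at this
  linarith

theorem HasVal.unique {𝓤 : Ultrafilter ℕ} {c : ℕ → ℂ} {x : MK} {l l' : ℂ} (h : HasVal 𝓤 c x l)
    (h' : HasVal 𝓤 c x l') : l = l' := by
  by_contra hne
  have h0 : 0 < ‖l - l'‖ / 2 := by
    have := norm_pos_iff.2 (sub_ne_zero.2 hne)
    positivity
  obtain ⟨m, hm⟩ := ((h _ h0).and (h' _ h0)).exists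
  obtain ⟨z, hz1, hz2⟩ := (hm.1.and hm.2).exists
  have h1 : ‖l - l'‖ ≤ ‖rep x z - l'‖ + ‖rep x z - l‖ := by
    have := norm_sub_le (rep x z - l') (rep x z - l)
    rwa [sub_sub_sub_cancel_left] at this
  linarith

theorem HasVal.sub_const {𝓤 : Ultrafilter ℕ} {c : ℕ → ℂ} {x : MK} {l : ℂ} (h : HasVal 𝓤 c x l)
    (a : ℂ) : HasVal 𝓤 c (x - algebraMap ℂ MK a) (l - a) := by
  intro ε hε
  filter_upwards [h ε hε] with m hm
  have e1 := rep_add x (algebraMap ℂ MK (-a))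
  rw [map_neg, ← sub_eq_add_neg] at e1
  have e2 := rep_const (-a)
  rw [map_neg] at e2
  filter_upwards [hm, codis_ev e1 (c m), codis_ev e2 (c m)] with z h1 h2 h3
  rw [h2, h3]
  have : rep x z + -a - (l - a) = rep x z - l := by ring
  rwa [this]

/-- a function with value zero is not a unit -/
theorem HasVal.inv_not {𝓤 : Ultrafilter ℕ} {c : ℕ → ℂ} {x : MK} (h : HasVal 𝓤 c x 0)
    (hx : x ≠ 0) : x⁻¹ ∉ VM 𝓤 c := by
  rintro ⟨C, hC⟩
  have hpos : 0 < 1 / (|C| + 1) := by positivity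
  obtain ⟨m, hm1, hm2⟩ := (hC.and (h _ hpos)).exists
  obtain ⟨z, ⟨hz1, hz2⟩, hz3, hz4⟩ := ((hm1.and hm2).and ((codis_ev (rep_inv x) (c m)).and
    (codis_ev (rep_ne hx) (c m)))).exists
  rw [hz3, norm_inv] at hz1
  rw [sub_zero] at hz2
  have h0 : 0 < ‖rep x z‖ := norm_pos_iff.2 hz4
  have h1 : |C| + 1 < ‖rep x z‖⁻¹ := by
    rw [lt_inv_comm₀ (by positivity) h0, ← one_div]
    exact hz2
  have h2 := le_abs_self C
  linarith

/-- a non-unit has value zero -/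
theorem hasVal_zero {𝓤 : Ultrafilter ℕ} {c : ℕ → ℂ} {x : MK} (hx : x ∈ VM 𝓤 c)
    (hx' : x⁻¹ ∉ VM 𝓤 c) : HasVal 𝓤 c x 0 := by
  obtain ⟨l, hl⟩ := exists_val hx
  by_cases hl0 : l = 0
  · rwa [hl0] at hl
  exfalso
  apply hx'
  have hpos : 0 < ‖l‖ / 2 := by
    have := norm_pos_iff.2 hl0
    positivity
  refine ⟨(‖l‖ / 2)⁻¹, ?_⟩
  filter_upwards [hl _ hpos] with m hm
  filter_upwards [hm, codis_ev (rep_inv x) (c m)] with z hz1 hz2
  rw [hz2, norm_inv]
  apply inv_anti₀ hpos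
  have h1 : ‖l‖ ≤ ‖rep x z‖ + ‖rep x z - l‖ := by
    have := norm_sub_le (rep x z) (rep x z - l)
    rwa [sub_sub_cancel] at this
  linarith

/-- a meromorphic function on a connected set which is small at some point and not everywhere takes
all the moduli in between -/
theorem exists_modulus {f : ℂ → ℂ} (hf : Meromorphic f) {S : Set ℂ} (hS : IsPreconnected S)
    {z0 : ℂ} (hz0 : z0 ∈ S) {ρ : ℝ} (h0 : ∃ ε > 0, ∀ᶠ z in 𝓝[≠] z0, ‖f z‖ ≤ ρ - ε) {w : ℂ}
    (hw : w ∈ S) (h1 : ¬ ∀ᶠ z in 𝓝[≠] w, ‖f z‖ ≤ ρ) :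
    ∃ z ∈ S, ∃ L, ‖L‖ = ρ ∧ Tendsto f (𝓝[≠] z) (𝓝 L) := by
  by_contra hcon
  push Not at hcon
  let A : Set ℂ := {z | ∃ ε > 0, ∀ᶠ w in 𝓝[≠] z, ‖f w‖ ≤ ρ - ε}
  let A' : Set ℂ := {z | ∃ ε > 0, ∀ᶠ w in 𝓝[≠] z, ρ + ε ≤ ‖f w‖}
  have hopen : ∀ p : ℂ → Prop, ∀ z, (∀ᶠ w in 𝓝[≠] z, p w) →
      ∀ᶠ z' in 𝓝 z, ∀ᶠ w in 𝓝[≠] z', p w := by
    intro p z h
    have h2 : ∀ᶠ z' in 𝓝[≠] z, ∀ᶠ w in 𝓝[≠] z', p w := by
      have h1 := h
      rw [← eventually_eventually_nhdsWithin] at h1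
      filter_upwards [h1, self_mem_nhdsWithin] with w hw hwz
      rw [IsOpen.nhdsWithin_eq isOpen_compl_singleton hwz] at hw
      exact hw.filter_mono nhdsWithin_le_nhds
    rw [eventually_nhdsWithin_iff] at h2
    filter_upwards [h2] with z' hz'
    by_cases he : z' = z
    · rw [he]; exact h
    · exact hz' he
  have hA : IsOpen A := by
    rw [isOpen_iff_mem_nhds]
    rintro z ⟨ε, hε, h⟩
    filter_upwards [hopen _ z h] with z' hz'
    exact ⟨ε, hε, hz'⟩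
  have hA' : IsOpen A' := by
    rw [isOpen_iff_mem_nhds]
    rintro z ⟨ε, hε, h⟩
    filter_upwards [hopen _ z h] with z' hz'
    exact ⟨ε, hε, hz'⟩
  have hcov : S ⊆ A ∪ A' := by
    intro z hz
    rcases mero_lim hf z with ⟨L, hL⟩ | hL
    · rcases lt_trichotomy ‖L‖ ρ with h | h | h
      · left
        refine ⟨(ρ - ‖L‖) / 2, by linarith, ?_⟩
        filter_upwards [hL.norm.eventually_lt_const (show ‖L‖ < ρ - (ρ - ‖L‖) / 2 by linarith)]
          with w hw using hw.le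
      · exact absurd hL (hcon z hz L h)
      · right
        refine ⟨(‖L‖ - ρ) / 2, by linarith, ?_⟩
        filter_upwards [hL.norm.eventually_const_lt (show ρ + (‖L‖ - ρ) / 2 < ‖L‖ by linarith)]
          with w hw using hw.le
    · right
      refine ⟨1, one_pos, ?_⟩
      have h6 := (tendsto_norm_cobounded_atTop (E := ℂ)).comp hL
      filter_upwards [h6.eventually_ge_atTop (ρ + 1)] with z hz using hz
  have hwA : w ∈ A' := by
    rcases hcov hw with ⟨ε, hε, h⟩ | h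
    · exfalso
      apply h1
      filter_upwards [h] with z hz
      linarith
    · exact h
  obtain ⟨z, hz, ⟨ε, hε, h2⟩, ε', hε', h3⟩ := hS A A' hA hA' hcov ⟨z0, hz0, h0⟩ ⟨w, hw, hwA⟩
  obtain ⟨v, hv1, hv2⟩ := (h2.and h3).exists
  linarith

end Pool.Agent.N155
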